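import Pool.Agent.X323.GI.CycDef
import Pool.Agent.Y735.EL.Top

/-!
The linear systems of all forms.
-/

set_option autoImplicit false

namespace Pool.Agent.X323.GI

open MvPolynomial

/-- a form is the sum of its monomials -/
theorem form_sum {K : Type} [Field K] {n d : ℕ} [Fintype {I : Fin (n + 1) →₀ ℕ // I.degree = d}]
    {F : MvPolynomial (Fin (n + 1)) K} (hF : F.IsHomogeneous d) :
    F = ∑ j : {I : Fin (n + 1) →₀ ℕ // I.degree = d}, monomial j.1 (F.coeff j.1) := by
  classical
  ext I
  rw [coeff_sum]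
  by_cases hI : I.degree = d
  · rw [Finset.sum_eq_single ⟨I, hI⟩]
    · rw [coeff_monomial, if_pos rfl]
    · intro j _ hj
      rw [coeff_monomial, if_neg]
      intro h
      exact hj (Subtype.ext h)
    · intro h
      exact absurd (Finset.mem_univ _) h
  · rw [Finset.sum_eq_zero, hF.coeff_eq_zero hI]
    intro j _
    rw [coeff_monomial, if_neg]
    rintro rfl
    exact hI j.2

/-- the linear systems of all forms -/
theorem generic_full {k : Type} [Field k] [Algebra k ℂ] {n : ℕ} {A : Type} [Finite A]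
    {d : A → ℕ} {F : A → MvPolynomial (Fin (n + 1)) ℂ} (hF : ∀ a, (F a).IsHomogeneous (d a))
    (hind : AlgebraicIndependent k
      fun p : (a : A) × {I : Fin (n + 1) →₀ ℕ // I.degree = d a} => (F p.1).coeff p.2.1) :
    GenericMembers k d Set.univ F := by
  classical
  have hfin : ∀ a, Finite {I : Fin (n + 1) →₀ ℕ // I.degree = d a} := by
    intro a
    have h1 : {m : Fin (n + 1) →₀ ℕ | m.degree = d a}.Finite := by
      refine (Finsupp.finite_of_degree_le (d a)).subset ?_
      intro m hm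
      exact le_of_eq hm
    exact h1
  have hft : ∀ a, Fintype {I : Fin (n + 1) →₀ ℕ // I.degree = d a} := fun a => Fintype.ofFinite _
  obtain ⟨I0, hI0⟩ : ∃ I0 : A → Fin (n + 1) →₀ ℕ, ∀ a, (I0 a).degree = d a :=
    ⟨fun a => Finsupp.single 0 (d a), fun a => Finsupp.degree_single _ _⟩
  have h0 : ∀ a, (F a).coeff (I0 a) ≠ 0 := fun a => hind.ne_zero ⟨a, ⟨I0 a, hI0 a⟩⟩
  have hrat := Pool.Agent.Y741.ratio_indep_fam hind I0 hI0
  have hgen2 := Pool.Agent.Y735.EL.ind_unflat (I0 := fun a => ⟨I0 a, hI0 a⟩) hrat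
  refine ⟨fun a => {I : Fin (n + 1) →₀ ℕ // I.degree = d a}, hft, fun a j => monomial j.1 1,
    fun a j => (F a).coeff j.1, fun a => ⟨I0 a, hI0 a⟩, fun a j => ?_, fun c _ a i e he => ?_, h0,
    hgen2, fun a => ?_⟩
  · exact isHomogeneous_monomial _ j.2
  · refine ⟨⟨Finsupp.single c (d a - e) + Finsupp.single i e, ?_⟩, ?_⟩
    · rw [map_add, Finsupp.degree_single, Finsupp.degree_single]
      omega
    · rw [X_pow_eq_monomial, X_pow_eq_monomial, monomial_mul, one_mul]
  · conv_lhs => rw [form_sum (hF a)]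
    refine Finset.sum_congr rfl fun j _ => ?_
    rw [map_monomial, map_one, C_mul_monomial, mul_one]

end Pool.Agent.X323.GI
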