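import Mathlib

/-!
Very general forms have algebraically independent coefficients.
-/

set_option autoImplicit false

namespace Pool.Agent.X323.GI

open MvPolynomial

/-- the polynomials with rational coefficients -/
def Rats (σ : Type) : Set (MvPolynomial σ ℂ) :=
  {P | ∃ p : MvPolynomial σ ℚ, p ≠ 0 ∧ map (algebraMap ℚ ℂ) p = P}

theorem rats_countable {σ : Type} [Countable σ] : (Rats σ).Countable := by
  have h1 : Countable (MvPolynomial σ ℚ) := by
    rw [← Cardinal.mk_le_aleph0_iff]
    refine (MvPolynomial.cardinalMk_le_max (σ := σ) (R := ℚ)).trans ?_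
    exact max_le (max_le (Cardinal.mk_le_aleph0_iff.2 inferInstance)
      (Cardinal.mk_le_aleph0_iff.2 inferInstance)) le_rfl
  refine (Set.countable_range (map (σ := σ) (algebraMap ℚ ℂ))).mono ?_
  rintro P ⟨p, -, hp⟩
  exact ⟨p, hp⟩

theorem rats_ne {σ : Type} : (0 : MvPolynomial σ ℂ) ∉ Rats σ := by
  rintro ⟨p, hp, h0⟩
  apply hp
  apply map_injective _ (algebraMap ℚ ℂ).injective
  rw [h0, map_zero]

theorem rats_indep {σ : Type} {x : σ → ℂ} (h : ∀ P ∈ Rats σ, eval x P ≠ 0) :
    AlgebraicIndependent ℚ x := by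
  rw [algebraicIndependent_iff]
  intro p hp
  by_contra hne
  apply h _ ⟨p, hne, rfl⟩
  rw [eval_map]
  exact hp

end Pool.Agent.X323.GI
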