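import Pool.Agent.X323.GI.Sp
import Pool.Agent.X316.ZE.Gt

/-!
Generic complete intersections: entire curves built from elliptic functions and the zeta function.
-/

set_option autoImplicit false

namespace Pool.Agent.X323.GI

open Filter MvPolynomial FF Pool.Agent.W602.GT Pool.Agent.TH145.MG
open scoped LinearAlgebra.Projectivization
open Pool.Agent.TH145.GC (Cf)
open Pool.Agent.Y741 (SubX LineX GmX AllX)
open Pool.Agent.TH143.EL (HolMap Rep InV TorusMapsIn Ell ratCurves_of_torus rep_rep)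
open Pool.Agent.TH143.HE (IsPtP RatCurvesIn)
open Pool.Agent.Y377.IL (IterLin IteratedOver AlgebraicOver)
open Pool.Agent.X316.ZG (JointlyUniversal zeta_universal)
open Pool.Agent.X316.ZE (dringB isPtP_val torus_of_allGT built_torus)
open Pool.Agent.X332.GT (AllGT)

variable {n : ℕ} {A : Type} {d : A → ℕ} {H : A → MvPolynomial (Fin (n + 1)) ℂ}

/-- The equations of the complete intersection. -/
noncomputable def eqs (H : A → MvPolynomial (Fin (n + 1)) ℂ) : Ideal (MvPolynomial (Fin (n + 1)) ℂ) :=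
  Ideal.span (Set.range H)

theorem allGT_of (hH : ∀ a, IsForm (H a)) {G : MvPolynomial (Fin (n + 1)) ℂ}
    (h : ∀ (K : Type) [Field K] [Algebra ℂ K] (w : ℕ) (y : Fin (n + 1) → K), 0 < w →
        SubX H w y → aeval y G ≠ 0 → GeneralType ℂ K w) :
    AllGT (RingHom.id ℂ) (eqs H) (Ideal.span {G}) := by
  intro F _ _ w y hw htr hy0 hgen h1 h2
  rw [isPtP_val] at h1 h2
  refine h F w y hw (subX_of ⟨hy0, fun a => h1 _ (Ideal.subset_span ⟨a, rfl⟩) (hH a), hgen, htr⟩)
    fun h0 => h2 fun G' hG' _ => ?_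
  obtain ⟨q, rfl⟩ := Ideal.mem_span_singleton.1 hG'
  unfold val
  rw [map_mul, h0, zero_mul]

theorem inV_eqs {p : ℙ ℂ (Fin (n + 1) → ℂ)} (hH : ∀ a, IsForm (H a)) :
    InV (eqs H) p ↔ ∀ a, eval p.rep (H a) = 0 := by
  constructor
  · intro h a
    exact h _ (Ideal.subset_span ⟨a, rfl⟩) (hH a)
  · intro h G hG _
    have h1 : eqs H ≤ RingHom.ker (eval p.rep) := by
      unfold eqs
      rw [Ideal.span_le]
      rintro _ ⟨a, rfl⟩
      exact h a
    exact h1 hG

theorem inV_one {p : ℙ ℂ (Fin (n + 1) → ℂ)} {G : MvPolynomial (Fin (n + 1)) ℂ} (hG : IsForm G) :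
    InV (Ideal.span {G}) p ↔ eval p.rep G = 0 := by
  constructor
  · intro h
    exact h _ (Ideal.subset_span rfl) hG
  · intro h G' hG' _
    obtain ⟨q, rfl⟩ := Ideal.mem_span_singleton.1 hG'
    rw [map_mul, h, zero_mul]

theorem quad_ne (c c' : ℂ) : ∃ u v : ℂ, (c + u) * (c' + v ^ 2) - (c' + u ^ 2) * (c + v) ≠ 0 := by
  by_contra hcon
  push Not at hcon
  have h1 := hcon (-c) (1 - c)
  have h2 : c' = -c ^ 2 := by linear_combination (-1 : ℂ) * h1
  have h3 := hcon (1 - c) (2 - c)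
  rw [h2] at h3
  have h4 : (2 : ℂ) = 0 := by linear_combination h3
  exact two_ne_zero h4

/-- the lines are images of tori -/
theorem lines_of_torus (hH : ∀ a, IsForm (H a)) {G : MvPolynomial (Fin (n + 1)) ℂ} (hG : IsForm G)
    (hT : TorusMapsIn (eqs H) (Ideal.span {G})) : ∀ W, LineX H W → ∀ v ∈ W, eval v G = 0 := by
  intro W hW v hv
  obtain ⟨a, b, hab, hsp⟩ := line_of hW
  obtain ⟨c, c', rfl⟩ := hsp v hv
  obtain ⟨i, j, hij⟩ := Pool.Agent.Y741.pl_of_li hab.1
  have hij' : a i * b j - a j * b i ≠ 0 := hij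
  obtain ⟨u, v, huv⟩ := quad_ne c c'
  let p : Fin (n + 1) → Polynomial ℂ := fun l =>
    (Polynomial.C c + Polynomial.X) * Polynomial.C (a l) +
      (Polynomial.C c' + Polynomial.X ^ 2) * Polynomial.C (b l)
  have hp : ∀ t l, (p l).eval t = (c + t) * a l + (c' + t ^ 2) * b l := by
    intro t l
    simp only [p, Polynomial.eval_add, Polynomial.eval_mul, Polynomial.eval_C, Polynomial.eval_X,
      Polynomial.eval_pow]
  have hp' : ∀ t, (fun l => (p l).eval t) = (c + t) • a + (c' + t ^ 2) • b := by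
    intro t
    funext l
    rw [hp]
    rfl
  have h1 := ratCurves_of_torus hT p (fun t G' hG' _ => by
    have h2 : eqs H ≤ RingHom.ker (eval (fun l => (p l).eval t)) := by
      unfold eqs
      rw [Ideal.span_le]
      rintro _ ⟨a', rfl⟩
      change eval _ _ = 0
      rw [hp', ← val_eval]
      exact hab.2 _ _ a'
    exact h2 hG') ⟨i, j, u, v, by
      rw [hp, hp, hp, hp]
      intro h0
      apply mul_ne_zero huv hij'
      linear_combination h0⟩ 0 G (Ideal.subset_span rfl) hG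
  have h3 : (fun l => (p l).eval 0) = c • a + c' • b := by
    rw [hp']
    simp
  rw [h3] at h1
  exact h1

/-- tori are built from elliptic functions -/
theorem built_of_torus {ι : Type} (u : ι → ℂ → ℂ) {f : ℂ → ℙ ℂ (Fin (n + 1) → ℂ)} (hf : HolMap f)
    {ω₁ ω₂ : ℂ} (h1 : ∀ z, f (z + ω₁) = f z) (h2 : ∀ z, f (z + ω₂) = f z) :
    IteratedOver (dringB (Ell ω₁ ω₂) u) f := by
  obtain ⟨h, hl, hr⟩ := Pool.Agent.TH600.LK.torus_coords_ell hf h1 h2
  refine ⟨fun j z => h z j, fun j => ?_, hr⟩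
  have h0 : (fun z => h z j) ∈ dringB (Ell ω₁ ω₂) u :=
    ⟨(hl j).1, _, Algebra.subset_adjoin (Or.inl (hl j)), Eventually.of_forall fun _ => rfl⟩
  have h3 := IterLin.quot h0 (dringB (Ell ω₁ ω₂) u).one_mem
  have h4 : (fun z => h z j / (1 : ℂ → ℂ) z) = fun z => h z j := by
    funext z
    exact div_one _
  rwa [h4] at h3

/-- All nonconstant entire curves in the complete intersection which are built from elliptic
functions and the functions `u j` lie in `G = 0`. -/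
def BuiltG {ι : Type} (u : ι → ℂ → ℂ) (H : A → MvPolynomial (Fin (n + 1)) ℂ)
    (G : MvPolynomial (Fin (n + 1)) ℂ) : Prop :=
  ∀ ω₁ ω₂ : ℂ, LinearIndependent ℝ ![ω₁, ω₂] → ∀ f : ℂ → ℙ ℂ (Fin (n + 1) → ℂ), HolMap f →
    (IteratedOver (dringB (Ell ω₁ ω₂) u) f ∨ AlgebraicOver (dringB (Ell ω₁ ω₂) u) f) →
    (∀ z a, eval (f z).rep (H a) = 0) → (∃ z w, f z ≠ f w) → ∀ z, eval (f z).rep G = 0

theorem built_of (hH : ∀ a, IsForm (H a)) {G : MvPolynomial (Fin (n + 1)) ℂ} (hG : IsForm G)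
    (hT : TorusMapsIn (eqs H) (Ideal.span {G})) {ι : Type} {u : ι → ℂ → ℂ}
    (hu : JointlyUniversal u) : BuiltG u H G :=
  fun ω₁ ω₂ hω _ hf hb hX hnc z => (inV_one hG).1
    (built_torus hT hf ⟨ω₁, ω₂, hω, ι, u, hu, hb⟩ (fun z => (inV_eqs hH).2 (hX z)) hnc z)

theorem torus_of_built (hH : ∀ a, IsForm (H a)) {G : MvPolynomial (Fin (n + 1)) ℂ} (hG : IsForm G)
    {ι : Type} {u : ι → ℂ → ℂ} (h : BuiltG u H G) : TorusMapsIn (eqs H) (Ideal.span {G}) :=
  fun ω₁ ω₂ hω f hf h1 h2 hX hnc z => (inV_one hG).2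
    (h ω₁ ω₂ hω f hf (Or.inl (built_of_torus u hf h1 h2)) (fun z => (inV_eqs hH).1 (hX z)) hnc z)

section

variable {k0 : Type} [Field k0] [Algebra k0 ℂ] [Fintype A] [DecidableEq A]

/-- **The exceptional set of the built curves.** -/
theorem cur_tfae (hn : 1 ≤ n) (hd0 : ∀ a, 0 < d a) (hH : ∀ a, (H a).IsHomogeneous (d a))
    (hind : AlgebraicIndependent k0 fun p : Cf n d => (H p.1).coeff p.2.1)
    (hd : 3 * n + 3 ≤ 2 * ∑ a, d a + Fintype.card A) {G : MvPolynomial (Fin (n + 1)) ℂ} {e : ℕ}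
    (hG : G.IsHomogeneous e) :
    [∀ W, LineX H W → ∀ v ∈ W, eval v G = 0,
      ∀ (K : Type) [Field K] [Algebra ℂ K] (w : ℕ) (y : Fin (n + 1) → K), 0 < w →
        SubX H w y → aeval y G ≠ 0 → GeneralType ℂ K w,
      TorusMapsIn (eqs H) (Ideal.span {G}),
      BuiltG (fun _ : Unit => riemannZeta) H G,
      ∀ (ι : Type) (u : ι → ℂ → ℂ), JointlyUniversal u → BuiltG u H G].TFAE := by
  tfae_have 1 ↔ 2 := Pool.Agent.Y741.m_forms (k0 := k0) hn hd0 hH hind hd hG
  tfae_have 2 → 3 := fun h => torus_of_allGT (allGT_of (forms_of hH) h)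
  tfae_have 3 → 1 := lines_of_torus (forms_of hH) ⟨e, hG⟩
  tfae_have 3 → 5 := fun h _ _ hu => built_of (forms_of hH) ⟨e, hG⟩ h hu
  tfae_have 5 → 4 := fun h => h _ _ zeta_universal
  tfae_have 4 → 3 := torus_of_built (forms_of hH) ⟨e, hG⟩
  tfae_finish

end

end Pool.Agent.X323.GI
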