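import Pool.Agent.X323.GI.Dyn
import Pool.Agent.X323.GI.Cur
import Pool.Agent.X332.GS.Arith
import Pool.Agent.X316.ZE.Bdd
import Pool.Agent.Y735.EL.Top

/-!
Generic complete intersections: points over finitely generated fields, and degrees of curves.
-/

set_option autoImplicit false

namespace Pool.Agent.X323.GI

open Filter MvPolynomial FF Pool.Agent.W603.PV Pool.Agent.W602.GT Pool.Agent.TH145.MG
open Pool.Agent.W603.LV
open scoped LinearAlgebra.Projectivization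
open Pool.Agent.TH145.GC (Cf)
open Pool.Agent.Y741 (SubX LineX Exc LineIn EPts)
open Pool.Agent.X332.GT (Zeros Forms)
open Pool.Agent.X332.GS
open Pool.Agent.TH143.EL (InV TorusMapsIn)
open Pool.Agent.Y719.LC (cI inV_cI)

variable {n : ℕ} {A : Type} {d : A → ℕ} {H : A → MvPolynomial (Fin (n + 1)) ℂ}
  {S : Set (MvPolynomial (Fin (n + 1)) ℂ)}

/-- The lines in the complete intersection are contained in the zero set of `S`. -/
def LinesInS (H : A → MvPolynomial (Fin (n + 1)) ℂ) (S : Set (MvPolynomial (Fin (n + 1)) ℂ)) :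
    Prop := ∀ W, LineX H W → ∀ v ∈ W, ∀ G ∈ S, eval v G = 0

/-- A linear bound for the degrees of the maps from curves which are not contained in the zero set
of `S`. -/
def LinS (H : A → MvPolynomial (Fin (n + 1)) ℂ) (S : Set (MvPolynomial (Fin (n + 1)) ℂ)) : Prop :=
  ∃ B : ℕ, ∀ (L : Type) [Field L] [Algebra ℂ L] [IsFF ℂ L] (f : Fin (n + 1) → L), f ≠ 0 →
    (∀ a, aeval f (H a) = 0) → (∃ G ∈ S, aeval f G ≠ 0) → pht ℂ f ≤ B * max (canDeg ℂ L) 0

/-- The degrees of the maps from each curve, which are not contained in the zero set of `S`, are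
bounded. -/
def BddS (H : A → MvPolynomial (Fin (n + 1)) ℂ) (S : Set (MvPolynomial (Fin (n + 1)) ℂ)) : Prop :=
  ∀ (L : Type) [Field L] [Algebra ℂ L] [IsFF ℂ L], ∃ B : ℤ, ∀ f : Fin (n + 1) → L, f ≠ 0 →
    (∀ a, aeval f (H a) = 0) → (∃ G ∈ S, aeval f G ≠ 0) → pht ℂ f ≤ B

/-- The points over the fields generated by finite sets over the algebraic numbers. -/
def BarS (H : A → MvPolynomial (Fin (n + 1)) ℂ) (S : Set (MvPolynomial (Fin (n + 1)) ℂ)) : Prop :=
  ∀ T : Finset ℂ, {p : ℙ ℂ (Fin (n + 1) → ℂ) | (∀ a, eval p.rep (H a) = 0) ∧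
    (∃ G ∈ S, eval p.rep G ≠ 0) ∧ ∃ x : Fin (n + 1) → ℂ,
      (∀ i, x i ∈ IntermediateField.adjoin (algebraicClosure ℚ ℂ) (T : Set ℂ)) ∧
      ∃ hx : x ≠ 0, p = Projectivization.mk ℂ x hx}.Finite

theorem inV_span (hS : Forms S) {p : ℙ ℂ (Fin (n + 1) → ℂ)} :
    InV (Ideal.span S) p ↔ ∀ G ∈ S, eval p.rep G = 0 := by
  constructor
  · intro h G hG
    exact h _ (Ideal.subset_span hG) (hS G hG)
  · intro h G hG _
    have h1 : Ideal.span S ≤ RingHom.ker (eval p.rep) := Ideal.span_le.2 fun G hG => h G hG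
    exact h1 hG

theorem torus_span (hS : Forms S) : TorusMapsIn (eqs H) (Ideal.span S) ↔
    ∀ G ∈ S, TorusMapsIn (eqs H) (Ideal.span {G}) := by
  constructor
  · intro h G hG ω₁ ω₂ hω f hf h1 h2 h3 h4 z
    exact (inV_one (hS G hG)).2 ((inV_span hS).1 (h ω₁ ω₂ hω f hf h1 h2 h3 h4 z) G hG)
  · intro h ω₁ ω₂ hω f hf h1 h2 h3 h4 z
    exact (inV_span hS).2 fun G hG =>
      (inV_one (hS G hG)).1 (h G hG ω₁ ω₂ hω f hf h1 h2 h3 h4 z)

theorem inV_id {J : Ideal (MvPolynomial (Fin (n + 1)) ℂ)} {p : ℙ ℂ (Fin (n + 1) → ℂ)} :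
    InV (cI (RingHom.id ℂ) J) p ↔ InV J p := by
  rw [inV_cI (Pool.Agent.TH143.EL.rep_rep p)]
  exact Iff.rfl

/-- bounded degrees and tori -/
theorem torus_of_bddS (hH : ∀ a, IsForm (H a)) (h : BddS H S) :
    TorusMapsIn (eqs H) (Ideal.span S) := by
  have h1 : Pool.Agent.X316.ZE.BoundedMod (RingHom.id ℂ) (eqs H) (Ideal.span S) := by
    intro L _ _ _
    obtain ⟨B, hB⟩ := h L
    refine ⟨B, fun f hf0 hf1 hf2 => hB f hf0 (fun a => ?_) ?_⟩
    · exact hf1 (H a) (Ideal.subset_span ⟨a, rfl⟩) (hH a)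
    · by_contra hcon
      push Not at hcon
      refine hf2 fun G hG _ => ?_
      have h2 : Ideal.span S ≤ RingHom.ker (aeval f : MvPolynomial (Fin (n + 1)) ℂ →ₐ[ℂ] L) :=
        Ideal.span_le.2 fun G hG => hcon G hG
      exact h2 hG
  intro ω₁ ω₂ hω f hf h2 h3 h4 h5 z
  exact inV_id.1 (Pool.Agent.X316.ZE.torus_of_genus (Pool.Agent.X316.ZE.genusLeOne_of_bdd h1)
    ω₁ ω₂ hω f hf h2 h3 (fun z => inV_id.2 (h4 z)) h5 z)

/-- group curves -/
theorem lines_of_grp (hL : SpGrp H = SpLine H) (hS : Forms S)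
    (h : ∀ y, GrpImage H y → ∀ z, y z ∈ Zeros ℂ S) : LinesInS H S := by
  have h1 : ∀ G ∈ S, ∀ x ∈ SpLine H, eval x G = 0 := fun G hG x hx => by
    rw [← hL] at hx
    exact hx.2 G (hS G hG) fun y hy z => by
      rw [← Pool.Agent.X332.GT.aeval_eval]
      exact h y hy z G hG
  intro W hW v hv G hG
  obtain ⟨a, b, hab, hsp⟩ := line_of hW
  obtain ⟨c, c', rfl⟩ := hsp v hv
  by_cases h0 : c • a + c' • b = 0
  · -- the origin
    obtain ⟨e, he⟩ := hS G hG
    rcases Nat.eq_zero_or_pos e with h2 | h2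
    · -- a constant
      have ha : a ≠ 0 := fun h0 => hab.1.ne_zero 0 h0
      have h3 : (1 : ℂ) • a + (0 : ℂ) • b = a := by rw [one_smul, zero_smul, add_zero]
      have h4 : a ∈ SpLine H := by
        refine ⟨⟨ha, fun i => ?_⟩, fun G _ hG => ?_⟩
        · have h5 := hab.2 1 0 i
          rwa [h3] at h5
        · have h5 := hG a b hab 1 0
          rwa [h3] at h5
      have h5 := h1 G hG a h4
      rw [h2] at he
      obtain ⟨r, hr⟩ : ∃ r, G = C r := ⟨_, (totalDegree_eq_zero_iff_eq_C.1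
        (Nat.le_zero.1 he.totalDegree_le))⟩
      rw [hr, eval_C] at h5 ⊢
      exact h5
    · rw [h0, eval_zero, constantCoeff_eq]
      by_contra h5
      have h6 := he h5
      rw [map_zero] at h6
      omega
  · refine h1 G hG _ ⟨⟨h0, fun i => hab.2 c c' i⟩, fun G' _ hG' => hG' a b hab c c'⟩

section

variable [Fintype A] [DecidableEq A]

/-- the degrees of curves -/
theorem lin_of_lines (hn : 1 ≤ n) (hd0 : ∀ a, 0 < d a) (hH : ∀ a, (H a).IsHomogeneous (d a))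
    (hind : AlgebraicIndependent ℚ fun p : Cf n d => (H p.1).coeff p.2.1)
    (hd : 3 * n + 3 ≤ 2 * ∑ a, d a + Fintype.card A) (h : LinesInS H S) : LinS H S := by
  obtain ⟨B, hB⟩ := Pool.Agent.Y741.mf_deg n A d hn hd0 hd
  refine ⟨B, fun L _ _ _ f hf0 hf1 hG => ?_⟩
  obtain ⟨G, hGS, hGf⟩ := hG
  refine (hB ℚ ℂ L H hH hind f hf0 hf1).resolve_right fun hexc => ?_
  have hmap : ∀ p : MvPolynomial (Fin (n + 1)) ℂ,
      aeval (fun j => (IsScalarTower.toAlgHom ℂ L (AlgebraicClosure L)) (f j)) p =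
        (IsScalarTower.toAlgHom ℂ L (AlgebraicClosure L)) (aeval f p) := fun p => by
    rw [comp_aeval_apply]
  obtain ⟨z, -, hz1, hz2⟩ := Pool.Agent.Y741.exc_transfer
    (x := fun j => (IsScalarTower.toAlgHom ℂ L (AlgebraicClosure L)) (f j)) hH
    (fun b hb => absurd (Finset.mem_univ b) hb) hexc (H := G) (by
      rw [hmap]
      exact (map_ne_zero _).2 hGf)
  obtain ⟨W, h3, -, h5⟩ := Pool.Agent.Y741.exc_line hH
    (fun b hb => absurd (Finset.mem_univ b) hb) hz1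
  exact hz2 (h W ⟨h3.1, fun a v hv => h3.2 a (Finset.mem_univ a) v hv⟩ z h5 G hGS)

omit [DecidableEq A] in
/-- the points over finitely generated fields -/
theorem bar_of_lines (hn : 1 ≤ n) (hd0 : ∀ a, 0 < d a) (hH : ∀ a, (H a).IsHomogeneous (d a))
    (hind : AlgebraicIndependent ℚ fun p : Cf n d => (H p.1).coeff p.2.1)
    (hd : 3 * n + 3 ≤ 2 * ∑ a, d a + Fintype.card A) (h : LinesInS H S) : BarS H S := by
  obtain ⟨I0, hI0⟩ : ∃ I0 : A → Fin (n + 1) →₀ ℕ, ∀ a, (I0 a).degree = d a :=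
    ⟨fun a => Finsupp.single 0 (d a), fun a => Finsupp.degree_single _ _⟩
  have h0 : ∀ a, (H a).coeff (I0 a) ≠ 0 := fun a => hind.ne_zero ⟨a, ⟨I0 a, hI0 a⟩⟩
  have hrat := Pool.Agent.Y741.ratio_indep_fam hind I0 hI0
  have hgen2 := Pool.Agent.Y735.EL.ind_unflat (I0 := fun a => ⟨I0 a, hI0 a⟩) hrat
  obtain ⟨h1, -⟩ := Pool.Agent.Y735.LG.ci_all hn hd0 H hH (fun a => ⟨I0 a, hI0 a⟩) h0 hgen2
  have hS : ∑ a, (d a + 1) = ∑ a, d a + Fintype.card A := by
    rw [Finset.sum_add_distrib, Finset.sum_const, smul_eq_mul, mul_one, Finset.card_univ]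
  obtain ⟨h2, -⟩ := h1 (by omega)
  intro T
  refine (h2 T).subset ?_
  rintro p ⟨hp1, ⟨G, hG, hGp⟩, hp2⟩
  refine ⟨⟨hp1, hp2⟩, ?_⟩
  rintro ⟨W, hW, hpW⟩
  exact hGp (h W hW _ hpW G hG)

end

theorem fields_of_bar (h : BarS H S) (hS : Forms S) (hH : ∀ a, IsForm (H a)) :
    FieldsFinite H (Zeros ℂ S) := by
  intro s hs
  obtain ⟨T, hT⟩ := hs.exists_finset_coe
  refine ⟨(fun p : ℙ ℂ (Fin (n + 1) → ℂ) => p.rep) '' _, (h T).image _, fun x hx hxZ hxs => ?_⟩
  obtain ⟨hx0, hxH⟩ := hx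
  obtain ⟨c, hc⟩ := Projectivization.exists_smul_eq_mk_rep ℂ x hx0
  have hc' : (Projectivization.mk ℂ x hx0).rep = (c : ℂ) • x := hc.symm
  have hev : ∀ (G : MvPolynomial (Fin (n + 1)) ℂ), IsForm G →
      (eval (Projectivization.mk ℂ x hx0).rep G = 0 ↔ eval x G = 0) := by
    rintro G ⟨e, hG⟩
    rw [hc', Pool.Agent.TH145.GH.eval_smul_hom hG]
    exact ⟨fun h => (mul_eq_zero.1 h).resolve_left (pow_ne_zero _ c.ne_zero), fun h => by
      rw [h, mul_zero]⟩
  refine ⟨(Projectivization.mk ℂ x hx0).rep, ⟨_, ⟨fun a => ?_, ?_, x, fun i => ?_, hx0, rfl⟩, rfl⟩,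
    ((c⁻¹ : ℂˣ) : ℂ), ?_⟩
  · have h1 := hxH a
    rw [val_eval] at h1
    exact (hev _ (hH a)).2 h1
  · by_contra hcon
    push Not at hcon
    refine hxZ fun G hG => ?_
    rw [Pool.Agent.X332.GT.aeval_eval]
    exact (hev G (hS G hG)).1 (hcon G hG)
  · have h7 : Subfield.closure s ≤ (IntermediateField.adjoin (algebraicClosure ℚ ℂ)
        (T : Set ℂ)).toSubfield := by
      rw [hT]
      exact Subfield.closure_le.2 (IntermediateField.subset_adjoin _ _)
    exact h7 (hxs i)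
  · rw [hc', smul_smul, Units.inv_mul, one_smul]

section

variable [Fintype A] [DecidableEq A]

/-- **The notions of hyperbolicity modulo a closed subset.** -/
theorem ari_tfae (hn : 1 ≤ n) (hd0 : ∀ a, 0 < d a) (hH : ∀ a, (H a).IsHomogeneous (d a))
    (hind : AlgebraicIndependent ℚ fun p : Cf n d => (H p.1).coeff p.2.1)
    (hd : 3 * n + 3 ≤ 2 * ∑ a, d a + Fintype.card A) (hS : Forms S) :
    [LinesInS H S,
      ∀ (K : Type) [Field K] [Algebra ℂ K] (w : ℕ) (y : Fin (n + 1) → K), 0 < w →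
        SubX H w y → (∃ G ∈ S, aeval y G ≠ 0) → GeneralType ℂ K w,
      LinS H S, BddS H S, TorusMapsIn (eqs H) (Ideal.span S),
      ∀ G ∈ S, BuiltG (fun _ : Unit => riemannZeta) H G,
      ∀ (ι : Type) (u : ι → ℂ → ℂ), Pool.Agent.X316.ZG.JointlyUniversal u → ∀ G ∈ S, BuiltG u H G,
      ∀ y, GrpImage H y → ∀ z, y z ∈ Zeros ℂ S,
      TowersPeriodic H (Zeros ℂ S), FieldsPeriodic H (Zeros ℂ S),
      FieldsFinite H (Zeros ℂ S), BarS H S].TFAE := by
  have hform := forms_of hH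
  have hcur := fun (G : MvPolynomial (Fin (n + 1)) ℂ) (hG : G ∈ S) =>
    cur_tfae (k0 := ℚ) hn hd0 hH hind hd (hS G hG).choose_spec
  have hL : LinesInS H S ↔ ∀ G ∈ S, ∀ W, LineX H W → ∀ v ∈ W, eval v G = 0 :=
    ⟨fun h G hG W hW v hv => h W hW v hv G hG, fun h W hW v hv G hG => h G hG W hW v hv⟩
  tfae_have 1 ↔ 2 := by
    have h1 : (∀ (K : Type) [Field K] [Algebra ℂ K] (w : ℕ) (y : Fin (n + 1) → K), 0 < w →
        SubX H w y → (∃ G ∈ S, aeval y G ≠ 0) → GeneralType ℂ K w) ↔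
        ∀ G ∈ S, ∀ (K : Type) [Field K] [Algebra ℂ K] (w : ℕ) (y : Fin (n + 1) → K), 0 < w →
        SubX H w y → aeval y G ≠ 0 → GeneralType ℂ K w :=
      ⟨fun h G hG K _ _ w y hw hy hne => h K w y hw hy ⟨G, hG, hne⟩,
        fun h K _ _ w y hw hy ⟨G, hG, hne⟩ => h G hG K w y hw hy hne⟩
    rw [h1, hL]
    exact forall_congr' fun G => forall_congr' fun hG => (hcur G hG).out 0 1
  tfae_have 1 → 3 := lin_of_lines hn hd0 hH hind hd
  tfae_have 3 → 4 := by
    rintro ⟨B, hB⟩ L _ _ _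
    exact ⟨_, fun f => hB L f⟩
  tfae_have 4 → 5 := torus_of_bddS hform
  tfae_have 5 ↔ 1 := by
    rw [torus_span hS, hL]
    exact forall_congr' fun G => forall_congr' fun hG => (hcur G hG).out 2 0
  tfae_have 6 ↔ 1 := by
    rw [hL]
    exact forall_congr' fun G => forall_congr' fun hG => (hcur G hG).out 3 0
  tfae_have 1 ↔ 7 := by
    have h1 : (∀ (ι : Type) (u : ι → ℂ → ℂ), Pool.Agent.X316.ZG.JointlyUniversal u →
        ∀ G ∈ S, BuiltG u H G) ↔ ∀ G ∈ S, ∀ (ι : Type) (u : ι → ℂ → ℂ),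
        Pool.Agent.X316.ZG.JointlyUniversal u → BuiltG u H G :=
      ⟨fun h G hG ι u hu => h ι u hu G hG, fun h ι u hu G hG => h G hG ι u hu⟩
    rw [h1, hL]
    exact forall_congr' fun G => forall_congr' fun hG => (hcur G hG).out 0 4
  tfae_have 1 → 12 := bar_of_lines hn hd0 hH hind hd
  tfae_have 12 → 11 := fun h => fields_of_bar h hS hform
  tfae_have 11 → 10 := fields_of_finite
  tfae_have 10 ↔ 9 := (fields_iff hform hS).trans (tow_iff hform hS).symm
  tfae_have 9 → 8 := fun h y hy z => grp_of_dyn hform hS ((tow_iff hform hS).1 h) hy z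
  tfae_have 8 → 1 := lines_of_grp (dyn_loci (k0 := ℚ) hn hd0 hH hind hd).1 hS
  tfae_finish

/-- **The arithmetic special set.** -/
theorem ari_loci (hn : 1 ≤ n) (hd0 : ∀ a, 0 < d a) (hH : ∀ a, (H a).IsHomogeneous (d a))
    (hind : AlgebraicIndependent ℚ fun p : Cf n d => (H p.1).coeff p.2.1)
    (hd : 3 * n + 3 ≤ 2 * ∑ a, d a + Fintype.card A) : SpArith H = SpLine H := by
  have hform := forms_of hH
  obtain ⟨-, h2, -⟩ := dyn_loci (k0 := ℚ) hn hd0 hH hind hd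
  apply Set.Subset.antisymm
  · rintro x ⟨hx, h⟩
    refine ⟨hx, fun G hG hG' => ?_⟩
    have h3 : Forms ({G} : Set (MvPolynomial (Fin (n + 1)) ℂ)) := by
      rintro _ rfl
      exact hG
    have h4 : LinesInS H {G} := by
      rintro W hW v hv _ rfl
      exact lines_iff.1 hG' W hW v hv
    exact h {G} h3 (fields_of_bar (bar_of_lines hn hd0 hH hind hd h4) h3 hform) G rfl
  · rw [← h2]
    exact dyn_sub_arith hform

end

end Pool.Agent.X323.GI
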