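import Pool.Agent.X332.SP.Def
import Pool.Agent.TH143.GE.Tow1
import Pool.Agent.W602.GT.MordDefs

/-!
Rational maps from special and from potentially dense varieties: definitions.
-/

set_option autoImplicit false

namespace Pool.Agent.X323.GI

open MvPolynomial Pool.Agent.W602.GT
open Pool.Agent.TH143.DE (CoefField)
open Pool.Agent.TH143.GE (FinGen)
open Pool.Agent.X332.SP (CSpecial)

variable {n N : ℕ} {A : Type} {L : Type} [Field L] [Algebra ℂ L]

/-- `L` is the function field, and `y` the generic point, of a projective variety `V` of dimension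
`w` in the projective space of dimension `N`. -/
def Variety (w : ℕ) (y : Fin (N + 1) → L) : Prop :=
  y ≠ 0 ∧ coords ℂ y = ⊤ ∧ Algebra.trdeg ℂ L = w

/-- The forms `g j` of the same degree give a nonconstant rational map from the variety `V` with
the generic point `y` to `X = {H = 0}`. -/
def RationalMap (H : A → MvPolynomial (Fin (n + 1)) ℂ) (y : Fin (N + 1) → L)
    (g : Fin (n + 1) → MvPolynomial (Fin (N + 1)) ℂ) : Prop :=
  (∃ r, ∀ j, (g j).IsHomogeneous r) ∧ (∀ a, aeval (fun j => aeval y (g j)) (H a) = 0) ∧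
    ¬ ∃ (c : L) (p : Fin (n + 1) → ℂ), ∀ j, aeval y (g j) = c * algebraMap ℂ L (p j)

/-- The image of the rational map is contained in the set `Z` of the zeros of the forms in `S`. -/
def MapsInto (S : Set (MvPolynomial (Fin (n + 1)) ℂ)) (y : Fin (N + 1) → L)
    (g : Fin (n + 1) → MvPolynomial (Fin (N + 1)) ℂ) : Prop :=
  ∀ G ∈ S, aeval (fun j => aeval y (g j)) G = 0

/-- The set `P` of points is Zariski dense in the variety with the generic point `y`: each form which
vanishes on `P` vanishes on the variety. -/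
def IsDense (y : Fin (N + 1) → L) (P : Set (Fin (N + 1) → ℂ)) : Prop :=
  ∀ G : MvPolynomial (Fin (N + 1)) ℂ, IsForm G → (∀ x ∈ P, eval x G = 0) → aeval y G = 0

/-- For some finitely generated field `E ⊂ ℂ` the points of the variety with coordinates in `E` are
Zariski dense. -/
def PotentiallyDense (y : Fin (N + 1) → L) : Prop :=
  ∃ T : Finset ℂ, IsDense y {x | x ∈ VarPts ℂ y ∧ ∀ i, x i ∈ Subfield.closure (T : Set ℂ)}

/-- The same for a field `E` which is finitely generated over the field of the algebraic numbers. -/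
def DenseOverAlgebraic (y : Fin (N + 1) → L) : Prop :=
  ∃ T : Finset ℂ, IsDense y {x | x ∈ VarPts ℂ y ∧
    ∀ i, x i ∈ IntermediateField.adjoin (algebraicClosure ℚ ℂ) (T : Set ℂ)}

/-- The variety has a Zariski dense sequence of points `x 0, x 1, …` with homogeneous coordinates in
a finitely generated coefficient field of sequences. -/
def DenseSequence (y : Fin (N + 1) → L) : Prop :=
  ∃ B : Subalgebra ℂ (ℕ → ℂ), CoefField B ∧ FinGen B ∧ ∃ x : ℕ → Fin (N + 1) → ℂ,
    (∀ m, x m ∈ VarPts ℂ y) ∧ (∀ j, (fun m => x m j) ∈ B) ∧ IsDense y (Set.range x)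

/-- All nonconstant rational maps from special varieties to `X` have image in `Z`. -/
def SpecialIn (H : A → MvPolynomial (Fin (n + 1)) ℂ) (S : Set (MvPolynomial (Fin (n + 1)) ℂ)) :
    Prop :=
  ∀ (L : Type) [Field L] [Algebra ℂ L] (N w : ℕ) (y : Fin (N + 1) → L)
    (g : Fin (n + 1) → MvPolynomial (Fin (N + 1)) ℂ), Variety w y → CSpecial ℂ L w →
    RationalMap H y g → MapsInto S y g

/-- All nonconstant rational maps from potentially dense varieties to `X` have image in `Z`. -/
def DenseIn (H : A → MvPolynomial (Fin (n + 1)) ℂ) (S : Set (MvPolynomial (Fin (n + 1)) ℂ)) :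
    Prop :=
  ∀ (L : Type) [Field L] [Algebra ℂ L] (N w : ℕ) (y : Fin (N + 1) → L)
    (g : Fin (n + 1) → MvPolynomial (Fin (N + 1)) ℂ), Variety w y → PotentiallyDense y →
    RationalMap H y g → MapsInto S y g

/-- The same for the varieties whose points over a field which is finitely generated over the field
of the algebraic numbers are dense. -/
def AlgebraicDenseIn (H : A → MvPolynomial (Fin (n + 1)) ℂ)
    (S : Set (MvPolynomial (Fin (n + 1)) ℂ)) : Prop :=
  ∀ (L : Type) [Field L] [Algebra ℂ L] (N w : ℕ) (y : Fin (N + 1) → L)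
    (g : Fin (n + 1) → MvPolynomial (Fin (N + 1)) ℂ), Variety w y → DenseOverAlgebraic y →
    RationalMap H y g → MapsInto S y g

/-- The same for the varieties with a dense sequence over a finitely generated coefficient field. -/
def SequencesIn (H : A → MvPolynomial (Fin (n + 1)) ℂ) (S : Set (MvPolynomial (Fin (n + 1)) ℂ)) :
    Prop :=
  ∀ (L : Type) [Field L] [Algebra ℂ L] (N w : ℕ) (y : Fin (N + 1) → L)
    (g : Fin (n + 1) → MvPolynomial (Fin (N + 1)) ℂ), Variety w y → DenseSequence y →
    RationalMap H y g → MapsInto S y g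

/-- All lines in `X` are contained in `Z`. A line is given by a vector space `W` of dimension two. -/
def LinesIn (H : A → MvPolynomial (Fin (n + 1)) ℂ) (S : Set (MvPolynomial (Fin (n + 1)) ℂ)) : Prop :=
  ∀ W : Submodule ℂ (Fin (n + 1) → ℂ),
    Module.finrank ℂ W = 2 ∧ (∀ a, ∀ v ∈ W, eval v (H a) = 0) → ∀ v ∈ W, ∀ G ∈ S, eval v G = 0

end Pool.Agent.X323.GI
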