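import Pool.Agent.X323.GI.Ari
import Pool.Agent.X323.GI.CampDef
import Pool.Agent.X332.SP.Dense
import Pool.Agent.TH145.SP.Main
import Pool.Agent.TH143.GE.Iff

/-!
Generic complete intersections: rational maps from special and from potentially dense varieties.
-/

set_option autoImplicit false

namespace Pool.Agent.X323.GI

open Filter MvPolynomial FF Pool.Agent.W603.PV Pool.Agent.W602.GT Pool.Agent.TH145.MG
open Pool.Agent.W603.LV
open scoped LinearAlgebra.Projectivization
open Pool.Agent.TH145.GC (Cf)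
open Pool.Agent.Y741 (SubX LineX)
open Pool.Agent.X332.GT (Zeros Forms)
open Pool.Agent.X332.GS
open Pool.Agent.X332.SP (CSpecial DenseSeq)
open Pool.Agent.TH143.DE (CoefField)
open Pool.Agent.TH143.GE (FinGen)

variable {n N : ℕ} {A : Type} {d : A → ℕ} {H : A → MvPolynomial (Fin (n + 1)) ℂ}
  {S : Set (MvPolynomial (Fin (n + 1)) ℂ)} {L : Type} [Field L] [Algebra ℂ L]

/-- algebraic elements are constant -/
theorem const_of_alg {z : L} (hz : IsAlgebraic ℂ z) : ∃ c : ℂ, algebraMap ℂ L c = z := by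
  have hint : IsIntegral ℂ z := hz.isIntegral
  have h1 := IsAlgClosed.degree_eq_one_of_irreducible ℂ (minpoly.irreducible hint)
  exact minpoly.degree_eq_one_iff.1 h1

/-- a transcendental ratio -/
theorem ratio_of {x : Fin (n + 1) → L}
    (h : ¬ ∃ (c : L) (p : Fin (n + 1) → ℂ), ∀ j, x j = c * algebraMap ℂ L (p j)) :
    ∃ i j, Transcendental ℂ (x i / x j) := by
  by_contra hcon
  push Not at hcon
  have hx : x ≠ 0 := fun h0 => h ⟨0, fun _ => 0, fun j => by
    rw [h0, map_zero, mul_zero]; rfl⟩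
  obtain ⟨j0, hj0⟩ := Function.ne_iff.1 hx
  have hj0' : x j0 ≠ 0 := hj0
  have h1 : ∀ i, ∃ c : ℂ, algebraMap ℂ L c = x i / x j0 := fun i =>
    const_of_alg (by
      have := hcon i j0
      unfold Transcendental at this
      exact not_not.1 this)
  choose p hp using h1
  exact h ⟨x j0, p, fun j => by rw [hp, mul_div_cancel₀ _ hj0']⟩

/-- the image of a rational map -/
theorem exists_image {x : Fin (n + 1) → L} {w : ℕ} (hw : Algebra.trdeg ℂ L = w)
    (hH : ∀ a, IsForm (H a)) (hx : ∀ a, aeval x (H a) = 0) {i0 j0 : Fin (n + 1)}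
    (ht : Transcendental ℂ (x i0 / x j0)) :
    ∃ (v : ℕ) (E : IntermediateField ℂ L) (y : Fin (n + 1) → E), 0 < v ∧ SubX H v y ∧
      Algebra.EssFiniteType ℂ E ∧ ∃ c : L, c ≠ 0 ∧ ∀ i, (y i : L) = c * x i := by
  have hj0 : x j0 ≠ 0 := by
    intro h0
    rw [h0, div_zero] at ht
    exact ht isAlgebraic_zero
  obtain ⟨E, hE⟩ : ∃ E : IntermediateField ℂ L, E = coords ℂ x := ⟨_, rfl⟩
  have hmem : ∀ i, (x j0)⁻¹ * x i ∈ E := fun i => by
    rw [← div_eq_inv_mul, hE]
    exact IntermediateField.subset_adjoin _ _ ⟨i, j0, hj0, rfl⟩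
  obtain ⟨y, hy⟩ : ∃ y : Fin (n + 1) → E, ∀ i, (y i : L) = (x j0)⁻¹ * x i :=
    ⟨fun i => ⟨_, hmem i⟩, fun _ => rfl⟩
  have hyj : y j0 = 1 := Subtype.ext ((hy j0).trans (inv_mul_cancel₀ hj0))
  have hy0 : y ≠ 0 := fun h => one_ne_zero (hyj.symm.trans (congrFun h j0))
  have htop : coords ℂ y = ⊤ := by
    have h1 : E ≤ (coords ℂ y).map E.val := by
      subst hE
      refine IntermediateField.adjoin_le_iff.2 ?_
      rintro _ ⟨i, j, hj, rfl⟩
      refine ⟨y i / y j, IntermediateField.subset_adjoin _ _ ⟨i, j, ?_, rfl⟩, ?_⟩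
      · intro h
        apply hj
        have h2 := hy j
        rw [h] at h2
        exact (mul_eq_zero.1 h2.symm).resolve_left (inv_ne_zero hj0)
      · change ((y i / y j : coords ℂ x) : L) = _
        rw [IntermediateField.coe_div, hy, hy, mul_div_mul_left _ _ (inv_ne_zero hj0)]
    refine eq_top_iff.2 fun z _ => ?_
    obtain ⟨z', hz', hzz⟩ := h1 z.2
    have h3 : z' = z := Subtype.ext hzz
    rw [← h3]
    exact hz'
  have hval : ∀ G : MvPolynomial (Fin (n + 1)) ℂ, ((aeval y G : E) : L) =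
      aeval ((x j0)⁻¹ • x) G := fun G => by
    have h1 := comp_aeval_apply (f := y) E.val G
    have h2 : (fun i => E.val (y i)) = (x j0)⁻¹ • x := funext hy
    rw [h2] at h1
    exact h1
  have htr : Algebra.trdeg ℂ E ≤ Algebra.trdeg ℂ L :=
    trdeg_le_of_injective E.val E.val.toRingHom.injective
  rw [hw] at htr
  obtain ⟨v, hv⟩ := Cardinal.lt_aleph0.1 (htr.trans_lt Cardinal.natCast_lt_aleph0)
  refine ⟨v, E, y, ?_, ⟨⟨hy0, fun a => ?_⟩, hv, ?_⟩, Pool.Agent.X332.SP.ess_of_coords htop,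
    (x j0)⁻¹, inv_ne_zero hj0, hy⟩
  · rw [Nat.pos_iff_ne_zero]
    rintro rfl
    have h1 : Algebra.IsAlgebraic ℂ E := (_root_.trdeg_eq_zero_iff (R := ℂ) (A := E)).1 (by
      rw [hv]; rfl)
    apply ht
    have h2 : IsAlgebraic ℂ (⟨x i0 / x j0, by
      rw [div_eq_inv_mul]; exact hmem i0⟩ : E) := h1.isAlgebraic _
    exact h2.algHom E.val
  · obtain ⟨e, he⟩ := hH a
    have h1 := hval (H a)
    rw [Pool.Agent.TH145.MG.aeval_smul he, hx, mul_zero] at h1
    exact Subtype.ext h1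
  · rw [htop]
    infer_instance

section

variable [Fintype A] [DecidableEq A]

/-- **Special varieties.** -/
theorem special_of_lines (hn : 1 ≤ n) (hd0 : ∀ a, 0 < d a) (hH : ∀ a, (H a).IsHomogeneous (d a))
    (hind : AlgebraicIndependent ℚ fun p : Cf n d => (H p.1).coeff p.2.1)
    (hd : 3 * n + 3 ≤ 2 * ∑ a, d a + Fintype.card A) (hS : Forms S) (h : LinesInS H S) :
    SpecialIn H S := by
  intro L _ _ N w y g hV hsp hg G hG
  by_contra hne
  obtain ⟨-, hco, hw⟩ := hV
  obtain ⟨⟨r, hr⟩, hgH, hnc⟩ := hg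
  obtain ⟨i0, j0, ht⟩ := ratio_of hnc
  obtain ⟨v, E, z, hv, hz, hess, c, hc, hcz⟩ := exists_image hw (forms_of hH) hgH ht
  have hT := ari_tfae hn hd0 hH hind hd hS
  have h12 : LinesInS H S ↔ _ := hT.out 0 1
  obtain ⟨e, he⟩ := hS G hG
  have hval : ((aeval z G : E) : L) ≠ 0 := by
    have h1 := comp_aeval_apply (f := z) E.val G
    have h2 : (fun i => E.val (z i)) = c • fun j => aeval y (g j) := funext hcz
    rw [h2, Pool.Agent.TH145.MG.aeval_smul he] at h1
    intro h0
    have h3 : E.val (aeval z G) = 0 := h0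
    rw [h3] at h1
    exact mul_ne_zero (pow_ne_zero _ hc) hne h1.symm
  have hgt : GeneralType ℂ E v := h12.1 h E v z hv hz ⟨G, hG, fun h0 => hval (by
    rw [h0]; rfl)⟩
  have hessL : Algebra.EssFiniteType ℂ L := Pool.Agent.X332.SP.ess_of_coords hco
  exact hsp.not_gt hw E.val hv hgt

end

/-- **Potentially dense varieties.** -/
theorem dense_of_bar (hS : Forms S) (hH : ∀ a, IsForm (H a)) (h : BarS H S) :
    AlgebraicDenseIn H S := by
  classical
  intro L _ _ N w y g hV hden hg G hG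
  by_contra hne
  obtain ⟨T, hT⟩ := hden
  obtain ⟨⟨r, hr⟩, hgH, hnc⟩ := hg
  obtain ⟨e, he⟩ := hS G hG
  obtain ⟨T', hT'⟩ := Pool.Agent.TH145.SP.exists_fin_ext (k := ℚ) g T
  have hfin := h T'
  obtain ⟨j0, hj0⟩ : ∃ j0, aeval y (g j0) ≠ 0 := by
    by_contra hcon
    push Not at hcon
    exact hnc ⟨0, fun _ => 0, fun j => by rw [hcon, zero_mul]⟩
  have h1 : ∀ q : ℙ ℂ (Fin (n + 1) → ℂ), ∃ i,
      aeval y (C (q.rep j0) * g i - C (q.rep i) * g j0) ≠ 0 := by
    intro q
    by_contra hcon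
    push Not at hcon
    have h2 : ∀ i, algebraMap ℂ L (q.rep j0) * aeval y (g i) =
        algebraMap ℂ L (q.rep i) * aeval y (g j0) := by
      intro i
      have h3 := hcon i
      rw [map_sub, map_mul, map_mul, aeval_C, aeval_C] at h3
      exact sub_eq_zero.1 h3
    by_cases hq : q.rep j0 = 0
    · apply q.rep_nonzero
      funext i
      have h3 := h2 i
      rw [hq, map_zero, zero_mul] at h3
      have h4 := (mul_eq_zero.1 h3.symm).resolve_right hj0
      rwa [map_eq_zero] at h4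
    · refine hnc ⟨aeval y (g j0) / algebraMap ℂ L (q.rep j0), fun i => q.rep i, fun i => ?_⟩
      have h3 : algebraMap ℂ L (q.rep j0) ≠ 0 := by rwa [Ne, map_eq_zero]
      rw [div_mul_eq_mul_div, eq_div_iff h3, mul_comm, h2 i, mul_comm]
  choose i hi using h1
  have hg2 : (aeval g G).IsHomogeneous (r * e) := he.aeval g hr
  obtain ⟨Q, hQ⟩ : ∃ Q, Q = aeval g G * (g j0 * ∏ q ∈ hfin.toFinset,
    (C (q.rep j0) * g (i q) - C (q.rep (i q)) * g j0)) := ⟨_, rfl⟩
  have hQf : IsForm Q := by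
    rw [hQ]
    refine ⟨r * e + (r + ∑ _q ∈ hfin.toFinset, r),
      hg2.mul ((hr j0).mul (IsHomogeneous.prod _ _ _ fun q _ => ?_))⟩
    have h2 : ∀ (c : ℂ) j, (C c * g j).IsHomogeneous r := by
      intro c j
      have := (isHomogeneous_C (Fin (N + 1)) c).mul (hr j)
      rwa [zero_add] at this
    exact (h2 _ _).sub (h2 _ _)
  have hQy : aeval y Q ≠ 0 := by
    rw [hQ, map_mul, map_mul, map_prod]
    refine mul_ne_zero ?_ (mul_ne_zero hj0 (Finset.prod_ne_zero_iff.2 fun q _ => hi q))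
    rw [comp_aeval_apply]
    exact hne
  refine hQy (hT Q hQf fun x hx => ?_)
  obtain ⟨hx1, hx2⟩ := hx
  rw [hQ, map_mul, map_mul, map_prod]
  obtain ⟨z, hz⟩ : ∃ z : Fin (n + 1) → ℂ, ∀ j, z j = eval x (g j) := ⟨_, fun _ => rfl⟩
  have hev : ∀ P : MvPolynomial (Fin (n + 1)) ℂ, eval x (aeval g P) = eval z P := by
    intro P
    have h2 := comp_aeval_apply (f := g) (aeval x : MvPolynomial (Fin (N + 1)) ℂ →ₐ[ℂ] ℂ) P
    have h4 : z = fun j => (aeval x : MvPolynomial (Fin (N + 1)) ℂ →ₐ[ℂ] ℂ) (g j) := by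
      funext j
      rw [hz, aeval_eq_eval]
    rw [h4, ← Pool.Agent.X332.GT.aeval_eval, ← Pool.Agent.X332.GT.aeval_eval]
    exact h2
  by_cases hGz : eval z G = 0
  · rw [hev, hGz, zero_mul]
  by_cases hzj : eval x (g j0) = 0
  · rw [hzj, zero_mul, mul_zero]
  have hz0 : z ≠ 0 := by
    intro h0
    apply hzj
    rw [← hz, h0]
    rfl
  obtain ⟨c, hc⟩ := Projectivization.exists_smul_eq_mk_rep ℂ z hz0
  have hc' : (Projectivization.mk ℂ z hz0).rep = (c : ℂ) • z := hc.symm
  have hmem : Projectivization.mk ℂ z hz0 ∈ hfin.toFinset := by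
    rw [Set.Finite.mem_toFinset]
    refine ⟨fun a => ?_, ⟨G, hG, ?_⟩, z, fun j => ?_, hz0, rfl⟩
    · obtain ⟨e', he'⟩ := hH a
      rw [hc', Pool.Agent.TH145.GH.eval_smul_hom he', ← hev, ← val_eval,
        hx1.2 (aeval g (H a)) ⟨_, he'.aeval g hr⟩ ?_, mul_zero]
      unfold val
      rw [comp_aeval_apply]
      exact hgH a
    · rw [hc', Pool.Agent.TH145.GH.eval_smul_hom he]
      exact mul_ne_zero (pow_ne_zero _ c.ne_zero) hGz
    · rw [hz, ← val_eval]
      exact hT' x hx2 j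
  rw [Finset.prod_eq_zero hmem, mul_zero, mul_zero]
  have h2 : ∀ j, (Projectivization.mk ℂ z hz0).rep j = (c : ℂ) * z j := by
    intro j
    rw [hc']
    rfl
  rw [map_sub, map_mul, map_mul, eval_C, eval_C, h2, h2, hz, hz]
  ring

/-! ### The projective line -/

/-- the generic point of the projective line -/
noncomputable def pt1 : Fin (1 + 1) → RatFunc ℂ := ![1, RatFunc.X]

theorem pt1_variety : Variety 1 pt1 := by
  refine ⟨fun h => one_ne_zero (congrFun h 0), ?_, ?_⟩
  · rw [eq_top_iff, ← RatFunc.adjoin_X]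
    refine IntermediateField.adjoin_le_iff.2 (Set.singleton_subset_iff.2 ?_)
    refine IntermediateField.subset_adjoin _ _ ⟨1, 0, ?_, ?_⟩
    · exact one_ne_zero
    · change RatFunc.X = RatFunc.X / 1
      rw [div_one]
  · have h1 := trdeg_add_eq ℂ (Polynomial ℂ) (A := RatFunc ℂ)
    have h2 : Algebra.IsAlgebraic (Polynomial ℂ) (RatFunc ℂ) :=
      IsLocalization.isAlgebraic _ (nonZeroDivisors (Polynomial ℂ))
    rw [Polynomial.trdeg_of_isDomain, trdeg_eq_zero, add_zero] at h1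
    rw [← h1, Nat.cast_one]

/-- the values at the generic point -/
theorem pt1_val (G : MvPolynomial (Fin (1 + 1)) ℂ) : ∃ q : Polynomial ℂ,
    aeval pt1 G = algebraMap (Polynomial ℂ) (RatFunc ℂ) q ∧ ∀ t, q.eval t = eval ![1, t] G := by
  refine ⟨aeval ![1, Polynomial.X] G, ?_, fun t => ?_⟩
  · have h1 := comp_aeval_apply (f := (![1, Polynomial.X] : Fin (1 + 1) → Polynomial ℂ))
      (IsScalarTower.toAlgHom ℂ (Polynomial ℂ) (RatFunc ℂ)) G
    have h2 : (fun i => (IsScalarTower.toAlgHom ℂ (Polynomial ℂ) (RatFunc ℂ))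
        ((![1, Polynomial.X] : Fin (1 + 1) → Polynomial ℂ) i)) = pt1 := by
      funext i
      fin_cases i
      · exact map_one _
      · exact RatFunc.algebraMap_X
    rw [h2] at h1
    exact h1.symm
  · have h1 := comp_aeval_apply (f := (![1, Polynomial.X] : Fin (1 + 1) → Polynomial ℂ))
      (Polynomial.aeval t : Polynomial ℂ →ₐ[ℂ] ℂ) G
    have h2 : (fun i => (Polynomial.aeval t : Polynomial ℂ →ₐ[ℂ] ℂ)
        ((![1, Polynomial.X] : Fin (1 + 1) → Polynomial ℂ) i)) = ![1, t] := by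
      funext i
      fin_cases i
      · exact map_one _
      · exact Polynomial.aeval_X t
    rw [h2, Pool.Agent.X332.GT.aeval_eval] at h1
    rw [← h1, Polynomial.coe_aeval_eq_eval]

theorem pt1_zero (G : MvPolynomial (Fin (1 + 1)) ℂ) :
    aeval pt1 G = 0 ↔ ∀ m : ℕ, eval ![1, (m : ℂ)] G = 0 := by
  obtain ⟨q, hq, hq'⟩ := pt1_val G
  rw [hq, map_eq_zero_iff _ (RatFunc.algebraMap_injective ℂ)]
  constructor
  · intro h m
    rw [← hq', h, Polynomial.eval_zero]
  · intro h
    refine Polynomial.eq_zero_of_infinite_isRoot q ?_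
    refine (Set.infinite_range_of_injective (Nat.cast_injective (R := ℂ))).mono ?_
    rintro _ ⟨m, rfl⟩
    change q.eval (m : ℂ) = 0
    rw [hq', h]

theorem pt1_pts (m : ℕ) : ![1, (m : ℂ)] ∈ VarPts ℂ pt1 := by
  refine ⟨fun h => one_ne_zero (congrFun h 0), fun G _ hG => ?_⟩
  rw [val_eval]
  exact (pt1_zero G).1 hG m

theorem pt1_dense : PotentiallyDense pt1 := by
  refine ⟨∅, fun G _ hG => (pt1_zero G).2 fun m => hG _ ⟨pt1_pts m, fun i => ?_⟩⟩
  fin_cases i
  · exact one_mem _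
  · exact natCast_mem _ m

theorem pt1_seq : DenseSequence pt1 := by
  refine ⟨Pool.Agent.TH143.HE.RB, Pool.Agent.TH143.HE.RB_field,
    Pool.Agent.TH143.GE.ratB_fg Nat.cast_injective, fun m => ![1, (m : ℂ)], pt1_pts, fun j => ?_,
    fun G _ hG => (pt1_zero G).2 fun m => hG _ ⟨m, rfl⟩⟩
  fin_cases j
  · exact one_mem _
  · have h1 := Pool.Agent.TH143.DE.poly_mem (t := fun m : ℕ => (m : ℂ)) Nat.cast_injective
      Polynomial.X
    simp only [Polynomial.eval_X] at h1
    exact h1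

/-- the parametrization of a line -/
theorem line_map {a b : Fin (n + 1) → ℂ} (hab : Line H a b) :
    RationalMap H pt1 fun i => C (a i) * X 0 + C (b i) * X 1 := by
  have hva : ∀ i, aeval pt1 (C (a i) * X 0 + C (b i) * X 1 : MvPolynomial (Fin (1 + 1)) ℂ) =
      algebraMap (Polynomial ℂ) (RatFunc ℂ) (Polynomial.C (a i) + Polynomial.C (b i) *
        Polynomial.X) := by
    intro i
    rw [map_add, map_mul, map_mul, aeval_C, aeval_C, aeval_X, aeval_X, map_add, map_mul,
      RatFunc.algebraMap_X, RatFunc.algebraMap_C, RatFunc.algebraMap_C]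
    change algebraMap ℂ (RatFunc ℂ) (a i) * 1 + algebraMap ℂ (RatFunc ℂ) (b i) * RatFunc.X = _
    rw [mul_one, RatFunc.algebraMap_eq_C]
  refine ⟨⟨1, fun j => ?_⟩, fun c => ?_, ?_⟩
  · have e1 := (isHomogeneous_C (Fin (1 + 1)) (a j)).mul (isHomogeneous_X ℂ (0 : Fin (1 + 1)))
    have e2 := (isHomogeneous_C (Fin (1 + 1)) (b j)).mul (isHomogeneous_X ℂ (1 : Fin (1 + 1)))
    rw [zero_add] at e1 e2
    exact e1.add e2
  · rw [← comp_aeval_apply, pt1_zero]
    intro m
    have h1 := hab.2 1 m c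
    rw [val_eval] at h1
    have h2 := comp_aeval_apply (f := fun i => (C (a i) * X 0 + C (b i) * X 1 :
      MvPolynomial (Fin (1 + 1)) ℂ)) (aeval ![1, (m : ℂ)] :
        MvPolynomial (Fin (1 + 1)) ℂ →ₐ[ℂ] ℂ) (H c)
    rw [← Pool.Agent.X332.GT.aeval_eval, h2]
    have h3 : (fun i => (aeval ![1, (m : ℂ)] : MvPolynomial (Fin (1 + 1)) ℂ →ₐ[ℂ] ℂ)
        (C (a i) * X 0 + C (b i) * X 1)) = (1 : ℂ) • a + (m : ℂ) • b := by
      funext i
      rw [map_add, map_mul, map_mul, aeval_C, aeval_C, aeval_X, aeval_X]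
      change a i * 1 + b i * (m : ℂ) = 1 * a i + (m : ℂ) * b i
      ring
    rw [h3, Pool.Agent.X332.GT.aeval_eval]
    exact h1
  · rintro ⟨c, p, hcp⟩
    have hx : ∀ i, algebraMap (Polynomial ℂ) (RatFunc ℂ) (Polynomial.C (a i) +
        Polynomial.C (b i) * Polynomial.X) = c * algebraMap ℂ (RatFunc ℂ) (p i) := fun i => by
      rw [← hva]
      exact hcp i
    have hcr : ∀ i j, a i * p j = a j * p i ∧ b i * p j = b j * p i := by
      intro i j
      have h1 : algebraMap (Polynomial ℂ) (RatFunc ℂ) ((Polynomial.C (a i) +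
          Polynomial.C (b i) * Polynomial.X) * Polynomial.C (p j)) =
          algebraMap (Polynomial ℂ) (RatFunc ℂ) ((Polynomial.C (a j) +
          Polynomial.C (b j) * Polynomial.X) * Polynomial.C (p i)) := by
        rw [map_mul, map_mul, hx, hx, RatFunc.algebraMap_C, RatFunc.algebraMap_C,
          RatFunc.algebraMap_eq_C]
        ring
      have h2 := RatFunc.algebraMap_injective ℂ h1
      have h3 := congrArg (fun q => Polynomial.eval 0 q) h2
      have h4 := congrArg (fun q => Polynomial.eval 1 q) h2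
      simp only [Polynomial.eval_mul, Polynomial.eval_add, Polynomial.eval_C, Polynomial.eval_X,
        mul_zero, add_zero, mul_one] at h3 h4
      refine ⟨h3, ?_⟩
      linear_combination h4 - h3
    have hind := LinearIndependent.pair_iff.1 hab.1
    by_cases hp : p = 0
    · have h0 : ∀ i, a i = 0 := fun i => by
        have h1 := hx i
        rw [hp] at h1
        change _ = c * algebraMap ℂ (RatFunc ℂ) 0 at h1
        rw [map_zero, mul_zero, map_eq_zero_iff _ (RatFunc.algebraMap_injective ℂ)] at h1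
        have h2 := congrArg (fun q => Polynomial.eval 0 q) h1
        simpa using h2
      have h1 := (hind 1 0 (by
        rw [one_smul, zero_smul, add_zero]
        exact funext h0)).1
      exact one_ne_zero h1
    · obtain ⟨j, hj⟩ := Function.ne_iff.1 hp
      have hj' : p j ≠ 0 := hj
      have h1 := hind (b j) (-a j) (by
        funext i
        change b j * a i + -a j * b i = 0
        have e1 := (hcr i j).1
        have e2 := (hcr i j).2
        have e3 : (b j * a i + -a j * b i) * p j = 0 := by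
          linear_combination b j * e1 - a j * e2
        exact (mul_eq_zero.1 e3).resolve_right hj')
      have ha0 : a j = 0 := neg_eq_zero.1 h1.2
      have h2 : a = 0 := by
        funext i
        have e1 := (hcr i j).1
        rw [ha0, zero_mul] at e1
        exact (mul_eq_zero.1 e1).resolve_right hj'
      have h3 := (hind 1 0 (by
        rw [h2, smul_zero, zero_smul, add_zero])).1
      exact one_ne_zero h3

/-- the values of a form on the line -/
theorem line_val (a b : Fin (n + 1) → ℂ) (c c' : ℂ) (G : MvPolynomial (Fin (n + 1)) ℂ) :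
    eval ![c, c'] (aeval (fun i => (C (a i) * X 0 + C (b i) * X 1 :
      MvPolynomial (Fin (1 + 1)) ℂ)) G) = eval (c • a + c' • b) G := by
  have h2 := comp_aeval_apply (f := fun i => (C (a i) * X 0 + C (b i) * X 1 :
    MvPolynomial (Fin (1 + 1)) ℂ)) (aeval ![c, c'] : MvPolynomial (Fin (1 + 1)) ℂ →ₐ[ℂ] ℂ) G
  rw [← Pool.Agent.X332.GT.aeval_eval, h2]
  have h3 : (fun i => (aeval ![c, c'] : MvPolynomial (Fin (1 + 1)) ℂ →ₐ[ℂ] ℂ)
      (C (a i) * X 0 + C (b i) * X 1)) = c • a + c' • b := by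
    funext i
    rw [map_add, map_mul, map_mul, aeval_C, aeval_C, aeval_X, aeval_X]
    change a i * c + b i * c' = c * a i + c' * b i
    ring
  rw [h3, Pool.Agent.X332.GT.aeval_eval]

/-- the image of a line -/
theorem line_in (hS : Forms S) {a b : Fin (n + 1) → ℂ}
    (h : MapsInto S pt1 fun i => C (a i) * X 0 + C (b i) * X 1) (c c' : ℂ) :
    ∀ G ∈ S, eval (c • a + c' • b) G = 0 := by
  intro G hG
  obtain ⟨e, he⟩ := hS G hG
  rw [← line_val]
  obtain ⟨P, hP⟩ : ∃ P, P = aeval (fun i => (C (a i) * X 0 + C (b i) * X 1 :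
    MvPolynomial (Fin (1 + 1)) ℂ)) G := ⟨_, rfl⟩
  rw [← hP]
  have h0 : aeval pt1 P = 0 := by
    rw [hP, comp_aeval_apply]
    exact h G hG
  obtain ⟨q, hq, hq'⟩ := pt1_val P
  have hq0 : q = 0 := by
    rw [h0] at hq
    exact (map_eq_zero_iff _ (RatFunc.algebraMap_injective ℂ)).1 hq.symm
  have hPh : P.IsHomogeneous (1 * e) := by
    rw [hP]
    refine he.aeval _ fun j => ?_
    have e1 := (isHomogeneous_C (Fin (1 + 1)) (a j)).mul (isHomogeneous_X ℂ (0 : Fin (1 + 1)))
    have e2 := (isHomogeneous_C (Fin (1 + 1)) (b j)).mul (isHomogeneous_X ℂ (1 : Fin (1 + 1)))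
    rw [zero_add] at e1 e2
    exact e1.add e2
  have h1 : ∀ s : ℂ, s ≠ 0 → eval ![s, c'] P = 0 := by
    intro s hs
    have h2 : (![s, c'] : Fin (1 + 1) → ℂ) = s • ![1, c' / s] := by
      funext i
      fin_cases i
      · change s = s * 1
        rw [mul_one]
      · change c' = s * (c' / s)
        rw [mul_div_cancel₀ _ hs]
    rw [h2, Pool.Agent.TH145.GH.eval_smul_hom hPh, ← hq', hq0, Polynomial.eval_zero, mul_zero]
  by_cases hc : c = 0
  · obtain ⟨Q, hQ⟩ : ∃ Q : Polynomial ℂ, ∀ s, Q.eval s = eval ![s, c'] P := by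
      refine ⟨aeval ![Polynomial.X, Polynomial.C c'] P, fun s => ?_⟩
      have h1 := comp_aeval_apply (f := (![Polynomial.X, Polynomial.C c'] :
        Fin (1 + 1) → Polynomial ℂ)) (Polynomial.aeval s : Polynomial ℂ →ₐ[ℂ] ℂ) P
      have h2 : (fun i => (Polynomial.aeval s : Polynomial ℂ →ₐ[ℂ] ℂ)
          ((![Polynomial.X, Polynomial.C c'] : Fin (1 + 1) → Polynomial ℂ) i)) = ![s, c'] := by
        funext i
        fin_cases i
        · exact Polynomial.aeval_X s
        · exact Polynomial.aeval_C s c'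
      rw [h2, Pool.Agent.X332.GT.aeval_eval] at h1
      rw [← h1, Polynomial.coe_aeval_eq_eval]
    have hQ0 : Q = 0 := by
      refine Polynomial.eq_zero_of_infinite_isRoot Q ?_
      refine ((Set.finite_singleton (0 : ℂ)).infinite_compl).mono fun s hs => ?_
      change Q.eval s = 0
      rw [hQ, h1 s hs]
    rw [hc, ← hQ, hQ0, Polynomial.eval_zero]
  · exact h1 c hc

theorem lines_of (hS : Forms S)
    (h : ∀ a b : Fin (n + 1) → ℂ, Line H a b →
      MapsInto S pt1 fun i => C (a i) * X 0 + C (b i) * X 1) : LinesInS H S := by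
  intro W hW v hv
  obtain ⟨a, b, hab, hsp⟩ := line_of hW
  obtain ⟨c, c', rfl⟩ := hsp v hv
  exact line_in hS (h a b hab) c c'

theorem alg_dense {y : Fin (N + 1) → L} (h : PotentiallyDense y) : DenseOverAlgebraic y := by
  obtain ⟨T, hT⟩ := h
  refine ⟨T, fun G hG hx => hT G hG fun x hx' => hx x ⟨hx'.1, fun i => ?_⟩⟩
  have h7 : Subfield.closure (T : Set ℂ) ≤ (IntermediateField.adjoin (algebraicClosure ℚ ℂ)
      (T : Set ℂ)).toSubfield := Subfield.closure_le.2 (IntermediateField.subset_adjoin _ _)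
  exact h7 (hx'.2 i)

/-- dense sequences -/
theorem special_of_seq {w : ℕ} {y : Fin (N + 1) → L} (hV : Variety w y) (h : DenseSequence y) :
    CSpecial ℂ L w := by
  obtain ⟨B, hB, hF, x, hx, hxB, hden⟩ := h
  refine Pool.Agent.X332.SP.special_of_dense hV.2.2 hV.1 hV.2.1 hB hF hxB
    ⟨fun m => (hx m).1, fun G hG => ⟨fun h0 m => ?_, fun h0 => ?_⟩⟩
  · rw [← val_eval]
    exact (hx m).2 G hG h0
  · refine hden G hG ?_
    rintro _ ⟨m, rfl⟩
    exact h0 m

section

variable [Fintype A] [DecidableEq A]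

/-- **Rational maps to generic complete intersections.** -/
theorem camp_tfae (hn : 1 ≤ n) (hd0 : ∀ a, 0 < d a) (hH : ∀ a, (H a).IsHomogeneous (d a))
    (hind : AlgebraicIndependent ℚ fun p : Cf n d => (H p.1).coeff p.2.1)
    (hd : 3 * n + 3 ≤ 2 * ∑ a, d a + Fintype.card A) (hS : Forms S) :
    [SpecialIn H S, DenseIn H S, AlgebraicDenseIn H S, SequencesIn H S, LinesIn H S].TFAE := by
  tfae_have 5 → 1 := special_of_lines hn hd0 hH hind hd hS
  tfae_have 5 → 3 := fun h => dense_of_bar hS (forms_of hH) (bar_of_lines hn hd0 hH hind hd h)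
  tfae_have 3 → 2 := fun h L _ _ N w y g hV hy hg => h L N w y g hV (alg_dense hy) hg
  tfae_have 1 → 4 := fun h L _ _ N w y g hV hy hg =>
    h L N w y g hV (special_of_seq hV hy) hg
  tfae_have 2 → 5 := fun h => lines_of hS fun a b hab =>
    h (RatFunc ℂ) 1 1 pt1 _ pt1_variety pt1_dense (line_map hab)
  tfae_have 4 → 5 := fun h => lines_of hS fun a b hab =>
    h (RatFunc ℂ) 1 1 pt1 _ pt1_variety pt1_seq (line_map hab)
  tfae_finish

/-- complete intersections without lines -/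
theorem lines_none (hn : 1 ≤ n) (hd0 : ∀ a, 0 < d a) (hH : ∀ a, (H a).IsHomogeneous (d a))
    (hind : AlgebraicIndependent ℚ fun p : Cf n d => (H p.1).coeff p.2.1)
    (hd : 3 * n + 3 ≤ 2 * ∑ a, d a + Fintype.card A)
    (hd2 : 2 * n ≤ ∑ a, d a + Fintype.card A + 1) : ∀ W, ¬ LineX H W := by
  have key := Pool.Agent.Y741.m_tfae (k0 := ℚ) hn hd0 hH hind (Or.inr (Or.inr hd))
  have h56 : (∀ W, ¬ LineX H W) ↔ 2 * n - 1 ≤ ∑ a, (d a + 1) := key.out 4 5
  refine h56.2 ?_
  rw [Finset.sum_add_distrib, Finset.sum_const, smul_eq_mul, mul_one, Finset.card_univ]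
  omega

end

end Pool.Agent.X323.GI
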