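import Pool.Agent.X323.GI.OrbM
import Pool.Agent.Y741.Comb
import Pool.Agent.TH145.GL.Final

/-!
Vojta's height inequality for cyclic covers of arbitrary projective varieties over function fields,
and log general type of their subvarieties.
-/

set_option autoImplicit false

open MvPolynomial FF Pool.Agent.W603.LV Pool.Agent.W603.PV Pool.Agent.TH145.GH
  Pool.Agent.TH145.MG Pool.Agent.W602.GT Pool.Agent.W603.CZ

namespace Pool.Agent.X323.GI

theorem cov_le {α : Type} [Fintype α] [DecidableEq α] {F L : Type} [Field F] [Field L]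
    [Algebra F L] {n : ℕ} {H : α → MvPolynomial (Fin (n + 1)) F} {d q : α → ℕ} {E : Finset α}
    (hq : ∀ a, a ∉ E → q a ≠ 0 → q a ∣ d a) {x : Fin (n + 1) → L}
    (hE : ∀ a ∈ E, aeval x (H a) = 0) : (covDegree d E q : ℚ) ≤ orbDegree H d q x := by
  classical
  unfold covDegree orbDegree
  rw [← Finset.sum_add_sum_compl E]
  push_cast
  refine add_le_add (Finset.sum_le_sum fun a ha => ?_) (Finset.sum_le_sum fun a ha => ?_)
  · rw [if_pos (hE a ha)]
  · have haE := Finset.mem_compl.1 ha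
    split_ifs with h0
    · have h1 : d a - d a / q a ≤ d a + 1 := (Nat.sub_le _ _).trans (Nat.le_succ _)
      exact_mod_cast h1
    · by_cases hqa : q a = 0
      · rw [hqa, Nat.div_zero, Nat.sub_zero, Nat.cast_zero, inv_zero, sub_zero, one_mul]
      · obtain ⟨e, he⟩ := hq a haE hqa
        have hp := Nat.pos_of_ne_zero hqa
        have h1 : d a / q a = e := by rw [he, Nat.mul_div_cancel_left _ hp]
        have h2 : e ≤ d a := by rw [he]; exact Nat.le_mul_of_pos_left _ hp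
        have h3 : (q a : ℚ) ≠ 0 := by exact_mod_cast hqa
        rw [h1, Nat.cast_sub h2, he]
        push_cast
        refine le_of_eq ?_
        field_simp

theorem cover_ineq {k0 k F0 F : Type} [Field k0] [Field k] [Field F0] [Field F] [IsAlgClosed k]
    [CharZero k] [Algebra k0 k] [Algebra k F] [Algebra k0 F] [IsScalarTower k0 k F]
    [Algebra k0 F0] [Algebra F0 F] [IsScalarTower k0 F0 F] [IsFF k F]
    (hfg : ∃ S : Finset F0, IntermediateField.adjoin k0 (S : Set F0) = ⊤) {n m : ℕ}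
    (V : Set (MvPolynomial (Fin (n + 1)) F0)) (hV : DimLE F0 V m) {α : Type} [Fintype α]
    [DecidableEq α]
    (H : α → MvPolynomial (Fin (n + 1)) F) (d : α → ℕ) (hH : ∀ a, (H a).IsHomogeneous (d a))
    (I0 : α → Fin (n + 1) →₀ ℕ) (hI0 : ∀ a, (H a).coeff (I0 a) ≠ 0)
    (hgen : AlgebraicIndependent F0 fun p : {p : α × (Fin (n + 1) →₀ ℕ) //
      p.2.degree = d p.1 ∧ p.2 ≠ I0 p.1} => (H p.1.1).coeff p.1.2 / (H p.1.1).coeff (I0 p.1.1))
    (E : Finset α) (q : α → ℕ) (hq : ∀ a, a ∉ E → q a ≠ 0 → q a ∣ d a) :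
    ∃ C : ℕ, ∀ (L : Type) [Field L] [Algebra k L] [Algebra F L]
      [IsScalarTower k F L] [FiniteDimensional F L] (x : Fin (n + 1) → L) (y : α → L),
      OnCover V H E q x y →
      (MeetsD k H d E q x).Finite ∧
      ((covDegree d E q : ℤ) - 2 * m - 1) * pht k x ≤
        (MeetsD k H d E q x).ncard + canDeg k L + C * Module.finrank F L := by
  classical
  obtain ⟨C, hC⟩ := orb_main (k0 := k0) (k := k) hfg V hV H d hH I0 hI0 hgen q
  refine ⟨C, ?_⟩
  rintro L _ _ _ _ _ x y ⟨⟨hx, hxV⟩, hE, hy, hD⟩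
  obtain ⟨h1, h2⟩ := hC L x hx hxV
  have hL : IsFF k L := isFF_of_finite (F := F)
  have heq : LowContact k H d q x = MeetsD k H d E q x := by
    ext P
    constructor
    · rintro ⟨a, ha, h3, h4⟩
      have haE : a ∉ E := fun h => ha (hE a h)
      refine ⟨a, haE, ?_, h3⟩
      by_contra hqa
      obtain ⟨e, he⟩ := hq a haE hqa
      have h5 := h4.resolve_left hqa
      have h6 : P.ord (aeval x (H a)) = q a * P.ord (y a) := by
        rw [← hy a haE hqa, P.ord_pow]
      rw [h6, he] at h3 h5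
      push_cast at h3 h5
      have hp : (0 : ℤ) < q a := by exact_mod_cast Nat.pos_of_ne_zero hqa
      have h7 : (0 : ℤ) < P.ord (y a) - e * pord P x := by
        by_contra hcon
        push Not at hcon
        have := mul_nonpos_of_nonneg_of_nonpos hp.le hcon
        linarith
      have h8 : P.ord (y a) - e * pord P x < 1 := by
        by_contra hcon
        push Not at hcon
        have := mul_le_mul_of_nonneg_left hcon hp.le
        linarith
      omega
    · rintro ⟨a, haE, hqa, h3⟩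
      exact ⟨a, hD a haE hqa, h3, Or.inl hqa⟩
  rw [heq] at h1 h2
  refine ⟨h1, ?_⟩
  have h3 : (0 : ℚ) ≤ pht k x := by exact_mod_cast Pool.Agent.Y741.pht_nonneg (k := k) hx
  have h4 := cov_le (H := H) (d := d) (q := q) (E := E) hq hE
  have h5 : ((covDegree d E q : ℚ) - 2 * m - 1) * pht k x ≤
      (orbDegree H d q x - 2 * m - 1) * pht k x :=
    mul_le_mul_of_nonneg_right (by linarith) h3
  have h6 := h5.trans h2
  exact_mod_cast h6

/-- a form is the sum of its monomials -/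
theorem form_sum' {K : Type} [Field K] {n d : ℕ} [Fintype {I : Fin (n + 1) →₀ ℕ // I.degree = d}]
    {F : MvPolynomial (Fin (n + 1)) K} (hF : F.IsHomogeneous d) :
    F = ∑ j : {I : Fin (n + 1) →₀ ℕ // I.degree = d}, monomial j.1 (F.coeff j.1) := by
  classical
  ext I
  rw [coeff_sum]
  by_cases hI : I.degree = d
  · rw [Finset.sum_eq_single ⟨I, hI⟩]
    · rw [coeff_monomial, if_pos rfl]
    · intro j _ hj
      rw [coeff_monomial, if_neg]
      intro h
      exact hj (Subtype.ext h)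
    · intro h
      exact absurd (Finset.mem_univ _) h
  · rw [Finset.sum_eq_zero, hF.coeff_eq_zero hI]
    intro j _
    rw [coeff_monomial, if_neg]
    rintro rfl
    exact hI j.2

theorem cov_sum {A : Type} [Fintype A] [DecidableEq A] {d q : A → ℕ} {C C' : Finset A}
    (hC : C ⊆ C') :
    covDegree d C q + ∑ a ∈ C'ᶜ, d a / q a ≤ ∑ a, d a + C'.card := by
  unfold covDegree
  have h1 : ∑ a ∈ Cᶜ, (d a - d a / q a) + ∑ a ∈ Cᶜ, d a / q a = ∑ a ∈ Cᶜ, d a := by
    rw [← Finset.sum_add_distrib]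
    exact Finset.sum_congr rfl fun a _ => Nat.sub_add_cancel (Nat.div_le_self _ _)
  have h2 : ∑ a ∈ C, (d a + 1) = ∑ a ∈ C, d a + C.card := by
    rw [Finset.sum_add_distrib, Finset.card_eq_sum_ones]
  have h3 : ∑ a ∈ C, d a + ∑ a ∈ Cᶜ, d a = ∑ a, d a := Finset.sum_add_sum_compl C d
  have h4 : ∑ a ∈ C'ᶜ, d a / q a ≤ ∑ a ∈ Cᶜ, d a / q a :=
    Finset.sum_le_sum_of_subset (Finset.compl_subset_compl.2 hC)
  have h5 := Finset.card_le_card hC
  omega

open Pool.Agent.TH145.GD (St) in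
/-- Subvarieties of cyclic covers are of log general type. -/
theorem log_cyc {k0 K L : Type} [Field k0] [Field K] [Algebra k0 K] [IsAlgClosed K] [CharZero K]
    [Field L] [Algebra K L] {n m w : ℕ} {A : Type} [Fintype A] [DecidableEq A] {d q : A → ℕ}
    {J : A → Type} [∀ a, Fintype (J a)]
    (C : Finset A) (hq : ∀ a, a ∉ C → q a ≠ 0 → q a ∣ d a)
    (hd : 2 * m + 2 ≤ covDegree d C q + w)
    (V : Set (MvPolynomial (Fin (n + 1)) k0)) (hVh : ∀ f ∈ V, ∃ e, f.IsHomogeneous e)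
    (hV : DimLE k0 V m) (P : ∀ a, J a → MvPolynomial (Fin (n + 1)) k0)
    (hP : ∀ a j, (P a j).IsHomogeneous (d a))
    (Z : Set (Fin (n + 1))) (hSt : ∀ c ∈ Z, ∀ a, ∀ I ∈ St c (d a), ∃ j, P a j = monomial I 1)
    (cf : ∀ a, J a → K) (j0 : ∀ a, J a) (h0 : ∀ a, cf a (j0 a) ≠ 0)
    (hind : AlgebraicIndependent k0 fun p : (Σ a, {j : J a // j ≠ j0 a}) =>
      cf p.1 p.2.1 / cf p.1 (j0 p.1))
    {F : A → MvPolynomial (Fin (n + 1)) K}
    (hF : ∀ a, F a = ∑ j, MvPolynomial.C (cf a j) * map (algebraMap k0 K) (P a j))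
    (hw : 0 < w) (htr : Algebra.trdeg K L = w) (x : Fin (n + 1) → L) (y : A → L)
    (hx0 : ∃ c ∈ Z, x c ≠ 0) (hgen : Algebra.IsAlgebraic (coords K x) L)
    (hxV : ∀ f ∈ V, aeval x (map (algebraMap k0 K) f) = 0)
    (hxC : ∀ a ∈ C, aeval x (F a) = 0)
    (hxy : ∀ a, a ∉ C → q a ≠ 0 → y a ^ q a = aeval x (F a))
    (hxn : ∀ a, a ∉ C → q a = 0 → aeval x (F a) ≠ 0) :
    LogGeneralType K L w fun Q : Place K L =>
      ∃ a, a ∉ C ∧ q a = 0 ∧ d a * pord Q x < Q.ord (aeval x (F a)) := by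
  classical
  obtain ⟨c, hc, hxc⟩ := hx0
  obtain ⟨C', hC'⟩ : ∃ C' : Finset A, ∀ a, a ∈ C' ↔ aeval x (F a) = 0 :=
    ⟨Finset.univ.filter fun a => aeval x (F a) = 0, fun a => by simp⟩
  have hsub : C ⊆ C' := fun a ha => (hC' a).2 (hxC a ha)
  have hC : ∀ a, a ∉ C' → a ∉ C := fun a ha h => ha (hsub h)
  have h1 := Pool.Agent.TH145.GL.cyc_general V hVh hV P hP cf j0 h0 hind c (hSt c hc) hF C' q
    (fun a ha => by
      by_cases hqa : q a = 0
      · exact Or.inr hqa
      · exact Or.inl (hq a (hC a ha) hqa)) hw (by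
      have h1 := cov_sum (d := d) (q := q) hsub
      have h6 : ∀ S : Finset A, (∀ a, a ∈ S ↔ a ∉ C') → 2 * m + 2 +
          ∑ a ∈ S, d a / q a ≤ ∑ a, d a + C'.card + w := by
        intro S hS
        have h7 : S = C'ᶜ := by
          ext a
          rw [hS, Finset.mem_compl]
        rw [h7]
        omega
      exact h6 _ fun a => by simp) htr x hxc hgen hxV (fun a ha => (hC' a).1 ha)
    (fun a ha h => ha ((hC' a).2 h)) y
    (fun a ha hqa => (hxy a (hC a ha) hqa).symm)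
  have h2 : (fun Q : Place K L => ∃ a, a ∉ C' ∧ q a = 0 ∧
      d a * pord Q x < Q.ord (aeval x (F a))) = fun Q : Place K L => ∃ a, a ∉ C ∧ q a = 0 ∧
      d a * pord Q x < Q.ord (aeval x (F a)) := by
    funext Q
    refine propext ⟨?_, ?_⟩
    · rintro ⟨a, ha, hqa, h⟩
      exact ⟨a, hC a ha, hqa, h⟩
    · rintro ⟨a, ha, hqa, h⟩
      exact ⟨a, fun h' => hxn a ha hqa ((hC' a).1 h'), hqa, h⟩
  rwa [h2] at h1

/-- log general type -/
theorem cover_gt {F0 F Ω K : Type} [Field F0] [Field F] [Field Ω] [Field K] [Algebra F0 F]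
    [Algebra F Ω] [Algebra F0 Ω] [IsScalarTower F0 F Ω] [Algebra Ω K] [IsAlgClosed Ω] [CharZero Ω]
    {n m w : ℕ} (V : Set (MvPolynomial (Fin (n + 1)) F0)) (hVh : ∀ f ∈ V, ∃ e, f.IsHomogeneous e)
    (hV : DimLE F0 V m) {α : Type} [Fintype α] [DecidableEq α]
    (H : α → MvPolynomial (Fin (n + 1)) F) (d : α → ℕ) (hH : ∀ a, (H a).IsHomogeneous (d a))
    (I0 : α → Fin (n + 1) →₀ ℕ) (hI0 : ∀ a, (H a).coeff (I0 a) ≠ 0)
    (hgen : AlgebraicIndependent F0 fun p : {p : α × (Fin (n + 1) →₀ ℕ) //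
      p.2.degree = d p.1 ∧ p.2 ≠ I0 p.1} => (H p.1.1).coeff p.1.2 / (H p.1.1).coeff (I0 p.1.1))
    (E : Finset α) (q : α → ℕ) (hq : ∀ a, a ∉ E → q a ≠ 0 → q a ∣ d a)
    (hd : 2 * m + 2 ≤ covDegree d E q + w) (hw : 0 < w) (htr : Algebra.trdeg Ω K = w)
    (x : Fin (n + 1) → K) (y : α → K)
    (hxy : OnCover V (fun a => map (algebraMap F Ω) (H a)) E q x y)
    (hgx : Algebra.IsAlgebraic (coords Ω x) K) :
    LogGeneralType Ω K w fun Q : Place Ω K =>
      Q ∈ MeetsD Ω (fun a => map (algebraMap F Ω) (H a)) d E q x := by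
  classical
  obtain ⟨⟨hx, hxV⟩, hE, hy, hD⟩ := hxy
  obtain ⟨c, hc⟩ := Function.ne_iff.1 hx
  have hfin : ∀ a, Finite {I : Fin (n + 1) →₀ ℕ // I.degree = d a} := by
    intro a
    have h1 : {m : Fin (n + 1) →₀ ℕ | m.degree = d a}.Finite := by
      refine (Finsupp.finite_of_degree_le (d a)).subset ?_
      intro m hm
      exact le_of_eq hm
    exact h1
  have hft : ∀ a, Fintype {I : Fin (n + 1) →₀ ℕ // I.degree = d a} := fun a => Fintype.ofFinite _
  have hI0d : ∀ a, (I0 a).degree = d a := fun a => by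
    by_contra h
    exact hI0 a ((hH a).coeff_eq_zero h)
  have hind : AlgebraicIndependent F0
      fun p : (Σ a, {j : {I : Fin (n + 1) →₀ ℕ // I.degree = d a} // j ≠ ⟨I0 a, hI0d a⟩}) =>
      algebraMap F Ω ((H p.1).coeff p.2.1.1) / algebraMap F Ω ((H p.1).coeff (I0 p.1)) := by
    have h1 := (hgen.map' (f := IsScalarTower.toAlgHom F0 F Ω)
      (IsScalarTower.toAlgHom F0 F Ω).injective).comp
      (fun p : (Σ a, {j : {I : Fin (n + 1) →₀ ℕ // I.degree = d a} // j ≠ ⟨I0 a, hI0d a⟩}) =>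
        (⟨(p.1, p.2.1.1), p.2.1.2, fun h => p.2.2 (Subtype.ext h)⟩ :
          {p : α × (Fin (n + 1) →₀ ℕ) // p.2.degree = d p.1 ∧ p.2 ≠ I0 p.1})) (by
        rintro ⟨a, ⟨⟨I, hI⟩, hI2⟩⟩ ⟨a', ⟨⟨I', hI'⟩, hI2'⟩⟩ h
        have h3 := congrArg Subtype.val h
        simp only [Prod.mk.injEq] at h3
        obtain ⟨rfl, rfl⟩ := h3
        rfl)
    convert h1 using 1
    funext p
    simp only [Function.comp_apply, IsScalarTower.coe_toAlgHom', map_div₀]
  exact log_cyc (k0 := F0) (K := Ω) (q := q)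
    (J := fun a => {I : Fin (n + 1) →₀ ℕ // I.degree = d a}) E hq hd V hVh hV
    (P := fun a (j : {I : Fin (n + 1) →₀ ℕ // I.degree = d a}) => monomial j.1 1)
    (fun a j => isHomogeneous_monomial _ j.2) Set.univ
    (fun c _ a I hI => ⟨⟨I, Pool.Agent.TH145.GD.deg_St hI⟩, rfl⟩)
    (fun a j => algebraMap F Ω ((H a).coeff j.1)) (fun a => ⟨I0 a, hI0d a⟩)
    (fun a => by
      rw [Ne, map_eq_zero]
      exact hI0 a) hind
    (fun a => by
      conv_lhs => rw [form_sum' (hH a)]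
      rw [map_sum]
      refine Finset.sum_congr rfl fun j _ => ?_
      rw [MvPolynomial.map_monomial, MvPolynomial.map_monomial, map_one, C_mul_monomial, mul_one])
    hw htr x y ⟨c, Set.mem_univ _, hc⟩ hgx hxV hE hy hD

end Pool.Agent.X323.GI
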