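import Pool.Agent.TH145.GE.CurveLin
import Pool.Agent.X323.GI.OrbC

/-!
Maps from curves to cyclic covers of intersections with generic members of linear systems.
-/

set_option autoImplicit false

open MvPolynomial FF Pool.Agent.W603.LV Pool.Agent.W603.PV Pool.Agent.TH145.GH
  Pool.Agent.TH145.MG Pool.Agent.W602.GT

namespace Pool.Agent.X323.GI

/-- The number of the places of high contact, for constant hypersurfaces. -/
theorem contact_const {k L : Type} [Field k] [Field L] [Algebra k L] [IsAlgClosed k] [CharZero k]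
    [IsFF k L] {n d : ℕ} {H : MvPolynomial (Fin (n + 1)) k} (hH : H.IsHomogeneous d)
    {x : Fin (n + 1) → L} (hx : x ≠ 0) (hxH : aeval x H ≠ 0) {q : ℕ} (hq : 0 < q) :
    {P : Place k L | d * pord P x + q ≤ P.ord (aeval x H)}.Finite ∧
      q * (({P : Place k L | d * pord P x + q ≤ P.ord (aeval x H)}.ncard : ℕ) : ℤ) ≤
        d * pht k x := by
  classical
  have hx' : ∃ j, x j ≠ 0 := Function.ne_iff.1 hx
  have hle : ∀ P : Place k L, 0 ≤ P.ord (aeval x H) - d * pord P x := by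
    intro P
    have h1 := Pool.Agent.TH145.GK.ord_ge P (hH.map (algebraMap k L)) (g := 0) (fun u => by
        rw [coeff_map, neg_zero]
        exact Ge.const _) hx (by rw [eval_map, ← aeval_def]; exact hxH)
    rw [eval_map, ← aeval_def] at h1
    linarith
  have hfin1 : (Function.support fun P : Place k L => P.ord (aeval x H)).Finite :=
    finite_support _
  have hfin2 := pord_finite (k := k) hx'
  obtain ⟨T, hT⟩ : ∃ T : Finset (Place k L), T = hfin1.toFinset ∪ hfin2.toFinset := ⟨_, rfl⟩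
  have m1 : ∀ P : Place k L, P ∉ T → P.ord (aeval x H) = 0 := fun P hP => by
    by_contra h
    exact hP (by rw [hT]; simp [h])
  have m2 : ∀ P : Place k L, P ∉ T → pord P x = 0 := fun P hP => by
    by_contra h
    exact hP (by rw [hT]; simp [h])
  have s1 : ∑ P ∈ T, P.ord (aeval x H) = 0 := sum_ord_finset _ T fun P hP => by
    by_contra h
    exact hP (m1 P h)
  have s2 : ∑ P ∈ T, pord P x = - pht k x := by
    unfold pht
    rw [neg_neg, finsum_eq_sum_of_support_subset (s := T)]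
    intro P hP
    by_contra h
    exact hP (m2 P h)
  have hsub : {P : Place k L | d * pord P x + q ≤ P.ord (aeval x H)} ⊆ (T : Set (Place k L)) := by
    intro P hP
    by_contra h
    have h1 := m1 P h
    have h2 := m2 P h
    have h3 : d * pord P x + q ≤ P.ord (aeval x H) := hP
    rw [h1, h2, mul_zero] at h3
    omega
  have hfin := (Finset.finite_toSet T).subset hsub
  refine ⟨hfin, ?_⟩
  rw [Set.ncard_eq_toFinset_card _ hfin]
  have h5 : (q : ℤ) * (hfin.toFinset.card : ℤ) ≤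
      ∑ P ∈ hfin.toFinset, (P.ord (aeval x H) - d * pord P x) := by
    rw [mul_comm, ← smul_eq_mul, Nat.cast_smul_eq_nsmul, ← Finset.sum_const]
    refine Finset.sum_le_sum fun P hP => ?_
    have h6 : d * pord P x + q ≤ P.ord (aeval x H) := by
      rw [Set.Finite.mem_toFinset] at hP
      exact hP
    linarith
  have h6 : ∑ P ∈ hfin.toFinset, (P.ord (aeval x H) - d * pord P x) ≤
      ∑ P ∈ T, (P.ord (aeval x H) - d * pord P x) :=
    Finset.sum_le_sum_of_subset_of_nonneg (fun P hP => by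
      rw [Set.Finite.mem_toFinset] at hP
      exact hsub hP) fun P _ _ => hle P
  have h7 : ∑ P ∈ T, (P.ord (aeval x H) - d * pord P x) = d * pht k x := by
    rw [Finset.sum_sub_distrib, s1, ← Finset.mul_sum, s2]
    ring
  linarith

/-- Maps from curves to cyclic covers. -/
theorem curve_cyc {k0 k L : Type} [Field k0] [Field k] [Field L] [Algebra k0 k] [Algebra k L]
    [IsAlgClosed k] [CharZero k] [IsFF k L] {n m : ℕ} {A : Type} [Fintype A] [DecidableEq A]
    {dg : A → ℕ}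
    (V : Set (MvPolynomial (Fin (n + 1)) k0)) (hVh : ∀ f ∈ V, ∃ e, f.IsHomogeneous e)
    (hV : DimLE k0 V m) {J : A → Type} [∀ a, Fintype (J a)]
    (P : ∀ a, J a → MvPolynomial (Fin (n + 1)) k0) (hP : ∀ a j, (P a j).IsHomogeneous (dg a))
    (cf : ∀ a, J a → k) (j0 : ∀ a, J a) (h0 : ∀ a, cf a (j0 a) ≠ 0)
    (hind : AlgebraicIndependent k0 fun p : Σ a, {j : J a // j ≠ j0 a} =>
      cf p.1 p.2.1 / cf p.1 (j0 p.1))
    (c0 : Fin (n + 1)) (hSt : ∀ a, ∀ I ∈ Pool.Agent.TH145.GD.St c0 (dg a), ∃ j,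
      P a j = monomial I 1)
    {F : A → MvPolynomial (Fin (n + 1)) k}
    (hF : ∀ a, F a = ∑ j, C (cf a j) * map (algebraMap k0 k) (P a j))
    (E : Finset A) (q : A → ℕ) (hq : ∀ a, a ∉ E → q a ≠ 0 ∧ q a ∣ dg a)
    (x : Fin (n + 1) → L) (y : A → L) (hc0 : x c0 ≠ 0)
    (hx : ∃ i j, x j ≠ 0 ∧ x i / x j ∉ Set.range (algebraMap k L))
    (hxV : ∀ f ∈ V, aeval x (map (algebraMap k0 k) f) = 0)
    (hxE : ∀ a ∈ E, aeval x (F a) = 0) (hxy : ∀ a, a ∉ E → y a ^ q a = aeval x (F a)) :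
    ((covDegree dg E q : ℤ) - 2 * m) * pht k x ≤ canDeg k L := by
  classical
  have hFh : ∀ a, (F a).IsHomogeneous (dg a) := fun a => by
    rw [hF]
    refine IsHomogeneous.sum _ _ _ fun j _ => ?_
    have := (isHomogeneous_C (Fin (n + 1)) (cf a j)).mul ((hP a j).map (algebraMap k0 k))
    rwa [zero_add] at this
  have hx0 : x ≠ 0 := fun h => hc0 (congrFun h c0)
  obtain ⟨Cs, hCs⟩ : ∃ Cs : Finset A, ∀ a, a ∈ Cs ↔ aeval x (F a) = 0 :=
    ⟨Finset.univ.filter fun a => aeval x (F a) = 0, fun a => by simp⟩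
  have hsub : E ⊆ Cs := fun a ha => (hCs a).2 (hxE a ha)
  have h1 := Pool.Agent.TH145.GE.curve_lin V hVh hV P hP cf j0 h0 hind c0 hSt hF Cs x hc0 hx hxV
    (fun a ha => (hCs a).1 ha) (fun a ha h => ha ((hCs a).2 h))
  obtain ⟨Hi, hHi⟩ : ∃ Hi : A → Set (Place k L), ∀ a, Hi a =
    {P : Place k L | dg a * pord P x + q a ≤ P.ord (aeval x (F a))} := ⟨_, fun _ => rfl⟩
  have hHf : ∀ a ∈ Csᶜ, (Hi a).Finite ∧ ((Hi a).ncard : ℤ) ≤ (dg a / q a : ℕ) * pht k x := by
    intro a ha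
    have ha' : a ∉ Cs := Finset.mem_compl.1 ha
    have haE : a ∉ E := fun h => ha' (hsub h)
    have hp := Nat.pos_of_ne_zero (hq a haE).1
    obtain ⟨h2, h3⟩ := contact_const (hFh a) hx0 (fun h => ha' ((hCs a).2 h)) hp
    rw [← hHi] at h2 h3
    refine ⟨h2, ?_⟩
    obtain ⟨e, he⟩ := (hq a haE).2
    have h4 : dg a / q a = e := by rw [he, Nat.mul_div_cancel_left _ hp]
    rw [h4]
    rw [he] at h3
    push_cast at h3
    have h5 : (q a : ℤ) * ((Hi a).ncard : ℤ) ≤ q a * (e * pht k x) := by linarith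
    exact le_of_mul_le_mul_left h5 (by exact_mod_cast hp)
  have hU : (⋃ a ∈ Csᶜ, Hi a).Finite := Set.Finite.biUnion (Finset.finite_toSet _) fun a ha =>
    (hHf a ha).1
  have hsub2 : {P : Place k L | ∃ a, a ∉ Cs ∧ dg a * pord P x < P.ord (aeval x (F a))} ⊆
      ⋃ a ∈ Csᶜ, Hi a := by
    rintro Q ⟨a, ha, h2⟩
    rw [Set.mem_iUnion₂]
    refine ⟨a, Finset.mem_compl.2 ha, ?_⟩
    have haE : a ∉ E := fun h => ha (hsub h)
    rw [hHi, Set.mem_ofPred_eq]
    obtain ⟨e, he⟩ := (hq a haE).2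
    have h6 : Q.ord (aeval x (F a)) = q a * Q.ord (y a) := by
      rw [← hxy a haE, Q.ord_pow]
    rw [h6, he] at h2 ⊢
    push_cast at h2 ⊢
    have hp : (0 : ℤ) < q a := by exact_mod_cast Nat.pos_of_ne_zero (hq a haE).1
    have h7 : (0 : ℤ) < Q.ord (y a) - e * pord Q x := by
      by_contra hcon
      push Not at hcon
      have := mul_nonpos_of_nonneg_of_nonpos hp.le hcon
      linarith
    have h8 : (q a : ℤ) * 1 ≤ q a * (Q.ord (y a) - e * pord Q x) :=
      mul_le_mul_of_nonneg_left (by omega) hp.le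
    linarith
  have h2 : ({P : Place k L | ∃ a, a ∉ Cs ∧ dg a * pord P x < P.ord (aeval x (F a))}.ncard : ℤ) ≤
      (∑ a ∈ Csᶜ, dg a / q a : ℕ) * pht k x := by
    have h3 := (Set.ncard_le_ncard hsub2 hU).trans (Finset.set_ncard_biUnion_le _ _)
    have h4 : ∑ a ∈ Csᶜ, ((Hi a).ncard : ℤ) ≤ ∑ a ∈ Csᶜ, ((dg a / q a : ℕ) : ℤ) * pht k x :=
      Finset.sum_le_sum fun a ha => (hHf a ha).2
    rw [← Finset.sum_mul] at h4
    have h5 : ({P : Place k L | ∃ a, a ∉ Cs ∧ dg a * pord P x < P.ord (aeval x (F a))}.ncard : ℤ) ≤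
        ∑ a ∈ Csᶜ, ((Hi a).ncard : ℤ) := by exact_mod_cast h3
    rw [Nat.cast_sum]
    exact h5.trans h4
  have h3 := cov_sum (d := dg) (q := q) hsub
  have h4 : (0 : ℤ) ≤ pht k x := Pool.Agent.Y741.pht_nonneg hx0
  have h5 : ((covDegree dg E q : ℤ) + (∑ a ∈ Csᶜ, dg a / q a : ℕ)) * pht k x ≤
      ((∑ a, dg a : ℕ) + Cs.card) * pht k x := by
    refine mul_le_mul_of_nonneg_right ?_ h4
    exact_mod_cast h3
  linarith

end Pool.Agent.X323.GI
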