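import Pool.Agent.X323.GI.CampDef
import Pool.Agent.TH145.MG.Dim

/-!
Generic members of linear systems on arbitrary projective varieties, and their cyclic covers:
definitions.
-/

set_option autoImplicit false

namespace Pool.Agent.X323.GI

open MvPolynomial Pool.Agent.W602.GT

/-- The forms `F a`, of degrees `d a`, are generic over `k` in linear systems over the algebraic
closure of `k` in `ℂ`, spanned by forms `P a j`: `F a = ∑ t a j P a j`, and the ratios of the
coefficients `t a j` of each form to one of them are, for all forms together, algebraically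
independent over `k`. For all `c ∈ Z` the linear systems contain the forms
`x_c ^ (d_a - e) x_i ^ e`. -/
def GenericMembers (k : Type) [Field k] [Algebra k ℂ] {n : ℕ} {A : Type} (d : A → ℕ)
    (Z : Set (Fin (n + 1))) (F : A → MvPolynomial (Fin (n + 1)) ℂ) : Prop :=
  ∃ (J : A → Type) (_ : ∀ a, Fintype (J a))
    (P : ∀ a, J a → MvPolynomial (Fin (n + 1)) (algebraicClosure k ℂ))
    (t : ∀ a, J a → ℂ) (j0 : ∀ a, J a),
    (∀ a j, (P a j).IsHomogeneous (d a)) ∧
    (∀ c ∈ Z, ∀ (a : A) (i : Fin (n + 1)) (e : ℕ), e ≤ d a →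
      ∃ j, P a j = X c ^ (d a - e) * X i ^ e) ∧
    (∀ a, t a (j0 a) ≠ 0) ∧
    (AlgebraicIndependent k fun p : (a : A) × {j : J a // j ≠ j0 a} =>
      t p.1 p.2.1 / t p.1 (j0 p.1)) ∧
    ∀ a, F a = ∑ j, C (t a j) * map (algebraMap (algebraicClosure k ℂ) ℂ) (P a j)

/-- The forms `g j` and `h a` give a nonconstant rational map from the projective variety `W` with the
generic point `y` to the cyclic cover `y_a ^ q_a = F_a (x)`, `a ∉ C`, of the intersection of the
closed set given by the forms in `V` with the hypersurfaces `F_a = 0`, `a ∈ C`. The cover is a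
closed subset of the weighted projective space with coordinates `x_i` of weight `1` and `y_a` of
weight `d_a / q_a`; for `C` the set of all indices, it is the intersection itself. -/
def CoverMap {k : Type} [Field k] [Algebra k ℂ] {n N : ℕ} {A : Type} {L : Type} [Field L]
    [Algebra ℂ L] (V : Set (MvPolynomial (Fin (n + 1)) (algebraicClosure k ℂ)))
    (F : A → MvPolynomial (Fin (n + 1)) ℂ) (d : A → ℕ) (C : Finset A) (q : A → ℕ)
    (y : Fin (N + 1) → L) (g : Fin (n + 1) → MvPolynomial (Fin (N + 1)) ℂ)
    (h : A → MvPolynomial (Fin (N + 1)) ℂ) : Prop :=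
  (∃ r, (∀ j, (g j).IsHomogeneous r) ∧ ∀ a, (h a).IsHomogeneous (r * (d a / q a))) ∧
    (∀ f ∈ V, aeval (fun j => aeval y (g j)) (map (algebraMap (algebraicClosure k ℂ) ℂ) f) = 0) ∧
    (∀ a ∈ C, aeval (fun j => aeval y (g j)) (F a) = 0) ∧
    (∀ a, a ∉ C → aeval y (h a) ^ q a = aeval (fun j => aeval y (g j)) (F a)) ∧
    ¬ ∃ (c : L) (p : Fin (n + 1) → ℂ), ∀ j, aeval y (g j) = c * algebraMap ℂ L (p j)

/-- For some field `E` generated by a finite set over the algebraic closure of `k` in `ℂ` the points
of the variety with coordinates in `E` are Zariski dense. -/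
def DenseOverClosure (k : Type) [Field k] [Algebra k ℂ] {N : ℕ} {L : Type} [Field L] [Algebra ℂ L]
    (y : Fin (N + 1) → L) : Prop :=
  ∃ T : Finset ℂ, IsDense y {x | x ∈ VarPts ℂ y ∧
    ∀ i, x i ∈ IntermediateField.adjoin (algebraicClosure k ℂ) (T : Set ℂ)}

end Pool.Agent.X323.GI
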