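import Pool.Agent.X323.GI.Camp
import Pool.Agent.X323.GI.CycDef
import Pool.Agent.TH145.GL.Final

/-!
Rational maps from special and from potentially dense varieties to cyclic covers of generic
intersections.
-/

set_option autoImplicit false

namespace Pool.Agent.X323.GI

open Filter MvPolynomial FF Pool.Agent.W603.PV Pool.Agent.W602.GT Pool.Agent.TH145.MG
open IntermediateField
open scoped LinearAlgebra.Projectivization

variable {n N : ℕ} {A : Type} {d : A → ℕ} {F : A → MvPolynomial (Fin (n + 1)) ℂ}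
  {L : Type} [Field L] [Algebra ℂ L] {k : Type} [Field k] [Algebra k ℂ]

theorem alg_comap' {k M Ω : Type} [Field k] [Field M] [Field Ω] [Algebra k M] [Algebra k Ω]
    (φ : M →ₐ[k] Ω) (S : Set M) {z : M} (hz : IsAlgebraic (adjoin k (φ '' S)) (φ z)) :
    IsAlgebraic (adjoin k S) z := by
  have hmem : ∀ x : adjoin k S, φ x ∈ adjoin k (φ '' S) := by
    intro x
    rw [← IntermediateField.adjoin_map]
    exact ⟨x.1, x.2, rfl⟩
  let f : adjoin k S →+* adjoin k (φ '' S) :=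
    (φ.toRingHom.comp (algebraMap (adjoin k S) M)).codRestrict (adjoin k (φ '' S)) hmem
  have hf : Function.Surjective f := by
    rintro ⟨y, hy⟩
    rw [← IntermediateField.adjoin_map] at hy
    obtain ⟨x, hx, rfl⟩ := hy
    exact ⟨⟨x, hx⟩, rfl⟩
  exact hz.of_ringHom_of_comp_eq f φ hf φ.injective rfl

/-- the relative algebraic closure of the function field of the image -/
theorem exists_image_alg {x : Fin (n + 1) → L} {w : ℕ} (hfg : (⊤ : IntermediateField ℂ L).FG)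
    (hw : Algebra.trdeg ℂ L = w) {i0 j0 : Fin (n + 1)} (ht : Transcendental ℂ (x i0 / x j0)) :
    ∃ (v : ℕ) (E : IntermediateField ℂ L) (z : Fin (n + 1) → E), 0 < v ∧
      Algebra.trdeg ℂ E = v ∧ Algebra.EssFiniteType ℂ E ∧ Algebra.IsAlgebraic (coords ℂ z) E ∧
      (∀ i, (z i : L) = (x j0)⁻¹ * x i) ∧ ∀ u : L, IsAlgebraic (coords ℂ x) u → u ∈ E := by
  have hj0 : x j0 ≠ 0 := by
    intro h0
    rw [h0, div_zero] at ht
    exact ht isAlgebraic_zero
  obtain ⟨E, hE⟩ : ∃ E : IntermediateField ℂ L, ∀ u : L, u ∈ E ↔ IsAlgebraic (coords ℂ x) u :=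
    ⟨(algebraicClosure (coords ℂ x) L).restrictScalars ℂ, fun u => by
      rw [IntermediateField.mem_restrictScalars, mem_algebraicClosure_iff]⟩
  have hmem : ∀ i, (x j0)⁻¹ * x i ∈ E := fun i => by
    rw [← div_eq_inv_mul, hE]
    have h1 : x i / x j0 ∈ coords ℂ x := IntermediateField.subset_adjoin _ _ ⟨i, j0, hj0, rfl⟩
    exact isAlgebraic_algebraMap (⟨_, h1⟩ : coords ℂ x)
  obtain ⟨z, hz⟩ : ∃ z : Fin (n + 1) → E, ∀ i, (z i : L) = (x j0)⁻¹ * x i :=
    ⟨fun i => ⟨_, hmem i⟩, fun _ => rfl⟩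
  have hset : E.val '' {s | ∃ i j, z j ≠ 0 ∧ s = z i / z j} = {s | ∃ i j, x j ≠ 0 ∧ s = x i / x j} := by
    have hr : ∀ i j, E.val (z i / z j) = x i / x j := fun i j => by
      change ((z i / z j : E) : L) = _
      rw [IntermediateField.coe_div, hz, hz, mul_div_mul_left _ _ (inv_ne_zero hj0)]
    have hn : ∀ j, z j ≠ 0 ↔ x j ≠ 0 := fun j => by
      rw [not_iff_not]
      constructor
      · intro h
        have h2 := hz j
        rw [h] at h2
        exact (mul_eq_zero.1 h2.symm).resolve_left (inv_ne_zero hj0)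
      · intro h
        have h2 := hz j
        rw [h, mul_zero] at h2
        exact Subtype.ext h2
    ext s
    constructor
    · rintro ⟨_, ⟨i, j, hj, rfl⟩, rfl⟩
      exact ⟨i, j, (hn j).1 hj, hr i j⟩
    · rintro ⟨i, j, hj, rfl⟩
      exact ⟨_, ⟨i, j, (hn j).2 hj, rfl⟩, hr i j⟩
  have halg : Algebra.IsAlgebraic (coords ℂ z) E := by
    refine ⟨fun u => ?_⟩
    have h1 : IsAlgebraic (coords ℂ x) (u : L) := (hE u).1 u.2
    have h2 : IsAlgebraic (adjoin ℂ (E.val '' {s | ∃ i j, z j ≠ 0 ∧ s = z i / z j})) (E.val u) := by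
      rw [hset]
      exact h1
    exact alg_comap' E.val _ h2
  have htr : Algebra.trdeg ℂ E ≤ Algebra.trdeg ℂ L :=
    trdeg_le_of_injective E.val E.val.toRingHom.injective
  rw [hw] at htr
  obtain ⟨v, hv⟩ := Cardinal.lt_aleph0.1 (htr.trans_lt Cardinal.natCast_lt_aleph0)
  have hfgE : E.FG := Pool.Agent.Y333.IL.t_FGS L hfg E
  refine ⟨v, E, z, ?_, hv, IntermediateField.essFiniteType_iff.2 hfgE, halg, hz,
    fun u hu => (hE u).2 hu⟩
  rw [Nat.pos_iff_ne_zero]
  rintro rfl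
  have h1 : Algebra.IsAlgebraic ℂ E := (_root_.trdeg_eq_zero_iff (R := ℂ) (A := E)).1 (by
    rw [hv]; rfl)
  apply ht
  have h2 : IsAlgebraic ℂ (⟨x i0 / x j0, by
    rw [div_eq_inv_mul]; exact hmem i0⟩ : E) := h1.isAlgebraic _
  exact h2.algHom E.val

/-- Zariski dense sets and finite sets. -/
theorem not_dense_gen {y : Fin (N + 1) → L} {P : Set (Fin (N + 1) → ℂ)} (hden : IsDense y P)
    {g : Fin (n + 1) → MvPolynomial (Fin (N + 1)) ℂ} {r : ℕ} (hr : ∀ j, (g j).IsHomogeneous r)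
    (hnc : ¬ ∃ (c : L) (p : Fin (n + 1) → ℂ), ∀ j, aeval y (g j) = c * algebraMap ℂ L (p j))
    {G : MvPolynomial (Fin (n + 1)) ℂ} {e : ℕ} (he : G.IsHomogeneous e)
    (hne : aeval (fun j => aeval y (g j)) G ≠ 0) {B : Set (ℙ ℂ (Fin (n + 1) → ℂ))}
    (hfin : B.Finite)
    (h : ∀ x ∈ P, ∀ z : Fin (n + 1) → ℂ, (∀ j, z j = eval x (g j)) → ∀ hz : z ≠ 0,
      eval z G ≠ 0 → Projectivization.mk ℂ z hz ∈ B) : False := by
  classical
  obtain ⟨j0, hj0⟩ : ∃ j0, aeval y (g j0) ≠ 0 := by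
    by_contra hcon
    push Not at hcon
    exact hnc ⟨0, fun _ => 0, fun j => by rw [hcon, zero_mul]⟩
  have h1 : ∀ q : ℙ ℂ (Fin (n + 1) → ℂ), ∃ i,
      aeval y (C (q.rep j0) * g i - C (q.rep i) * g j0) ≠ 0 := by
    intro q
    by_contra hcon
    push Not at hcon
    have h2 : ∀ i, algebraMap ℂ L (q.rep j0) * aeval y (g i) =
        algebraMap ℂ L (q.rep i) * aeval y (g j0) := by
      intro i
      have h3 := hcon i
      rw [map_sub, map_mul, map_mul, aeval_C, aeval_C] at h3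
      exact sub_eq_zero.1 h3
    by_cases hq : q.rep j0 = 0
    · apply q.rep_nonzero
      funext i
      have h3 := h2 i
      rw [hq, map_zero, zero_mul] at h3
      have h4 := (mul_eq_zero.1 h3.symm).resolve_right hj0
      rwa [map_eq_zero] at h4
    · refine hnc ⟨aeval y (g j0) / algebraMap ℂ L (q.rep j0), fun i => q.rep i, fun i => ?_⟩
      have h3 : algebraMap ℂ L (q.rep j0) ≠ 0 := by rwa [Ne, map_eq_zero]
      rw [div_mul_eq_mul_div, eq_div_iff h3, mul_comm, h2 i, mul_comm]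
  choose i hi using h1
  have hg2 : (aeval g G).IsHomogeneous (r * e) := he.aeval g hr
  obtain ⟨Q, hQ⟩ : ∃ Q, Q = aeval g G * (g j0 * ∏ q ∈ hfin.toFinset,
    (C (q.rep j0) * g (i q) - C (q.rep (i q)) * g j0)) := ⟨_, rfl⟩
  have hQf : IsForm Q := by
    rw [hQ]
    refine ⟨r * e + (r + ∑ _q ∈ hfin.toFinset, r),
      hg2.mul ((hr j0).mul (IsHomogeneous.prod _ _ _ fun q _ => ?_))⟩
    have h2 : ∀ (c : ℂ) j, (C c * g j).IsHomogeneous r := by
      intro c j
      have := (isHomogeneous_C (Fin (N + 1)) c).mul (hr j)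
      rwa [zero_add] at this
    exact (h2 _ _).sub (h2 _ _)
  have hQy : aeval y Q ≠ 0 := by
    rw [hQ, map_mul, map_mul, map_prod]
    refine mul_ne_zero ?_ (mul_ne_zero hj0 (Finset.prod_ne_zero_iff.2 fun q _ => hi q))
    rw [comp_aeval_apply]
    exact hne
  refine hQy (hden Q hQf fun x hx => ?_)
  rw [hQ, map_mul, map_mul, map_prod]
  obtain ⟨z, hz⟩ : ∃ z : Fin (n + 1) → ℂ, ∀ j, z j = eval x (g j) := ⟨_, fun _ => rfl⟩
  have hev : ∀ P : MvPolynomial (Fin (n + 1)) ℂ, eval x (aeval g P) = eval z P := by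
    intro P
    have h2 := comp_aeval_apply (f := g) (aeval x : MvPolynomial (Fin (N + 1)) ℂ →ₐ[ℂ] ℂ) P
    have h4 : z = fun j => (aeval x : MvPolynomial (Fin (N + 1)) ℂ →ₐ[ℂ] ℂ) (g j) := by
      funext j
      rw [hz, aeval_eq_eval]
    rw [h4, ← Pool.Agent.X332.GT.aeval_eval, ← Pool.Agent.X332.GT.aeval_eval]
    exact h2
  by_cases hGz : eval z G = 0
  · rw [hev, hGz, zero_mul]
  by_cases hzj : eval x (g j0) = 0
  · rw [hzj, zero_mul, mul_zero]
  have hz0 : z ≠ 0 := by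
    intro h0
    apply hzj
    rw [← hz, h0]
    rfl
  obtain ⟨c, hc⟩ := Projectivization.exists_smul_eq_mk_rep ℂ z hz0
  have hc' : (Projectivization.mk ℂ z hz0).rep = (c : ℂ) • z := hc.symm
  have hmem : Projectivization.mk ℂ z hz0 ∈ hfin.toFinset := by
    rw [Set.Finite.mem_toFinset]
    exact h x hx z hz hz0 hGz
  rw [Finset.prod_eq_zero hmem, mul_zero, mul_zero]
  have h2 : ∀ j, (Projectivization.mk ℂ z hz0).rep j = (c : ℂ) * z j := by
    intro j
    rw [hc']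
    rfl
  rw [map_sub, map_mul, map_mul, eval_C, eval_C, h2, h2, hz, hz]
  ring

/-- values of finitely many forms at points over a field -/
theorem exists_fin_ext' {ι : Type} [Fintype ι] (k : Type) [Field k] [Algebra k ℂ]
    (g : ι → MvPolynomial (Fin (N + 1)) ℂ) (T : Finset ℂ) :
    ∃ T' : Finset ℂ, ∀ x : Fin (N + 1) → ℂ,
      (∀ i, x i ∈ IntermediateField.adjoin (algebraicClosure k ℂ) (T : Set ℂ)) → ∀ j,
      eval x (g j) ∈ IntermediateField.adjoin (algebraicClosure k ℂ) (T' : Set ℂ) := by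
  classical
  refine ⟨T ∪ Finset.univ.biUnion fun j => (g j).support.image fun u => (g j).coeff u,
    fun x hx j => ?_⟩
  obtain ⟨T', hT'⟩ : ∃ T' : Finset ℂ,
    T' = T ∪ Finset.univ.biUnion fun j => (g j).support.image fun u => (g j).coeff u := ⟨_, rfl⟩
  rw [← hT']
  have hx' : ∀ i, x i ∈ IntermediateField.adjoin (algebraicClosure k ℂ) (T' : Set ℂ) := fun i => by
    refine IntermediateField.adjoin.mono _ _ _ ?_ (hx i)
    rw [hT', Finset.coe_union]
    exact Set.subset_union_left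
  rw [eval_eq]
  refine sum_mem fun u hu => mul_mem ?_ (prod_mem fun i _ => pow_mem (hx' i) _)
  apply IntermediateField.subset_adjoin
  rw [hT', Finset.mem_coe]
  exact Finset.mem_union_right _ (Finset.mem_biUnion.2 ⟨j, Finset.mem_univ _,
    Finset.mem_image_of_mem _ hu⟩)

theorem closure_dense {y : Fin (N + 1) → L} (h : PotentiallyDense y) : DenseOverClosure k y := by
  obtain ⟨T, hT⟩ := h
  refine ⟨T, fun G hG hx => hT G hG fun x hx' => hx x ⟨hx'.1, fun i => ?_⟩⟩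
  have h7 : Subfield.closure (T : Set ℂ) ≤ (IntermediateField.adjoin (algebraicClosure k ℂ)
      (T : Set ℂ)).toSubfield := Subfield.closure_le.2 (IntermediateField.subset_adjoin _ _)
  exact h7 (hx'.2 i)

theorem stars {c : Fin (n + 1)} {J : A → Type} {K : Type} [Field K]
    {P : ∀ a, J a → MvPolynomial (Fin (n + 1)) K}
    (h : ∀ (a : A) (i : Fin (n + 1)) (e : ℕ), e ≤ d a → ∃ j, P a j = X c ^ (d a - e) * X i ^ e)
    (a : A) : ∀ I ∈ Pool.Agent.TH145.GD.St c (d a), ∃ j, P a j = monomial I 1 := by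
  intro I hI
  obtain ⟨i, e, he, rfl⟩ := hI
  obtain ⟨j, hj⟩ := h a i e he
  refine ⟨j, ?_⟩
  rw [hj, Pool.Agent.TH145.GD.sM, X_pow_eq_monomial, X_pow_eq_monomial, monomial_mul, one_mul]

variable [Fintype A] [DecidableEq A] {m : ℕ}
  {V : Set (MvPolynomial (Fin (n + 1)) (algebraicClosure k ℂ))} {Z : Set (Fin (n + 1))}
  {C : Finset A} {q : A → ℕ}

/-- **Special varieties.** -/
theorem cyc_special (hVh : ∀ f ∈ V, ∃ e, f.IsHomogeneous e)
    (hV : DimLE (algebraicClosure k ℂ) V m) (hF : GenericMembers k d Z F)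
    (hq : ∀ a, a ∉ C → q a ≠ 0 ∧ q a ∣ d a)
    (hd : 2 * m + 2 ≤ ∑ a ∈ C, (d a + 1) + ∑ a ∈ Cᶜ, (d a - d a / q a)) {w : ℕ}
    {y : Fin (N + 1) → L} (hW : Variety w y) (hsp : Pool.Agent.X332.SP.CSpecial ℂ L w)
    {g : Fin (n + 1) → MvPolynomial (Fin (N + 1)) ℂ} {h : A → MvPolynomial (Fin (N + 1)) ℂ}
    (hg : CoverMap V F d C q y g h) : ∀ c ∈ Z, aeval y (g c) = 0 := by
  intro c hc
  by_contra hne
  obtain ⟨-, hgV, hgC, hgh, hnc⟩ := hg
  obtain ⟨-, hco, hw⟩ := hW
  obtain ⟨i0, j0, ht⟩ := ratio_of hnc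
  have hfg := Pool.Agent.Y377.IL.fg_of_coords hco
  obtain ⟨v, E, z, hv, htr, hess, halg, hz, hE⟩ :=
    exists_image_alg (x := fun j => aeval y (g j)) hfg hw ht
  obtain ⟨x, hx⟩ : ∃ x : Fin (n + 1) → L, x = fun j => aeval y (g j) := ⟨_, rfl⟩
  have hxj : ∀ j, x j = aeval y (g j) := fun j => by rw [hx]
  rw [← hx] at hgV hgC hgh hE
  have hz' : ∀ i, (z i : L) = (x j0)⁻¹ * x i := fun i => by
    rw [hz, hxj, hxj]
  have hj0 : x j0 ≠ 0 := by
    intro h0
    rw [← hxj, ← hxj, h0, div_zero] at ht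
    exact ht isAlgebraic_zero
  have hval : ∀ G : MvPolynomial (Fin (n + 1)) ℂ, ((aeval z G : E) : L) =
      aeval ((x j0)⁻¹ • x) G := fun G => by
    have h1 := comp_aeval_apply (f := z) E.val G
    have h2 : (fun i => E.val (z i)) = (x j0)⁻¹ • x := funext hz'
    rw [h2] at h1
    exact h1
  obtain ⟨J, _, P, t, l0, hP, hZ, h0, hgen, hFt⟩ := hF
  have hac : IsAlgClosed (algebraicClosure k ℂ) := (algebraicClosure.isAlgClosure k ℂ).isAlgClosed
  have hind : AlgebraicIndependent (algebraicClosure k ℂ)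
      fun p : (a : A) × {j : J a // j ≠ l0 a} => t p.1 p.2.1 / t p.1 (l0 p.1) :=
    hgen.algebraicClosure
  have hFh : ∀ a, (F a).IsHomogeneous (d a) := fun a => by
    rw [hFt]
    refine IsHomogeneous.sum _ _ _ fun j _ => ?_
    have h1 := (isHomogeneous_C (Fin (n + 1)) (t a j)).mul ((hP a j).map
      (algebraMap (algebraicClosure k ℂ) ℂ))
    rwa [zero_add] at h1
  -- the coordinates of the cover
  have hya : ∀ a, ∃ u : E, a ∉ C → u ^ q a = aeval z (F a) := by
    intro a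
    by_cases ha : a ∈ C
    · exact ⟨0, fun h => absurd ha h⟩
    obtain ⟨hq0, e, he⟩ := hq a ha
    have he' : d a / q a = e := by
      rw [he, Nat.mul_div_cancel_left _ (Nat.pos_of_ne_zero hq0)]
    obtain ⟨u, hu⟩ : ∃ u : L, u = (x j0)⁻¹ ^ e * aeval y (h a) := ⟨_, rfl⟩
    have hu2 : u ^ q a = ((aeval z (F a) : E) : L) := by
      rw [hval, Pool.Agent.TH145.MG.aeval_smul (hFh a), ← hgh a ha, hu, mul_pow, ← pow_mul,
        mul_comm e, ← he]
    have halg2 : IsAlgebraic (coords ℂ x) u := by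
      have h1 : u ^ q a ∈ coords ℂ x := by
        rw [hu2, hval]
        have h2 : ∀ i, ((x j0)⁻¹ • x) i ∈ coords ℂ x := fun i => by
          rw [Pi.smul_apply, smul_eq_mul, ← div_eq_inv_mul]
          exact IntermediateField.subset_adjoin _ _ ⟨i, j0, hj0, rfl⟩
        rw [aeval_def, eval₂_eq]
        exact sum_mem fun s _ => mul_mem (IntermediateField.algebraMap_mem _ _) (prod_mem fun i _ => pow_mem (h2 i) _)
      have h2 : IsAlgebraic (coords ℂ x) (u ^ q a) := isAlgebraic_algebraMap (⟨_, h1⟩ : coords ℂ x)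
      exact h2.of_pow (Nat.pos_of_ne_zero hq0)
    refine ⟨⟨u, hE u halg2⟩, fun _ => Subtype.ext ?_⟩
    exact hu2
  choose ya hya using hya
  have hgt : GeneralType ℂ E v := by
    refine Pool.Agent.TH145.GL.general_cyclic C hq hd V hVh hV P hP Z
      (fun c hc => stars (hZ c hc)) t l0 h0 hind hFt hv htr z ya ⟨c, hc, fun h1 => ?_⟩ halg
      (fun f hf => ?_) (fun a ha => ?_) hya
    · have h2 := hz' c
      rw [h1] at h2
      have h3 := (mul_eq_zero.1 h2.symm).resolve_left (inv_ne_zero hj0)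
      exact hne (by rw [← hxj, h3])
    · obtain ⟨e, he⟩ := hVh f hf
      have h2 := hval (map (algebraMap (algebraicClosure k ℂ) ℂ) f)
      rw [Pool.Agent.TH145.MG.aeval_smul (he.map _), hgV f hf, mul_zero] at h2
      exact Subtype.ext h2
    · have h2 := hval (F a)
      rw [Pool.Agent.TH145.MG.aeval_smul (hFh a), hgC a ha, mul_zero] at h2
      exact Subtype.ext h2
  have hessL : Algebra.EssFiniteType ℂ L := Pool.Agent.X332.SP.ess_of_coords hco
  exact hsp.not_gt hw E.val hv hgt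

/-- **Potentially dense varieties.** -/
theorem cyc_dense (hVh : ∀ f ∈ V, ∃ e, f.IsHomogeneous e)
    (hV : DimLE (algebraicClosure k ℂ) V m) (hF : GenericMembers k d Z F)
    (hq : ∀ a, a ∉ C → q a ≠ 0 ∧ q a ∣ d a)
    (hd : 2 * m + 2 ≤ ∑ a ∈ C, (d a + 1) + ∑ a ∈ Cᶜ, (d a - d a / q a))
    {y : Fin (N + 1) → L} (hden : DenseOverClosure k y)
    {g : Fin (n + 1) → MvPolynomial (Fin (N + 1)) ℂ} {h : A → MvPolynomial (Fin (N + 1)) ℂ}
    (hg : CoverMap V F d C q y g h) : ∀ c ∈ Z, aeval y (g c) = 0 := by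
  intro c hc
  by_contra hne
  obtain ⟨T, hT⟩ := hden
  obtain ⟨⟨r, hr, hh⟩, hgV, hgC, hgh, hnc⟩ := hg
  obtain ⟨J, _, P, t, l0, hP, hZ, h0, hgen, hFt⟩ := hF
  have hac : IsAlgClosed (algebraicClosure k ℂ) := (algebraicClosure.isAlgClosure k ℂ).isAlgClosed
  have hind : AlgebraicIndependent (algebraicClosure k ℂ)
      fun p : (a : A) × {j : J a // j ≠ l0 a} => t p.1 p.2.1 / t p.1 (l0 p.1) :=
    hgen.algebraicClosure
  have hFh : ∀ a, (F a).IsHomogeneous (d a) := fun a => by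
    rw [hFt]
    refine IsHomogeneous.sum _ _ _ fun j _ => ?_
    have h1 := (isHomogeneous_C (Fin (n + 1)) (t a j)).mul ((hP a j).map
      (algebraMap (algebraicClosure k ℂ) ℂ))
    rwa [zero_add] at h1
  obtain ⟨T', hT'⟩ := exists_fin_ext' k (Sum.elim g h : Fin (n + 1) ⊕ A → _) T
  have hfin := Pool.Agent.TH145.GL.fin_cyclic C hq hd V hVh hV P hP Z
    (fun c hc => stars (hZ c hc)) t l0 h0 hind hFt T'
  refine not_dense_gen hT hr hnc (G := X c) (e := 1) (isHomogeneous_X _ _) (by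
    rw [aeval_X]; exact hne) hfin fun x hx z hz hz0 hzc => ?_
  obtain ⟨hx1, hx2⟩ := hx
  rw [eval_X] at hzc
  have hev : ∀ P : MvPolynomial (Fin (n + 1)) ℂ, eval x (aeval g P) = eval z P := by
    intro P
    have h2 := comp_aeval_apply (f := g) (aeval x : MvPolynomial (Fin (N + 1)) ℂ →ₐ[ℂ] ℂ) P
    have h4 : z = fun j => (aeval x : MvPolynomial (Fin (N + 1)) ℂ →ₐ[ℂ] ℂ) (g j) := by
      funext j
      rw [hz, aeval_eq_eval]
    rw [h4, ← Pool.Agent.X332.GT.aeval_eval, ← Pool.Agent.X332.GT.aeval_eval]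
    exact h2
  have hvan : ∀ G : MvPolynomial (Fin (N + 1)) ℂ, IsForm G → aeval y G = 0 → eval x G = 0 := by
    intro G hG h1
    rw [← val_eval]
    exact hx1.2 G hG h1
  obtain ⟨c', hc'⟩ := Projectivization.exists_smul_eq_mk_rep ℂ z hz0
  have hc2 : (Projectivization.mk ℂ z hz0).rep = (c' : ℂ) • z := hc'.symm
  refine ⟨⟨c, hc, ?_⟩, z, fun a => if a ∈ C then 0 else eval x (h a), fun i => ?_, fun a => ?_,
    fun f hf => ?_, fun a ha => ?_, fun a ha => ?_, hz0, rfl⟩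
  · rw [hc2, Pi.smul_apply, smul_eq_mul]
    exact mul_ne_zero c'.ne_zero hzc
  · rw [hz]
    exact hT' x hx2 (Sum.inl i)
  · change (if a ∈ C then 0 else eval x (h a)) ∈ _
    split_ifs
    · exact zero_mem _
    · exact hT' x hx2 (Sum.inr a)
  · obtain ⟨e, he⟩ := hVh f hf
    have h1 : eval z (map (algebraMap (algebraicClosure k ℂ) ℂ) f) = 0 := by
      rw [← hev]
      refine hvan _ ⟨_, (he.map _).aeval g hr⟩ ?_
      rw [comp_aeval_apply]
      exact hgV f hf
    rw [eval_map] at h1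
    exact h1
  · rw [← hev]
    refine hvan _ ⟨_, (hFh a).aeval g hr⟩ ?_
    rw [comp_aeval_apply]
    exact hgC a ha
  · change (if a ∈ C then 0 else eval x (h a)) ^ q a = _
    rw [if_neg ha]
    obtain ⟨hq0, e, he⟩ := hq a ha
    have he' : d a / q a = e := by
      rw [he, Nat.mul_div_cancel_left _ (Nat.pos_of_ne_zero hq0)]
    have h1 : IsForm (h a ^ q a - aeval g (F a)) := by
      refine ⟨r * d a, ?_⟩
      have e1 := (hh a).pow (q a)
      have e2 := (hFh a).aeval g hr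
      have e3 : r * (d a / q a) * q a = r * d a := by
        rw [he', mul_assoc, mul_comm e, ← he]
      rw [e3] at e1
      exact e1.sub e2
    have h2 := hvan _ h1 (by
      rw [map_sub, map_pow, comp_aeval_apply, hgh a ha, sub_self])
    rw [map_sub, map_pow, hev] at h2
    exact sub_eq_zero.1 h2

/-- **Rational maps to cyclic covers.** -/
theorem cyc_main (hVh : ∀ f ∈ V, ∃ e, f.IsHomogeneous e)
    (hV : DimLE (algebraicClosure k ℂ) V m) (hF : GenericMembers k d Z F)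
    (hq : ∀ a, a ∉ C → q a ≠ 0 ∧ q a ∣ d a)
    (hd : 2 * m + 2 ≤ ∑ a ∈ C, (d a + 1) + ∑ a ∈ Cᶜ, (d a - d a / q a)) {w : ℕ}
    {y : Fin (N + 1) → L} (hW : Variety w y)
    {g : Fin (n + 1) → MvPolynomial (Fin (N + 1)) ℂ} {h : A → MvPolynomial (Fin (N + 1)) ℂ}
    (hg : CoverMap V F d C q y g h) (hgZ : ∃ c ∈ Z, aeval y (g c) ≠ 0) :
    ¬ Pool.Agent.X332.SP.CSpecial ℂ L w ∧ ¬ PotentiallyDense y ∧ ¬ DenseOverClosure k y ∧
      ¬ DenseSequence y := by
  obtain ⟨c, hc, hne⟩ := hgZ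
  exact ⟨fun h1 => hne (cyc_special hVh hV hF hq hd hW h1 hg c hc),
    fun h1 => hne (cyc_dense hVh hV hF hq hd (closure_dense h1) hg c hc),
    fun h1 => hne (cyc_dense hVh hV hF hq hd h1 hg c hc),
    fun h1 => hne (cyc_special hVh hV hF hq hd hW (special_of_seq hW h1) hg c hc)⟩

end Pool.Agent.X323.GI
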