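import Pool.Agent.X323.GI.FinC
import Pool.Agent.X323.GI.Vg
import Pool.Agent.TH145.GC.Main
import Pool.Agent.TH145.GH.Smooth

/-!
Cyclic hypersurfaces `y ^ d = F (x)`.
-/

set_option autoImplicit false

namespace Pool.Agent.X323.GI

open Filter MvPolynomial FF Pool.Agent.W603.PV Pool.Agent.W602.GT Pool.Agent.TH145.MG
open Pool.Agent.W603.LV

variable {n d : ℕ}

/-- The form `y ^ d - F (x)` in `n + 2` variables, where `y` is the last one. -/
noncomputable def cyc (d : ℕ) (F : MvPolynomial (Fin (n + 1)) ℂ) : MvPolynomial (Fin (n + 2)) ℂ :=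
  X (Fin.last (n + 1)) ^ d - rename Fin.castSucc F

theorem cyc_hom {F : MvPolynomial (Fin (n + 1)) ℂ} (hF : F.IsHomogeneous d) :
    (cyc d F).IsHomogeneous d := by
  unfold cyc
  refine IsHomogeneous.sub ?_ (hF.rename_isHomogeneous)
  have h1 := (isHomogeneous_X ℂ (Fin.last (n + 1))).pow d
  rwa [one_mul] at h1

theorem aeval_cyc {K : Type} [Field K] [Algebra ℂ K] (F : MvPolynomial (Fin (n + 1)) ℂ)
    (z : Fin (n + 2) → K) :
    aeval z (cyc d F) = z (Fin.last (n + 1)) ^ d - aeval (fun j => z (Fin.castSucc j)) F := by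
  unfold cyc
  rw [map_sub, map_pow, aeval_X, aeval_rename]
  rfl

/-- the linear projection -/
noncomputable def prj (n : ℕ) : Unit → Fin (n + 1) → MvPolynomial (Fin (n + 1 + 1)) ℂ :=
  fun _ j => X (Fin.castSucc j)

noncomputable def prh (n : ℕ) : Unit → Unit → MvPolynomial (Fin (n + 1 + 1)) ℂ :=
  fun _ _ => X (Fin.last (n + 1))

theorem prj_aeval {K : Type} [Field K] [Algebra ℂ K] (z : Fin (n + 2) → K) (s : Unit) :
    (fun j => aeval z (prj n s j)) = fun j => z (Fin.castSucc j) := by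
  funext j
  exact aeval_X _ _

theorem proj_ne {K : Type} [Field K] [Algebra ℂ K] {F : MvPolynomial (Fin (n + 1)) ℂ}
    (hF : F.IsHomogeneous d) (hd : 0 < d) {z : Fin (n + 2) → K} (hz0 : z ≠ 0)
    (hz : aeval z (cyc d F) = 0) : (fun j => z (Fin.castSucc j)) ≠ 0 := by
  intro h0
  rw [aeval_cyc, h0] at hz
  have h1 : aeval (0 : Fin (n + 1) → K) F = 0 := by
    rw [aeval_def, eval₂_zero_apply, constantCoeff_eq]
    by_contra h2
    have h3 : F.coeff 0 ≠ 0 := fun h => h2 (by rw [h, map_zero])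
    have h4 := hF h3
    rw [map_zero] at h4
    omega
  rw [h1, sub_zero] at hz
  have h2 := eq_zero_of_pow_eq_zero hz
  apply hz0
  funext j
  refine Fin.lastCases h2 (fun j => congrFun h0 j) j

theorem cyc_map {k : Type} [Field k] [Algebra k ℂ] {F : MvPolynomial (Fin (n + 1)) ℂ}
    (hF : F.IsHomogeneous d) (hd : 0 < d) :
    FiniteMap (k := k) (fun _ : Unit => cyc d F) ∅ (fun _ : Unit => F) ∅ (fun _ => d) (prj n)
      (prh n) := by
  refine ⟨fun _ => ⟨1, fun j => isHomogeneous_X _ _⟩, fun K _ _ z hz0 hz => ?_⟩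
  have hne := proj_ne hF hd hz0 (hz ())
  refine ⟨⟨(), by rw [prj_aeval]; exact hne⟩, fun s hs => ⟨⟨⟨hs, fun f hf => absurd hf (Set.notMem_empty f)⟩,
    fun a ha => absurd ha (Finset.notMem_empty a), fun a _ _ => ?_, fun a _ h => absurd h hd.ne'⟩,
    fun t ht => ?_⟩⟩
  · have h1 := hz ()
    rw [aeval_cyc, sub_eq_zero] at h1
    rw [prj_aeval, ← h1]
    exact congrArg (· ^ d) (aeval_X _ _)
  · rw [prj_aeval]
    obtain ⟨c, hc⟩ := Function.ne_iff.1 hne
    obtain ⟨M, hM⟩ : ∃ M : IntermediateField ℂ K, M = coords ℂ fun j => z (Fin.castSucc j) :=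
      ⟨_, rfl⟩
    rw [← hM]
    have hx : ∀ j : Fin (n + 1), z (Fin.castSucc j) / z (Fin.castSucc c) ∈ M := fun j => by
      rw [hM]
      exact IntermediateField.subset_adjoin _ _ ⟨j, c, hc, rfl⟩
    have hlast : IsAlgebraic M (z (Fin.last (n + 1)) / z (Fin.castSucc c)) := by
      have h1 := hz ()
      rw [aeval_cyc, sub_eq_zero] at h1
      have h2 : (z (Fin.last (n + 1)) / z (Fin.castSucc c)) ^ d =
          aeval (fun j => z (Fin.castSucc j) / z (Fin.castSucc c)) F := by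
        have h3 : (fun j => z (Fin.castSucc j) / z (Fin.castSucc c)) =
            (z (Fin.castSucc c))⁻¹ • fun j => z (Fin.castSucc j) := by
          funext j
          rw [Pi.smul_apply, smul_eq_mul, div_eq_inv_mul]
        rw [h3, Pool.Agent.TH145.MG.aeval_smul hF, ← h1, div_pow, inv_pow, div_eq_inv_mul]
      have h3 : aeval (fun j => z (Fin.castSucc j) / z (Fin.castSucc c)) F ∈ M := by
        have h4 : aeval (fun j => z (Fin.castSucc j) / z (Fin.castSucc c)) F =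
            algebraMap M K (aeval (fun j => (⟨_, hx j⟩ : M)) F) := by
          rw [← aeval_algebraMap_apply]
          rfl
        rw [h4]
        exact (aeval (fun j => (⟨_, hx j⟩ : M)) F).2
      have h4 : IsAlgebraic M ((z (Fin.last (n + 1)) / z (Fin.castSucc c)) ^ d) := by
        rw [h2]
        exact isAlgebraic_algebraMap (⟨_, h3⟩ : M)
      exact h4.of_pow hd
    have hall : ∀ i : Fin (n + 2), IsAlgebraic M (z i / z (Fin.castSucc c)) := fun i => by
      refine Fin.lastCases hlast (fun j => ?_) i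
      exact isAlgebraic_algebraMap (⟨_, hx j⟩ : M)
    have h5 : coords ℂ z ≤ (algebraicClosure M K).restrictScalars ℂ := by
      unfold coords
      rw [IntermediateField.adjoin_le_iff]
      rintro _ ⟨i, j, hj, rfl⟩
      change z i / z j ∈ algebraicClosure M K
      have h6 : z i / z j = (z i / z (Fin.castSucc c)) / (z j / z (Fin.castSucc c)) := by
        rw [div_div_div_cancel_right₀ hc]
      rw [h6]
      exact div_mem (mem_algebraicClosure_iff.2 (hall i)) (mem_algebraicClosure_iff.2 (hall j))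
    exact mem_algebraicClosure_iff.1 (h5 ht)

theorem cyc_smooth {F : MvPolynomial (Fin (n + 1)) ℂ} (hF : F.IsHomogeneous d) (hd : 2 ≤ d)
    (hind : AlgebraicIndependent ℚ fun I : {I : Fin (n + 1) →₀ ℕ // I.degree = d} => F.coeff I.1)
    (z : Fin (n + 2) → ℂ) (hz : ∀ j, eval z (pderiv j (cyc d F)) = 0) : z = 0 := by
  have h1 : z (Fin.last (n + 1)) = 0 := by
    have h2 := hz (Fin.last (n + 1))
    unfold cyc at h2
    rw [map_sub, Derivation.leibniz_pow, pderiv_X_self, map_sub] at h2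
    have h3 : pderiv (Fin.last (n + 1)) (rename Fin.castSucc F) = 0 := by
      refine pderiv_eq_zero_of_notMem_vars fun h => ?_
      obtain ⟨j, -, hj⟩ := Finset.mem_image.1 (vars_rename Fin.castSucc F h)
      exact absurd hj (Fin.castSucc_lt_last j).ne
    rw [h3, map_zero, sub_zero] at h2
    simp only [smul_eq_mul, mul_one, nsmul_eq_mul, map_mul, map_natCast, map_pow, eval_X] at h2
    rcases mul_eq_zero.1 h2 with h4 | h4
    · exact absurd h4 (by exact_mod_cast (by omega : d ≠ 0))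
    · exact eq_zero_of_pow_eq_zero h4
  have h2 : (fun j => z (Fin.castSucc j)) = 0 := by
    refine Pool.Agent.TH145.GH.smooth_of_indep (k := ℚ) (by omega) hF hind _ fun j => ?_
    have h3 := hz (Fin.castSucc j)
    unfold cyc at h3
    rw [map_sub, Derivation.leibniz_pow, pderiv_X_of_ne (Fin.castSucc_lt_last j).ne', smul_zero,
      smul_zero, zero_sub, pderiv_rename (Fin.castSucc_injective _), map_neg, neg_eq_zero,
      eval_rename] at h3
    exact h3
  funext i
  refine Fin.lastCases h1 (fun j => congrFun h2 j) i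

/-- the degree of a map to a cyclic hypersurface -/
theorem pht_cyc {L : Type} [Field L] [Algebra ℂ L] [IsFF ℂ L] {F : MvPolynomial (Fin (n + 1)) ℂ}
    (hF : F.IsHomogeneous d) (hd : 0 < d) {z : Fin (n + 2) → L} (hz0 : z ≠ 0)
    (hz : aeval z (cyc d F) = 0) : pht ℂ (fun j => z (Fin.castSucc j)) = pht ℂ z := by
  have hne := proj_ne hF hd hz0 hz
  have hne' : ∃ j, (fun j => z (Fin.castSucc j)) j ≠ 0 := Function.ne_iff.1 hne
  have hz0' : ∃ j, z j ≠ 0 := Function.ne_iff.1 hz0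
  unfold pht
  congr 1
  refine finsum_congr fun P => ?_
  apply le_antisymm
  · obtain ⟨i, hi, h⟩ := exists_pord P hz0'
    rw [← h]
    revert hi
    refine Fin.lastCases (fun hi => ?_) (fun j hj => ?_) i
    · rw [aeval_cyc, sub_eq_zero] at hz
      have h1 : aeval (fun j => z (Fin.castSucc j)) F ≠ 0 := by
        rw [← hz]
        exact pow_ne_zero _ hi
      have h2 := Pool.Agent.TH145.GK.ord_ge P (hF.map (algebraMap ℂ L)) (g := 0) (fun u => by
        rw [coeff_map, neg_zero]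
        exact Ge.const _) hne (by rw [eval_map, ← aeval_def]; exact h1)
      rw [eval_map, ← aeval_def, ← hz, P.ord_pow] at h2
      have h3 : (0 : ℤ) < d := by exact_mod_cast hd
      by_contra hcon
      push Not at hcon
      have h4 := mul_lt_mul_of_pos_left hcon h3
      linarith
    · exact pord_le P (f := fun j => z (Fin.castSucc j)) hj
  · obtain ⟨j, hj, h⟩ := exists_pord P hne'
    rw [← h]
    exact pord_le P (f := z) hj

theorem cov_cyc (hd : 2 * n + 2 ≤ d) :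
    covDegree (fun _ : Unit => d) ∅ (fun _ : Unit => d) = d - 1 := by
  have h1 : d / d = 1 := Nat.div_self (by omega)
  unfold covDegree
  rw [Finset.sum_empty, zero_add, Finset.compl_empty, Finset.univ_unique, Finset.sum_singleton, h1]

open Pool.Agent.TH143.EL (TorusMapsIn InV)
open Pool.Agent.X316.ZG (JointlyUniversal)
open Pool.Agent.Y741 (SubX)
open scoped LinearAlgebra.Projectivization

/-- **Cyclic hypersurfaces.** -/
theorem cychyp_main {F : MvPolynomial (Fin (n + 1)) ℂ} (hF : F.IsHomogeneous d) (hd : 2 * n + 2 ≤ d)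
    (hind : AlgebraicIndependent ℚ fun I : {I : Fin (n + 1) →₀ ℕ // I.degree = d} =>
      F.coeff I.1) :
    (∀ (K : Type) [Field K] [Algebra ℂ K] (w : ℕ) (z : Fin (n + 1 + 1) → K), 0 < w →
      SubX (fun _ : Unit => cyc d F) w z → GeneralType ℂ K w) ∧
    (∀ ω₁ ω₂ : ℂ, LinearIndependent ℝ ![ω₁, ω₂] → ∀ f : ℂ → ℙ ℂ (Fin (n + 1 + 1) → ℂ),
      Pool.Agent.TH143.EL.HolMap f → (∀ z, f (z + ω₁) = f z) → (∀ z, f (z + ω₂) = f z) →
      (∀ z, eval (f z).rep (cyc d F) = 0) → ∀ z w, f z = f w) ∧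
    (∀ (ι : Type) (u : ι → ℂ → ℂ), JointlyUniversal u → ∀ ω₁ ω₂ : ℂ,
      LinearIndependent ℝ ![ω₁, ω₂] → ∀ f : ℂ → ℙ ℂ (Fin (n + 1 + 1) → ℂ),
      Pool.Agent.TH143.EL.HolMap f →
      (Pool.Agent.Y377.IL.IteratedOver
          (Pool.Agent.X316.ZE.dringB (Pool.Agent.TH143.EL.Ell ω₁ ω₂) u) f ∨
        Pool.Agent.Y377.IL.AlgebraicOver
          (Pool.Agent.X316.ZE.dringB (Pool.Agent.TH143.EL.Ell ω₁ ω₂) u) f) →
      (∀ z, eval (f z).rep (cyc d F) = 0) → ∀ z w, f z = f w) ∧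
    ∀ (L : Type) [Field L] [Algebra ℂ L] [IsFF ℂ L] (z : Fin (n + 1 + 1) → L), z ≠ 0 →
      aeval z (cyc d F) = 0 → (∃ i j, z j ≠ 0 ∧ z i / z j ∉ Set.range (algebraMap ℂ L)) →
      ((d : ℤ) - 1 - 2 * n) * pht ℂ z ≤ canDeg ℂ L := by
  have hd0 : 0 < d := by omega
  have hgen : GenericMembers ℚ (fun _ : Unit => d) Set.univ (fun _ : Unit => F) :=
    generic_full (fun _ => hF) (ind_unit hind)
  have hVh : ∀ f ∈ (∅ : Set (MvPolynomial (Fin (n + 1)) (algebraicClosure ℚ ℂ))),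
      ∃ e, f.IsHomogeneous e := fun f hf => absurd hf (Set.notMem_empty f)
  have hV := Pool.Agent.TH145.GC.dimLE_univ (algebraicClosure ℚ ℂ) n
  have hq : ∀ a, a ∉ (∅ : Finset Unit) → (fun _ : Unit => d) a ≠ 0 ∧
      (fun _ : Unit => d) a ∣ (fun _ : Unit => d) a := fun _ _ => ⟨hd0.ne', dvd_refl _⟩
  have hmap := cyc_map (k := ℚ) hF hd0
  have hΦ : ∀ b : Unit, IsForm ((fun _ : Unit => cyc d F) b) := fun _ => ⟨d, cyc_hom hF⟩
  have hcov := cov_cyc (n := n) hd
  obtain ⟨h1, -, -, h4, h5⟩ := fin_main (Z := Set.univ) hVh hV hgen hq (by rw [hcov]; omega) hΦ hmap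
  have hno : ∀ (K : Type) [Field K] [Algebra ℂ K] (z : Fin (n + 1 + 1) → K), z ≠ 0 →
      aeval z (cyc d F) = 0 → ∃ c, aeval z (prj n () c) ≠ 0 := by
    intro K _ _ z hz0 hz
    obtain ⟨c, hc⟩ := Function.ne_iff.1 (proj_ne hF hd0 hz0 hz)
    exact ⟨c, by rw [prj, aeval_X]; exact hc⟩
  have hnoC : ∀ p : ℙ ℂ (Fin (n + 1 + 1) → ℂ), eval p.rep (cyc d F) = 0 →
      ∃ G ∈ pullForms (prj n) Set.univ, eval p.rep G ≠ 0 := by
    intro p hp
    obtain ⟨c, hc⟩ := hno ℂ p.rep p.rep_nonzero (by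
      rw [Pool.Agent.X332.GT.aeval_eval]
      exact hp)
    rw [Pool.Agent.X332.GT.aeval_eval] at hc
    exact ⟨_, ⟨(), c, Set.mem_univ _, rfl⟩, hc⟩
  refine ⟨fun K _ _ w z hw hz => ?_, ?_, ?_, ?_⟩
  · obtain ⟨c, hc⟩ := hno K z hz.1.1 (hz.1.2 ())
    exact h1 K w z hw hz ⟨_, ⟨(), c, Set.mem_univ _, rfl⟩, hc⟩
  · intro ω₁ ω₂ hω f hf e1 e2 hX z w
    by_contra hne
    obtain ⟨G, hG, hGne⟩ := hnoC (f z) (hX z)
    exact hGne ((inV_span (forms_pull hmap)).1 (h4 ω₁ ω₂ hω f hf e1 e2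
      (fun z => (inV_eqs hΦ).2 fun _ => hX z) ⟨z, w, hne⟩ z) G hG)
  · intro ι u hu ω₁ ω₂ hω f hf hb hX z w
    by_contra hne
    obtain ⟨G, hG, hGne⟩ := hnoC (f z) (hX z)
    exact hGne (h5 ι u hu G hG ω₁ ω₂ hω f hf hb (fun z _ => hX z) ⟨z, w, hne⟩ z)
  · intro L _ _ _ z hz0 hz hnc
    obtain ⟨c, hc⟩ := hno L z hz0 hz
    have h6 := fin_curve hVh hV hgen hq hmap L z hz0 (fun _ => hz) hnc (Set.mem_univ c) hc
    rw [hcov, prj_aeval, pht_cyc hF hd0 hz0 hz, Nat.cast_sub (by omega : 1 ≤ d)] at h6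
    exact_mod_cast h6

end Pool.Agent.X323.GI
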