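import Pool.Agent.X323.GI.Sp
import Pool.Agent.X332.GS.Hyp
import Pool.Agent.X332.GS.GenSp
import Pool.Agent.X332.GS.GrpSp

/-!
Generic complete intersections: sequences of points given by recurrences, and group curves.
-/

set_option autoImplicit false

namespace Pool.Agent.X323.GI

open MvPolynomial FF Pool.Agent.W602.GT Pool.Agent.TH145.MG Pool.Agent.X332.GS
open Pool.Agent.TH145.GC (Cf)
open Pool.Agent.Y741 (SubX LineX GmX AllX)
open Pool.Agent.X332.GT (Zeros Forms)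

section

variable {n : ℕ} {A : Type} {d : A → ℕ} {H : A → MvPolynomial (Fin (n + 1)) ℂ}

theorem tow_fields (hH : ∀ a, IsForm (H a)) : TowersPeriodic H ∅ ↔ FieldsPeriodic H ∅ := by
  rw [← zeros_one]
  exact (tow_iff hH forms_one).trans (fields_iff hH forms_one).symm

variable {k0 : Type} [Field k0] [Algebra k0 ℂ] [Fintype A] [DecidableEq A]

/-- The special sets. -/
theorem dyn_loci (hn : 1 ≤ n) (hd0 : ∀ a, 0 < d a) (hH : ∀ a, (H a).IsHomogeneous (d a))
    (hind : AlgebraicIndependent k0 fun p : Cf n d => (H p.1).coeff p.2.1)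
    (hd : 3 * n + 3 ≤ 2 * ∑ a, d a + Fintype.card A) :
    SpGrp H = SpLine H ∧ SpDyn H = SpLine H ∧ TowersPeriodic H (SpLine H) := by
  obtain ⟨h1, h2⟩ := loci (k0 := k0) hn hd0 hH hind hd
  obtain ⟨h3, h4⟩ := grp_of (forms_of hH) (by rw [h1, h2])
  have h5 := tow_spDyn (forms_of hH)
  rw [h3, h1] at h5
  exact ⟨h4.trans h1, h3.trans h1, h5⟩

/-- The notions of hyperbolicity. -/
theorem dyn_tfae (hn : 1 ≤ n) (hd0 : ∀ a, 0 < d a) (hH : ∀ a, (H a).IsHomogeneous (d a))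
    (hind : AlgebraicIndependent k0 fun p : Cf n d => (H p.1).coeff p.2.1)
    (hdim : Fintype.card A + 5 ≤ n ∨ ∑ a, (d a + 1) ≤ 2 * n - 2 ∨
      3 * n + 3 ≤ 2 * ∑ a, d a + Fintype.card A) :
    List.TFAE [∀ y, ¬ GrpImage H y, TowersPeriodic H ∅, FieldsPeriodic H ∅,
      AllX H, ∀ W, ¬ LineX H W, 2 * n - 1 ≤ ∑ a, (d a + 1)] := by
  have key := Pool.Agent.Y741.m_tfae (k0 := k0) hn hd0 hH hind hdim
  have h34 : (∀ P, ¬ GmX H P) ↔ AllX H := key.out 2 3
  have h45 : AllX H ↔ ∀ W, ¬ LineX H W := key.out 3 4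
  have h56 : (∀ W, ¬ LineX H W) ↔ 2 * n - 1 ≤ ∑ a, (d a + 1) := key.out 4 5
  tfae_have 4 → 2 := fun h => tow_of_all (forms_of hH) fun K _ _ w y hw hy => h K w y hw (subX_of hy)
  tfae_have 2 ↔ 3 := tow_fields (forms_of hH)
  tfae_have 2 → 1 := fun h => no_grp (forms_of hH) h
  tfae_have 1 → 4 := fun h => h34.1 fun P hP => no_gm_of_grp h P (gmX_of hP)
  tfae_have 4 ↔ 5 := h45
  tfae_have 5 ↔ 6 := h56
  tfae_finish

end

end Pool.Agent.X323.GI
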