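import Pool.Agent.W603.PV.Defs

/-!
Orbifold pairs and cyclic covers of projective varieties over function fields: definitions.
-/

set_option autoImplicit false

open MvPolynomial FF Pool.Agent.W603.PV

namespace Pool.Agent.X323.GI

variable {F0 F L α : Type} [Field F0] [Field F] [Field L] [Algebra F0 F] [Algebra F L] {n : ℕ}

/-- The places of `L` at which the point `x` meets one of the hypersurfaces `H a = 0` that do not
contain `x`, with contact order less than `q a` if `q a ≠ 0`. -/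
def LowContact (k : Type) [Field k] [Algebra k L] (H : α → MvPolynomial (Fin (n + 1)) F)
    (d q : α → ℕ) (x : Fin (n + 1) → L) : Set (Place k L) :=
  {P | ∃ a, aeval x (H a) ≠ 0 ∧ d a * pord P x < P.ord (aeval x (H a)) ∧
    (q a = 0 ∨ P.ord (aeval x (H a)) < d a * pord P x + q a)}

open Classical in
/-- The sum of the degrees with weights: the weight of `H a = 0` is `1 - 1 / q a` (or `1`, if
`q a = 0`), and the summand is `d a + 1` if `x` lies on `H a = 0`. -/
noncomputable def orbDegree [Fintype α] (H : α → MvPolynomial (Fin (n + 1)) F) (d q : α → ℕ)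
    (x : Fin (n + 1) → L) : ℚ :=
  ∑ a, if aeval x (H a) = 0 then (d a + 1 : ℚ) else (1 - (q a : ℚ)⁻¹) * d a

/-- The point `(x, y)` lies in `X` and not in `D`: it satisfies the equations of `V`, the equations
`H a = 0` for `a ∈ E`, and `y a ^ q a = H a (x)` for the `a ∉ E` with `q a ≠ 0`, and
`H a (x) ≠ 0` for the `a ∉ E` with `q a = 0`. -/
def OnCover (V : Set (MvPolynomial (Fin (n + 1)) F0)) (H : α → MvPolynomial (Fin (n + 1)) F)
    (E : Finset α) (q : α → ℕ) (x : Fin (n + 1) → L) (y : α → L) : Prop :=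
  (x ≠ 0 ∧ ∀ f ∈ V, aeval x (map (algebraMap F0 F) f) = 0) ∧ (∀ a ∈ E, aeval x (H a) = 0) ∧
    (∀ a, a ∉ E → q a ≠ 0 → y a ^ q a = aeval x (H a)) ∧
      ∀ a, a ∉ E → q a = 0 → aeval x (H a) ≠ 0

/-- The places of `L` at which the point `x` meets `D`, that is, one of the hypersurfaces `H a = 0`,
`a ∉ E`, `q a = 0`. -/
def MeetsD (k : Type) [Field k] [Algebra k L] (H : α → MvPolynomial (Fin (n + 1)) F)
    (d : α → ℕ) (E : Finset α) (q : α → ℕ) (x : Fin (n + 1) → L) : Set (Place k L) :=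
  {P | ∃ a, a ∉ E ∧ q a = 0 ∧ d a * pord P x < P.ord (aeval x (H a))}

/-- The sum of the numbers `d a + 1`, `a ∈ E`, and `(1 - 1 / q a) d a`, `a ∉ E` (where
`1 / 0 = 0`). -/
def covDegree [Fintype α] [DecidableEq α] (d : α → ℕ) (E : Finset α) (q : α → ℕ) : ℕ :=
  ∑ a ∈ E, (d a + 1) + ∑ a ∈ Eᶜ, (d a - d a / q a)

end Pool.Agent.X323.GI
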