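import Pool.Agent.X323.GI.CycDef
import Pool.Agent.X323.GI.OrbDef

/-!
Varieties with finite morphisms to cyclic covers of intersections with generic members of linear
systems: definitions.
-/

set_option autoImplicit false

namespace Pool.Agent.X323.GI

open MvPolynomial Pool.Agent.W602.GT

/-- The tuples of forms `(g s, h s)`, for all `s`, together define a morphism with finite fibres from
the projective variety `W = {Φ = 0}` to the cover `X` of `V ∩ {F a = 0, a ∈ E}` with the equations
`y a ^ q a = F a (x)`, `a ∉ E`: for each point `z` of `W` over a field `K` some `g s` does not vanish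
at `z`, and then `(g s (z), h s (z))` is a point of `X` over whose field of definition `z` is
algebraic. (In terms of the generic points `z` of the closed subvarieties of `W`: none of them is
mapped to a subvariety of smaller dimension.) -/
def FiniteMap {k : Type} [Field k] [Algebra k ℂ] {n N : ℕ} {A B S : Type}
    (Φ : B → MvPolynomial (Fin (N + 1)) ℂ)
    (V : Set (MvPolynomial (Fin (n + 1)) (algebraicClosure k ℂ)))
    (F : A → MvPolynomial (Fin (n + 1)) ℂ) (E : Finset A) (q : A → ℕ)
    (g : S → Fin (n + 1) → MvPolynomial (Fin (N + 1)) ℂ)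
    (h : S → A → MvPolynomial (Fin (N + 1)) ℂ) : Prop :=
  (∀ s, ∃ r, ∀ j, (g s j).IsHomogeneous r) ∧
    ∀ (K : Type) [Field K] [Algebra ℂ K] (z : Fin (N + 1) → K), z ≠ 0 →
      (∀ b, aeval z (Φ b) = 0) →
      (∃ s, (fun j => aeval z (g s j)) ≠ 0) ∧ ∀ s, (fun j => aeval z (g s j)) ≠ 0 →
        OnCover V F E q (fun j => aeval z (g s j)) (fun a => aeval z (h s a)) ∧
        ∀ t ∈ coords ℂ z, IsAlgebraic (coords ℂ fun j => aeval z (g s j)) t

/-- The forms `g s c`, `c ∈ Z`, which define the preimage of `E₀ = {x c = 0, c ∈ Z}`. -/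
def pullForms {n N : ℕ} {S : Type} (g : S → Fin (n + 1) → MvPolynomial (Fin (N + 1)) ℂ)
    (Z : Set (Fin (n + 1))) : Set (MvPolynomial (Fin (N + 1)) ℂ) :=
  {G | ∃ s, ∃ c ∈ Z, G = g s c}

end Pool.Agent.X323.GI
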