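import Pool.Agent.X323.GI.Lin
import Pool.Agent.X323.GI.OrbC
import Pool.Agent.X323.GI.FinDef

/-!
Varieties with finite morphisms to cyclic covers of intersections with generic members of linear
systems: entire curves.
-/

set_option autoImplicit false

namespace Pool.Agent.X323.GI

open Filter MvPolynomial FF Pool.Agent.W603.PV Pool.Agent.W602.GT Pool.Agent.TH145.MG
open scoped LinearAlgebra.Projectivization
open Pool.Agent.Y741 (SubX)
open Pool.Agent.X332.GT (Zeros Forms Dyn)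
open Pool.Agent.X332.GS
open Pool.Agent.TH143.EL (TorusMapsIn)
open Pool.Agent.X316.ZG (JointlyUniversal)

variable {n N : ℕ} {k : Type} [Field k] [Algebra k ℂ] {A B S : Type} [Fintype A] [DecidableEq A]
  {d q : A → ℕ} {F : A → MvPolynomial (Fin (n + 1)) ℂ} {m : ℕ}
  {V : Set (MvPolynomial (Fin (n + 1)) (algebraicClosure k ℂ))} {Z : Set (Fin (n + 1))}
  {E : Finset A} {Φ : B → MvPolynomial (Fin (N + 1)) ℂ}
  {g : S → Fin (n + 1) → MvPolynomial (Fin (N + 1)) ℂ} {h : S → A → MvPolynomial (Fin (N + 1)) ℂ}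

/-- transitivity of algebraic extensions -/
theorem alg_trans {K : Type} [Field K] [Algebra ℂ K] {M M' : IntermediateField ℂ K}
    (h : ∀ t ∈ M', IsAlgebraic M t) {z : K} (hz : IsAlgebraic M' z) : IsAlgebraic M z := by
  obtain ⟨p, hp0, hp⟩ := hz
  have hmem : ∀ t : M', (algebraMap M' K) t ∈ algebraicClosure M K := fun t =>
    mem_algebraicClosure_iff.2 (h t.1 t.2)
  let φ : M' →+* algebraicClosure M K := (algebraMap M' K).codRestrict (algebraicClosure M K) hmem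
  have h1 : IsAlgebraic (algebraicClosure M K) z := by
    refine ⟨p.map φ, (Polynomial.map_ne_zero_iff φ.injective).2 hp0, ?_⟩
    rw [Polynomial.aeval_def, Polynomial.eval₂_map]
    exact hp
  exact h1.restrictScalars M

/-- general type -/
theorem fin_gt (hVh : ∀ f ∈ V, ∃ e, f.IsHomogeneous e)
    (hV : DimLE (algebraicClosure k ℂ) V m) (hF : GenericMembers k d Z F)
    (hq : ∀ a, a ∉ E → q a ≠ 0 ∧ q a ∣ d a)
    (hmap : FiniteMap Φ V F E q g h) (K : Type) [Field K] [Algebra ℂ K] (w : ℕ)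
    (hd : 2 * m + 2 ≤ covDegree d E q + w)
    (z : Fin (N + 1) → K) (hw : 0 < w) (hz : SubX Φ w z) {s : S} {c : Fin (n + 1)}
    (hc : c ∈ Z) (hzc : aeval z (g s c) ≠ 0) : GeneralType ℂ K w := by
  obtain ⟨J, _, P, t, l0, hP, hZ, h0, hgen, hFt⟩ := hF
  have hac : IsAlgClosed (algebraicClosure k ℂ) := (algebraicClosure.isAlgClosure k ℂ).isAlgClosed
  have hind : AlgebraicIndependent (algebraicClosure k ℂ)
      fun p : (a : A) × {j : J a // j ≠ l0 a} => t p.1 p.2.1 / t p.1 (l0 p.1) :=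
    hgen.algebraicClosure
  obtain ⟨⟨hz0, hzΦ⟩, htr, halg⟩ := hz
  have hne : (fun j => aeval z (g s j)) ≠ 0 := fun h => hzc (congrFun h c)
  obtain ⟨⟨⟨-, hxV⟩, hE, hy, -⟩, halg2⟩ := (hmap.2 K z hz0 hzΦ).2 s hne
  have h1 := log_cyc (k0 := algebraicClosure k ℂ) (K := ℂ) (L := K) E
    (fun a ha _ => (hq a ha).2) hd V hVh hV P hP Z (fun c hc => stars (hZ c hc)) t l0 h0 hind hFt
    hw htr (fun j => aeval z (g s j)) (fun a => aeval z (h s a)) ⟨c, hc, hzc⟩
    ⟨fun x => alg_trans halg2 (halg.isAlgebraic x)⟩ hxV hE hy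
    (fun a ha h => absurd h (hq a ha).1)
  refine general_of_log ?_
  have h2 : (fun Q : Place ℂ K => ∃ a, a ∉ E ∧ q a = 0 ∧
      d a * pord Q (fun j => aeval z (g s j)) < Q.ord (aeval (fun j => aeval z (g s j)) (F a))) =
      fun _ => False := by
    funext Q
    refine eq_false ?_
    rintro ⟨a, ha, hqa, -⟩
    exact (hq a ha).1 hqa
  rwa [h2] at h1

omit [Fintype A] [DecidableEq A] in
theorem forms_pull (hmap : FiniteMap Φ V F E q g h) : Forms (pullForms g Z) := by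
  rintro _ ⟨s, c, -, rfl⟩
  obtain ⟨r, hr⟩ := hmap.1 s
  exact ⟨r, hr c⟩

/-- **Curves in varieties with finite morphisms to cyclic covers.** -/
theorem fin_main (hVh : ∀ f ∈ V, ∃ e, f.IsHomogeneous e)
    (hV : DimLE (algebraicClosure k ℂ) V m) (hF : GenericMembers k d Z F)
    (hq : ∀ a, a ∉ E → q a ≠ 0 ∧ q a ∣ d a) (hd : 2 * m + 1 ≤ covDegree d E q)
    (hΦ : ∀ b, IsForm (Φ b)) (hmap : FiniteMap Φ V F E q g h) :
    (∀ (K : Type) [Field K] [Algebra ℂ K] (w : ℕ) (z : Fin (N + 1) → K), 0 < w →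
      SubX Φ w z → (∃ G ∈ pullForms g Z, aeval z G ≠ 0) → GeneralType ℂ K w) ∧
    TowersPeriodic Φ (Zeros ℂ (pullForms g Z)) ∧
    (∀ y, GrpImage Φ y → ∀ z, y z ∈ Zeros ℂ (pullForms g Z)) ∧
    TorusMapsIn (eqs Φ) (Ideal.span (pullForms g Z)) ∧
    ∀ (ι : Type) (u : ι → ℂ → ℂ), JointlyUniversal u → ∀ G ∈ pullForms g Z, BuiltG u Φ G := by
  have hS : Forms (pullForms g Z) := forms_pull hmap
  have hgt : ∀ (K : Type) [Field K] [Algebra ℂ K] (w : ℕ) (z : Fin (N + 1) → K), 0 < w →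
      SubX Φ w z → (∃ G ∈ pullForms g Z, aeval z G ≠ 0) → GeneralType ℂ K w := by
    rintro K _ _ w z hw hz ⟨_, ⟨s, c, hc, rfl⟩, hne⟩
    exact fin_gt hVh hV hF hq hmap K w (by omega) z hw hz hc hne
  have hT : ∀ G ∈ pullForms g Z, TorusMapsIn (eqs Φ) (Ideal.span {G}) := fun G hG =>
    Pool.Agent.X316.ZE.torus_of_allGT (allGT_of hΦ fun K _ _ w y hw hy hne =>
      hgt K w y hw hy ⟨G, hG, hne⟩)
  have hDyn : Dyn (Set.range Φ) (pullForms g Z) := by
    refine Pool.Agent.X332.GT.fldPer_of_allGT ?_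
    intro K _ _ w y hw hdim hy hgen hyX hyZ
    have h2 := (Pool.Agent.X332.GT.isPtP_span (forms_range hΦ)).1 hyX
    have h3 : ∃ G ∈ pullForms g Z, aeval y G ≠ 0 := by
      by_contra hcon
      push Not at hcon
      exact hyZ ((Pool.Agent.X332.GT.isPtP_span hS).2 fun G hG => hcon G hG)
    exact hgt K w y hw (subX_of ⟨hy, fun e => h2 _ ⟨e, rfl⟩, hgen, hdim⟩) h3
  exact ⟨hgt, (tow_iff hΦ hS).2 hDyn, fun y hy z => grp_of_dyn hΦ hS hDyn hy z,
    (torus_span hS).2 hT, fun ι u hu G hG => built_of hΦ (hS G hG) (hT G hG) hu⟩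

end Pool.Agent.X323.GI
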