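import Pool.Agent.X323.GI.Fin
import Pool.Agent.X323.GI.CurC

/-!
Varieties with finite morphisms to cyclic covers of intersections with generic members of linear
systems: maps from curves.
-/

set_option autoImplicit false

namespace Pool.Agent.X323.GI

open Filter MvPolynomial FF Pool.Agent.W603.PV Pool.Agent.W602.GT Pool.Agent.TH145.MG
open Pool.Agent.W603.LV

variable {n N : ℕ} {k : Type} [Field k] [Algebra k ℂ] {A B S : Type} [Fintype A] [DecidableEq A]
  {d q : A → ℕ} {F : A → MvPolynomial (Fin (n + 1)) ℂ} {m : ℕ}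
  {V : Set (MvPolynomial (Fin (n + 1)) (algebraicClosure k ℂ))} {Z : Set (Fin (n + 1))}
  {E : Finset A} {Φ : B → MvPolynomial (Fin (N + 1)) ℂ}
  {g : S → Fin (n + 1) → MvPolynomial (Fin (N + 1)) ℂ} {h : S → A → MvPolynomial (Fin (N + 1)) ℂ}

/-- an algebraic element over the field of the ratios of a constant point is constant -/
theorem const_of_ratios {L : Type} [Field L] [Algebra ℂ L] {x : Fin (n + 1) → L}
    (hx : ∀ i j, x j ≠ 0 → x i / x j ∈ Set.range (algebraMap ℂ L)) {t : L}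
    (ht : IsAlgebraic (coords ℂ x) t) : t ∈ Set.range (algebraMap ℂ L) := by
  have h1 : coords ℂ x ≤ ⊥ := by
    unfold coords
    rw [IntermediateField.adjoin_le_iff]
    rintro _ ⟨i, j, hj, rfl⟩
    exact IntermediateField.mem_bot.2 (hx i j hj)
  have h2 : IsAlgebraic (⊥ : IntermediateField ℂ L) t := alg_trans (fun u hu => by
    exact isAlgebraic_algebraMap (⟨u, h1 hu⟩ : (⊥ : IntermediateField ℂ L))) ht
  have h3 : IsAlgebraic ℂ t := by
    have : Algebra.IsAlgebraic ℂ (⊥ : IntermediateField ℂ L) :=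
      ⟨fun u => by
        obtain ⟨c, hc⟩ := IntermediateField.mem_bot.1 u.2
        have h4 : u = algebraMap ℂ (⊥ : IntermediateField ℂ L) c := Subtype.ext hc.symm
        rw [h4]
        exact isAlgebraic_algebraMap c⟩
    exact h2.restrictScalars ℂ
  exact minpoly.mem_range_of_degree_eq_one ℂ t
    (IsAlgClosed.degree_eq_one_of_irreducible ℂ (minpoly.irreducible h3.isIntegral))

/-- Maps from curves. -/
theorem fin_curve (hVh : ∀ f ∈ V, ∃ e, f.IsHomogeneous e)
    (hV : DimLE (algebraicClosure k ℂ) V m) (hF : GenericMembers k d Z F)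
    (hq : ∀ a, a ∉ E → q a ≠ 0 ∧ q a ∣ d a)
    (hmap : FiniteMap Φ V F E q g h) (L : Type) [Field L] [Algebra ℂ L] [IsFF ℂ L]
    (z : Fin (N + 1) → L) (hz0 : z ≠ 0) (hzΦ : ∀ b, aeval z (Φ b) = 0)
    (hnc : ∃ i j, z j ≠ 0 ∧ z i / z j ∉ Set.range (algebraMap ℂ L)) {s : S} {c : Fin (n + 1)}
    (hc : c ∈ Z) (hzc : aeval z (g s c) ≠ 0) :
    ((covDegree d E q : ℤ) - 2 * m) * pht ℂ (fun j => aeval z (g s j)) ≤ canDeg ℂ L := by
  obtain ⟨J, _, P, t, l0, hP, hZ, h0, hgen, hFt⟩ := hF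
  have hac : IsAlgClosed (algebraicClosure k ℂ) := (algebraicClosure.isAlgClosure k ℂ).isAlgClosed
  have hind : AlgebraicIndependent (algebraicClosure k ℂ)
      fun p : (a : A) × {j : J a // j ≠ l0 a} => t p.1 p.2.1 / t p.1 (l0 p.1) :=
    hgen.algebraicClosure
  have hne : (fun j => aeval z (g s j)) ≠ 0 := fun h => hzc (congrFun h c)
  obtain ⟨⟨⟨-, hxV⟩, hE, hy, -⟩, halg2⟩ := (hmap.2 L z hz0 hzΦ).2 s hne
  refine curve_cyc (k0 := algebraicClosure k ℂ) V hVh hV P hP t l0 h0 hind c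
    (stars (hZ c hc)) hFt E q hq (fun j => aeval z (g s j)) (fun a => aeval z (h s a)) hzc ?_ hxV
    hE (fun a ha => hy a ha (hq a ha).1)
  by_contra hcon
  push Not at hcon
  obtain ⟨i, j, hj, hij⟩ := hnc
  exact hij (const_of_ratios hcon (halg2 _ (IntermediateField.subset_adjoin _ _ ⟨i, j, hj, rfl⟩)))

end Pool.Agent.X323.GI
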