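import Pool.Agent.X323.GI.FinC
import Pool.Agent.TH875.Vg.KapD

/-!
Canonical degrees of curves on varieties with finite morphisms to cyclic covers.
-/

set_option autoImplicit false

namespace Pool.Agent.X323.GI

open MvPolynomial FF Pool.Agent.W603.PV Pool.Agent.W602.GT Pool.Agent.TH145.MG
open Pool.Agent.W603.LV

variable {n N : ℕ}

/-- a point of positive height is not constant -/
theorem nonconst_of_pos {L : Type} [Field L] [Algebra ℂ L] [IsFF ℂ L] {x : Fin (n + 1) → L}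
    (hx : x ≠ 0) (h : 0 < pht ℂ x) :
    ∃ i j, x j ≠ 0 ∧ x i / x j ∉ Set.range (algebraMap ℂ L) := by
  by_contra hcon
  push Not at hcon
  obtain ⟨l, hl⟩ := Function.ne_iff.1 hx
  have h1 := pht_le (k := ℂ) x hl
  have h2 : ∑ j, hgt ℂ (x j / x l) = 0 := Finset.sum_eq_zero fun j _ => by
    obtain ⟨c, hc⟩ := hcon j l hl
    rw [← hc]
    exact hgt_algebraic (isAlgebraic_algebraMap c)
  omega

/-- Nullstellensatz: a polynomial that vanishes on `W ∖ {0}` vanishes at all points over fields. -/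
theorem zero_of_zero {J : Ideal (MvPolynomial (Fin (N + 1)) ℂ)}
    {G : MvPolynomial (Fin (N + 1)) ℂ}
    (h : ∀ p : Fin (N + 1) → ℂ, p ≠ 0 → (∀ f ∈ J, eval p f = 0) → eval p G = 0) {K : Type}
    [Field K] [Algebra ℂ K] {z : Fin (N + 1) → K} (hz0 : z ≠ 0)
    (hz : ∀ f ∈ J, aeval z f = 0) : aeval z G = 0 := by
  obtain ⟨j, hj⟩ := Function.ne_iff.1 hz0
  have h1 : G * X j ∈ J.radical := by
    rw [← vanishingIdeal_zeroLocus_eq_radical (k := ℂ) (K := ℂ), mem_vanishingIdeal_iff]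
    intro a ha
    rw [mem_zeroLocus_iff] at ha
    rw [map_mul, aeval_X]
    by_cases h0 : a = 0
    · rw [h0, Pi.zero_apply, mul_zero]
    · have h2 := h a h0 fun f hf => by
        have := ha f hf
        rwa [aeval_eq_eval] at this
      rw [aeval_eq_eval, h2, zero_mul]
  obtain ⟨M, hM⟩ := h1
  have h2 := hz _ hM
  rw [map_pow, map_mul, aeval_X] at h2
  exact (mul_eq_zero.1 (eq_zero_of_pow_eq_zero h2)).resolve_right hj

/-- Nullstellensatz -/
theorem radical_of_free {J : Ideal (MvPolynomial (Fin (N + 1)) ℂ)}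
    {p : Fin (n + 1) → MvPolynomial (Fin (N + 1)) ℂ}
    (hfree : ∀ a : Fin (N + 1) → ℂ, a ≠ 0 → (∀ f ∈ J, eval a f = 0) →
      (fun j => eval a (p j)) ≠ 0) (j : Fin (N + 1)) :
    X j ∈ (J ⊔ Ideal.span (Set.range p)).radical := by
  rw [← vanishingIdeal_zeroLocus_eq_radical (k := ℂ) (K := ℂ), mem_vanishingIdeal_iff]
  intro a ha
  rw [mem_zeroLocus_iff] at ha
  by_contra hcon
  rw [aeval_X] at hcon
  refine hfree a (fun h => hcon (by rw [h]; rfl)) (fun f hf => by
    have := ha f (Ideal.mem_sup_left hf)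
    rwa [aeval_eq_eval] at this) (funext fun j => by
    have := ha (p j) (Ideal.mem_sup_right (Ideal.subset_span ⟨j, rfl⟩))
    rwa [aeval_eq_eval] at this)

/-- The forms `g j` of degree `r` and `h a` define a morphism from the projective variety
`W = {J = 0}` to the cover `X` of `V ∩ {F a = 0, a ∈ E}` with the equations `y a ^ q a = F a (x)`,
`a ∉ E`: for each complex point `p` of `W`, `(g (p), h (p))` is a point of `X` (in particular,
`g (p)` is not zero). The pull-back of `O(1)` is `O(r)`, and the fibres are finite if `r ≥ 1`. -/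
def FormMap {k : Type} [Field k] [Algebra k ℂ] {A : Type}
    (J : Ideal (MvPolynomial (Fin (N + 1)) ℂ))
    (V : Set (MvPolynomial (Fin (n + 1)) (algebraicClosure k ℂ)))
    (F : A → MvPolynomial (Fin (n + 1)) ℂ) (E : Finset A) (q : A → ℕ) (r : ℕ)
    (g : Fin (n + 1) → MvPolynomial (Fin (N + 1)) ℂ)
    (h : A → MvPolynomial (Fin (N + 1)) ℂ) : Prop :=
  (∀ j, (g j).IsHomogeneous r) ∧ ∀ p : Fin (N + 1) → ℂ, p ≠ 0 → (∀ f ∈ J, eval p f = 0) →
    OnCover V F E q (fun j => eval p (g j)) (fun a => eval p (h a))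

/-- `u` is a basis of the tangent space at the point `z` of the cone over `W = {J = 0}`, a space of
dimension `w + 1`. -/
def TangentBasis {L : Type} [Field L] [Algebra ℂ L] {w : ℕ}
    (J : Ideal (MvPolynomial (Fin (N + 1)) ℂ)) (z : Fin (N + 1) → L)
    (u : Fin (w + 1) → Fin (N + 1) → L) : Prop :=
  LinearIndependent L u ∧ ∀ v, v ∈ Submodule.span L (Set.range u) ↔
    ∀ f ∈ J, ∑ j, aeval z (pderiv j f) * v j = 0

/-- The canonical degree `K_W · C` of the curve `C → W` with function field `L` that is given by the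
point `z`, with the basis `u` of the tangent space of the cone at `z` (if `W` is smooth of dimension
`w` along the curve): the height of this space (of its Plücker coordinates), minus `w + 1` times the
height of `z`. -/
noncomputable def canonicalHeight {L : Type} [Field L] [Algebra ℂ L] {w : ℕ}
    (z : Fin (N + 1) → L) (u : Fin (w + 1) → Fin (N + 1) → L) : ℤ :=
  Pool.Agent.TH875.Vg.ght ℂ (Pool.Agent.TH875.Vg.mins u) - (w + 1) * pht ℂ z

variable {k : Type} [Field k] [Algebra k ℂ] {A : Type} [Fintype A] [DecidableEq A]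
  {d q : A → ℕ} {F : A → MvPolynomial (Fin (n + 1)) ℂ} {m : ℕ}
  {V : Set (MvPolynomial (Fin (n + 1)) (algebraicClosure k ℂ))} {Z : Set (Fin (n + 1))}
  {E : Finset A} {J : Ideal (MvPolynomial (Fin (N + 1)) ℂ)}
  {g : Fin (n + 1) → MvPolynomial (Fin (N + 1)) ℂ} {h : A → MvPolynomial (Fin (N + 1)) ℂ}

theorem form_curve (hVh : ∀ f ∈ V, ∃ e, f.IsHomogeneous e)
    (hV : DimLE (algebraicClosure k ℂ) V m) (hF : GenericMembers k d Z F)
    (hq : ∀ a, a ∉ E → q a ≠ 0 ∧ q a ∣ d a) {r : ℕ} (hr : 0 < r)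
    (hJ : ∀ f ∈ J, ∀ M, homogeneousComponent M f ∈ J)
    (hmap : FormMap J V F E q r g h) (L : Type) [Field L] [Algebra ℂ L] [IsFF ℂ L]
    (z : Fin (N + 1) → L) (hz0 : z ≠ 0) (hzJ : ∀ f ∈ J, aeval z f = 0)
    (hnc : ∃ i j, z j ≠ 0 ∧ z i / z j ∉ Set.range (algebraMap ℂ L)) :
    (fun j => aeval z (g j)) ≠ 0 ∧ 0 < pht ℂ z ∧ ∀ c ∈ Z, aeval z (g c) ≠ 0 →
    ((covDegree d E q : ℤ) - 2 * m) * (r * pht ℂ z) ≤ canDeg ℂ L := by
  have hz : ∃ j, z j ≠ 0 := Function.ne_iff.1 hz0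
  obtain ⟨⟨j0, hj0⟩, hht⟩ := Pool.Agent.TH875.Vg.pht_map hJ hz hzJ hmap.1
    (radical_of_free fun a ha0 ha => (hmap.2 a ha0 ha).1.1)
  have hpos : 0 < pht ℂ z := by
    obtain ⟨a, b, hb, hab⟩ := hnc
    have htr : Transcendental ℂ (z a / z b) := fun halg =>
      hab (minpoly.mem_range_of_degree_eq_one ℂ _
        (IsAlgClosed.degree_eq_one_of_irreducible ℂ (minpoly.irreducible halg.isIntegral)))
    have ha : z a ≠ 0 := fun h => hab (by rw [h, zero_div]; exact ⟨0, map_zero _⟩)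
    exact (Pool.Agent.TH875.Vg.hgt_pos_of_tr htr).trans_le
      (Pool.Agent.W603.CX.hgt_le_pht z ha hb)
  have hne : (fun j => aeval z (g j)) ≠ 0 := fun h => hj0 (congrFun h j0)
  refine ⟨hne, hpos, fun c hc hzc => ?_⟩
  obtain ⟨J', _, P, t, l0, hP, hZ, h0, hgen, hFt⟩ := hF
  have hac : IsAlgClosed (algebraicClosure k ℂ) := (algebraicClosure.isAlgClosure k ℂ).isAlgClosed
  have hind : AlgebraicIndependent (algebraicClosure k ℂ)
      fun p : (a : A) × {j : J' a // j ≠ l0 a} => t p.1 p.2.1 / t p.1 (l0 p.1) :=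
    hgen.algebraicClosure
  have hpull : ∀ G : MvPolynomial (Fin (n + 1)) ℂ,
      aeval z (bind₁ g G) = aeval (fun j => aeval z (g j)) G := fun G => aeval_bind₁ _ _ _
  have hpull0 : ∀ (p : Fin (N + 1) → ℂ) (G : MvPolynomial (Fin (n + 1)) ℂ),
      eval p (bind₁ g G) = aeval (fun j => eval p (g j)) G := fun p G => by
    rw [← Pool.Agent.X332.GT.aeval_eval, aeval_bind₁]
    simp only [Pool.Agent.X332.GT.aeval_eval]
  rw [← hht]
  refine curve_cyc (k0 := algebraicClosure k ℂ) V hVh hV P hP t l0 h0 hind c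
    (stars (hZ c hc)) hFt E q hq (fun j => aeval z (g j)) (fun a => aeval z (h a)) hzc ?_ ?_ ?_ ?_
  · refine nonconst_of_pos hne ?_
    rw [hht]
    exact mul_pos (by exact_mod_cast hr) hpos
  · intro f hf
    rw [← hpull]
    exact zero_of_zero (fun p hp0 hp => by
      rw [hpull0]
      exact (hmap.2 p hp0 hp).1.2 f hf) hz0 hzJ
  · intro a ha
    rw [← hpull]
    exact zero_of_zero (fun p hp0 hp => by
      rw [hpull0]
      exact (hmap.2 p hp0 hp).2.1 a ha) hz0 hzJ
  · intro a ha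
    have h1 : aeval z (h a ^ q a - bind₁ g (F a)) = 0 :=
      zero_of_zero (fun p hp0 hp => by
        rw [map_sub, map_pow, hpull0, sub_eq_zero]
        exact (hmap.2 p hp0 hp).2.2.1 a ha (hq a ha).1) hz0 hzJ
    rw [map_sub, map_pow, hpull, sub_eq_zero] at h1
    exact h1

/-- Bounded canonical degrees. -/
theorem can_bound (hJ : ∀ f ∈ J, ∀ M, homogeneousComponent M f ∈ J) (w : ℕ) :
    ∃ B : ℕ, ∀ (L : Type) [Field L] [Algebra ℂ L] [IsFF ℂ L] (z : Fin (N + 1) → L), z ≠ 0 →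
      (∀ f ∈ J, aeval z f = 0) → ∀ u : Fin (w + 1) → Fin (N + 1) → L, TangentBasis J z u →
      canonicalHeight z u ≤ B * pht ℂ z := by
  obtain ⟨κ, hκ⟩ := Pool.Agent.TH875.Vg.exists_kappa hJ w
  refine ⟨κ, fun L _ _ _ z hz0 hzJ u hu => ?_⟩
  have h1 := hκ L z (Function.ne_iff.1 hz0) hzJ u hu.1 hu.2
  have h2 : (0 : ℤ) ≤ pht ℂ z := Pool.Agent.Y741.pht_nonneg hz0
  have h3 : (0 : ℤ) ≤ (w + 1) * pht ℂ z := by positivity
  unfold canonicalHeight
  linarith

end Pool.Agent.X323.GI
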