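import Pool.Agent.X323.GI.Kan
import Pool.Agent.TH875.Vg.GfG

/-!
Canonical degrees of curves on cyclic covers branched over generic members of linear systems.
-/

set_option autoImplicit false

namespace Pool.Agent.X323.GI

open MvPolynomial FF Pool.Agent.W603.PV Pool.Agent.W602.GT Pool.Agent.TH145.MG
open Pool.Agent.W603.LV
open Pool.Agent.TH875.Vg (ght gmins)

/-- `u` is a basis of the tangent space at the point `z` of the cone over the projective scheme
defined by the homogeneous ideal `J`, a space of dimension `w + 1`. -/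
def IsTangent {ι : Type} [Fintype ι] {L : Type} [Field L] [Algebra ℂ L] {w : ℕ}
    (J : Ideal (MvPolynomial ι ℂ)) (z : ι → L) (u : Fin (w + 1) → ι → L) : Prop :=
  LinearIndependent L u ∧ ∀ v, v ∈ Submodule.span L (Set.range u) ↔
    ∀ f ∈ J, ∑ j, aeval z (pderiv j f) * v j = 0

/-- The canonical degree of the curve with function field `L` given by the point `z` of the scheme
`S = {J = 0}`, with the basis `u` of the tangent space of the cone at `z`: the height of this space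
(of its Plücker coordinates), minus `w + 1` times the height of `z`. If `S` is smooth of dimension
`w` along the curve, this is `K_S · C`. -/
noncomputable def canHeight {ι : Type} {L : Type} [Field L] [Algebra ℂ L] {w : ℕ}
    (z : ι → L) (u : Fin (w + 1) → ι → L) : ℤ :=
  ght ℂ (gmins u) - (w + 1) * ght ℂ z

/-- `(κ - w - 1) H - K_V` has degree `≥ 0` on every curve on the scheme `V = {I = 0}` (if `V` is
smooth of dimension `w` along the curve), where `H` is a hyperplane section. -/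
def CanBound {n : ℕ} (I : Ideal (MvPolynomial (Fin (n + 1)) ℂ)) (w κ : ℕ) : Prop :=
  ∀ (L : Type) [Field L] [Algebra ℂ L] [IsFF ℂ L] (x : Fin (n + 1) → L), x ≠ 0 →
    (∀ f ∈ I, aeval x f = 0) → ∀ u : Fin (w + 1) → Fin (n + 1) → L, IsTangent I x u →
      canHeight x u ≤ ((κ : ℤ) - w - 1) * ght ℂ x

/-- The ideal over `ℂ` of the closed set given by the forms in `V` over a subfield. -/
noncomputable def overC {k : Type} [Field k] [Algebra k ℂ] {n : ℕ}
    (V : Set (MvPolynomial (Fin (n + 1)) (algebraicClosure k ℂ))) :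
    Ideal (MvPolynomial (Fin (n + 1)) ℂ) :=
  Ideal.span (map (algebraMap (algebraicClosure k ℂ) ℂ) '' V)

/-- The homogeneous ideal of the Kummer covering `y i ^ d i = F i (x)`, a subscheme of `ℙ^(n + q)`
with the coordinates `x 0, …, x n, y 0, …, y (q - 1)`, of the scheme `{I = 0}`. -/
noncomputable def coverIdeal {n q : ℕ} (I : Ideal (MvPolynomial (Fin (n + 1)) ℂ))
    (d : Fin q → ℕ) (F : Fin q → MvPolynomial (Fin (n + 1)) ℂ) :
    Ideal (MvPolynomial (Fin (n + 1) ⊕ Fin q) ℂ) :=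
  Ideal.span ({G | ∃ f ∈ I, G = rename Sum.inl f} ∪
    Set.range fun i => X (Sum.inr i) ^ d i - rename Sum.inl (F i))

variable {n m q : ℕ} {k : Type} [Field k] [Algebra k ℂ] {d e : Fin q → ℕ}
  {F : Fin q → MvPolynomial (Fin (n + 1)) ℂ}
  {V : Set (MvPolynomial (Fin (n + 1)) (algebraicClosure k ℂ))} {Z : Set (Fin (n + 1))}

theorem overC_homog (hVh : ∀ f ∈ V, ∃ e, f.IsHomogeneous e) :
    ∀ f ∈ overC V, ∀ N, homogeneousComponent N f ∈ overC V := by
  let _ : GradedAlgebra (homogeneousSubmodule (Fin (n + 1)) ℂ) := MvPolynomial.gradedAlgebra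
  refine Pool.Agent.TH875.Vg.homg_iff.2 (Ideal.homogeneous_span _ _ ?_)
  rintro _ ⟨f, hf, rfl⟩
  obtain ⟨e, he⟩ := hVh f hf
  exact ⟨e, he.map _⟩

theorem exists_canBound (hVh : ∀ f ∈ V, ∃ e, f.IsHomogeneous e) (w : ℕ) :
    ∃ κ : ℕ, w + 1 ≤ κ ∧ CanBound (overC V) w κ := by
  obtain ⟨κ, hκ⟩ := Pool.Agent.TH875.Vg.exists_kappa (overC_homog hVh) w
  refine ⟨κ + w + 1, by omega, fun L _ _ _ x hx0 hxI u hu => ?_⟩
  have h1 := hκ L x (Function.ne_iff.1 hx0) hxI u hu.1 hu.2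
  have h2 : (0 : ℤ) ≤ pht ℂ x := Pool.Agent.Y741.pht_nonneg hx0
  have h3 : ght ℂ (gmins u) - (w + 1) * ght ℂ x ≤ κ * ght ℂ x := by
    have h4 : ght ℂ (gmins u) ≤ κ * pht ℂ x := h1
    have h5 : ght ℂ x = pht ℂ x := rfl
    rw [h5]
    have h6 : (0 : ℤ) ≤ (w + 1) * pht ℂ x := by positivity
    linarith
  unfold canHeight
  push_cast
  linarith [h3]

theorem kan_x (hVh : ∀ f ∈ V, ∃ e, f.IsHomogeneous e)
    (hV : DimLE (algebraicClosure k ℂ) V m) (hF : GenericMembers k d Z F)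
    (he : ∀ a, e a ≠ 0 ∧ e a ∣ d a) (L : Type) [Field L] [Algebra ℂ L] [IsFF ℂ L]
    (x : Fin (n + 1) → L) (y : Fin q → L)
    (hnc : ∃ i j, x j ≠ 0 ∧ x i / x j ∉ Set.range (algebraMap ℂ L))
    (hxV : ∀ f ∈ overC V, aeval x f = 0) (hxy : ∀ a, y a ^ e a = aeval x (F a))
    {c : Fin (n + 1)} (hc : c ∈ Z) (hxc : x c ≠ 0) :
    ((covDegree d ∅ e : ℤ) - 2 * m) * ght ℂ x ≤ canDeg ℂ L := by
  obtain ⟨J', _, P, t, l0, hP, hZ, h0, hgen, hFt⟩ := hF
  have hac : IsAlgClosed (algebraicClosure k ℂ) := (algebraicClosure.isAlgClosure k ℂ).isAlgClosed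
  have hind : AlgebraicIndependent (algebraicClosure k ℂ)
      fun p : (a : Fin q) × {j : J' a // j ≠ l0 a} => t p.1 p.2.1 / t p.1 (l0 p.1) :=
    hgen.algebraicClosure
  exact curve_cyc (k0 := algebraicClosure k ℂ) V hVh hV P hP t l0 h0 hind c
    (stars (hZ c hc)) hFt ∅ e (fun a _ => he a) x y hxc hnc
    (fun f hf => hxV _ (Ideal.subset_span ⟨f, hf, rfl⟩)) (fun a ha => by simp at ha)
    fun a _ => hxy a

/-- Kummer coverings. -/
theorem kan_cover (hVh : ∀ f ∈ V, ∃ e, f.IsHomogeneous e)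
    (hV : DimLE (algebraicClosure k ℂ) V m) (hF : GenericMembers k d Z F)
    (hd : ∀ a, d a ≠ 0) (hδ : 2 * m + 1 ≤ covDegree d ∅ d) {w κ : ℕ} (hκ : w + 1 ≤ κ)
    (hcan : CanBound (overC V) w κ) (L : Type) [Field L] [Algebra ℂ L] [IsFF ℂ L]
    (z : Fin (n + 1) ⊕ Fin q → L)
    (hnc : ∃ i j, z j ≠ 0 ∧ z i / z j ∉ Set.range (algebraMap ℂ L))
    (hz : ∀ G ∈ coverIdeal (overC V) d F, aeval z G = 0) (hy0 : ∀ i, z (Sum.inr i) ≠ 0)
    {c : Fin (n + 1)} (hc : c ∈ Z) (hzc : z (Sum.inl c) ≠ 0)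
    {v : Fin (w + 1) → Fin (n + 1) ⊕ Fin q → L} (hv : IsTangent (coverIdeal (overC V) d F) z v) :
    ((covDegree d ∅ d : ℤ) - 2 * m) * canHeight z v ≤
      (κ - w - 1 + covDegree d ∅ d) * canDeg ℂ L := by
  have hnc' : ∃ a b, z b ≠ 0 ∧ Transcendental ℂ (z a / z b) := by
    obtain ⟨a, b, hb, hab⟩ := hnc
    exact ⟨a, b, hb, fun halg =>
      hab (minpoly.mem_range_of_degree_eq_one ℂ _
        (IsAlgClosed.degree_eq_one_of_irreducible ℂ (minpoly.irreducible halg.isIntegral)))⟩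
  have hFh := homog_of hF
  have hδ' : (0 : ℤ) < (covDegree d ∅ d : ℤ) - 2 * m := by
    have : ((2 * m + 1 : ℕ) : ℤ) ≤ covDegree d ∅ d := by exact_mod_cast hδ
    push_cast at this
    linarith
  have hδq : (0 : ℚ) < (covDegree d ∅ d : ℚ) - 2 * m := by exact_mod_cast hδ'
  have hsum : (∑ i, (d i : ℚ) * (1 - 1 / d i)) = (covDegree d ∅ d : ℚ) := by
    unfold covDegree
    rw [Finset.sum_empty, zero_add, Finset.compl_empty]
    push_cast
    refine Finset.sum_congr rfl fun i _ => ?_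
    have h1 : (d i : ℚ) ≠ 0 := by exact_mod_cast hd i
    rw [Nat.div_self (Nat.pos_of_ne_zero (hd i)), Nat.cast_sub (Nat.pos_of_ne_zero (hd i))]
    field_simp
    push_cast
    ring
  have hk := Pool.Agent.TH875.Vg.kIdeal_final (I := overC V) (e := d) (g := F) (z := z)
    (B := ((κ : ℚ) - w - 1 + covDegree d ∅ d) / ((covDegree d ∅ d : ℚ) - 2 * m) * canDeg ℂ L)
    hz (fun i => Nat.pos_of_ne_zero (hd i)) hFh hnc' hy0 hv.1 hv.2 (by
      intro hx hxI _ u hu huT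
      rw [hsum]
      obtain ⟨a, b, hb, hab⟩ := hx
      have h1 := kan_x hVh hV hF (e := d) (fun a => ⟨hd a, dvd_rfl⟩) L
        (fun j => z (Sum.inl j)) (fun i => z (Sum.inr i)) ⟨a, b, hb, fun ⟨t, ht⟩ => by
          apply hab
          rw [← ht]
          exact isAlgebraic_algebraMap t⟩ hxI
        (Pool.Agent.TH875.Vg.kIdeal_zero (I := overC V) (e := d) (g := F) hz).2 hc hzc
      have hx0 : (fun j => z (Sum.inl j)) ≠ 0 := fun h => hzc (congrFun h c)
      have h2 := hcan L (fun j => z (Sum.inl j)) hx0 hxI u ⟨hu, huT⟩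
      have h3 : ((ght ℂ (gmins u) : ℤ) : ℚ) - (w + 1) * ((ght ℂ fun j => z (Sum.inl j) : ℤ) : ℚ) ≤
          ((κ : ℚ) - w - 1) * ((ght ℂ fun j => z (Sum.inl j) : ℤ) : ℚ) := by
        unfold canHeight at h2
        exact_mod_cast h2
      have h4 : ((covDegree d ∅ d : ℚ) - 2 * m) * ((ght ℂ fun j => z (Sum.inl j) : ℤ) : ℚ) ≤
          ((canDeg ℂ L : ℤ) : ℚ) := by exact_mod_cast h1
      have h5 : (0 : ℚ) ≤ (κ : ℚ) - w - 1 + covDegree d ∅ d := by
        have : ((w + 1 : ℕ) : ℚ) ≤ κ := by exact_mod_cast hκ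
        push_cast at this
        have h6 : (0 : ℚ) ≤ covDegree d ∅ d := by positivity
        linarith
      have h6 : ((ght ℂ fun j => z (Sum.inl j) : ℤ) : ℚ) ≤
          ((canDeg ℂ L : ℤ) : ℚ) / ((covDegree d ∅ d : ℚ) - 2 * m) := by
        rw [le_div_iff₀ hδq]
        linarith
      have h7 := mul_le_mul_of_nonneg_left h6 h5
      have h8 : ((κ : ℚ) - w - 1 + covDegree d ∅ d) / ((covDegree d ∅ d : ℚ) - 2 * m) *
          ((canDeg ℂ L : ℤ) : ℚ) = ((κ : ℚ) - w - 1 + covDegree d ∅ d) *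
          (((canDeg ℂ L : ℤ) : ℚ) / ((covDegree d ∅ d : ℚ) - 2 * m)) := by ring
      rw [h8]
      refine le_trans ?_ h7
      have h9 : ((ght ℂ (gmins u) : ℤ) : ℚ) - (w + 1) * ((ght ℂ fun j => z (Sum.inl j) : ℤ) : ℚ) +
          (covDegree d ∅ d : ℚ) * ((ght ℂ fun j => z (Sum.inl j) : ℤ) : ℚ) ≤
          ((κ : ℚ) - w - 1 + covDegree d ∅ d) * ((ght ℂ fun j => z (Sum.inl j) : ℤ) : ℚ) := by
        linarith
      exact h9)
  have h1 : ((canHeight z v : ℤ) : ℚ) ≤ ((κ : ℚ) - w - 1 + covDegree d ∅ d) /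
      ((covDegree d ∅ d : ℚ) - 2 * m) * canDeg ℂ L := by
    unfold canHeight
    push_cast
    exact hk
  have h2 : ((covDegree d ∅ d : ℚ) - 2 * m) * ((canHeight z v : ℤ) : ℚ) ≤
      ((κ : ℚ) - w - 1 + covDegree d ∅ d) * canDeg ℂ L := by
    have h3 := mul_le_mul_of_nonneg_left h1 hδq.le
    refine h3.trans (le_of_eq ?_)
    field_simp
  exact_mod_cast h2

end Pool.Agent.X323.GI
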