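import Mathlib

/-!
Intersections with generic members of linear systems: definitions.
-/

set_option autoImplicit false

namespace Pool.Agent.X323.GI

open MvPolynomial
open scoped LinearAlgebra.Projectivization

variable {n : ℕ} {k : Type} [Field k] [Algebra k ℂ]

/-- The equations of the intersection `X` of the closed set given by the forms in `V` and the
hypersurfaces `F a = 0`. -/
noncomputable def equations {A : Type} (V : Set (MvPolynomial (Fin (n + 1)) (algebraicClosure k ℂ)))
    (F : A → MvPolynomial (Fin (n + 1)) ℂ) : V ⊕ A → MvPolynomial (Fin (n + 1)) ℂ :=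
  Sum.elim (fun f => map (algebraMap (algebraicClosure k ℂ) ℂ) f.1) F

/-- The coordinate forms `x_c`, `c ∈ Z`. -/
def coordForms (Z : Set (Fin (n + 1))) : Set (MvPolynomial (Fin (n + 1)) ℂ) :=
  {G | ∃ c ∈ Z, G = X c}

/-- For every field generated by a finite set `T` over the algebraic closure of `k`, only finitely
many points of `X = {H = 0}` outside of `Z` have coordinates in the field. -/
def FiniteOver (k : Type) [Field k] [Algebra k ℂ] {A : Type}
    (H : A → MvPolynomial (Fin (n + 1)) ℂ) (S : Set (MvPolynomial (Fin (n + 1)) ℂ)) : Prop :=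
  ∀ T : Finset ℂ, {p : ℙ ℂ (Fin (n + 1) → ℂ) | (∀ a, eval p.rep (H a) = 0) ∧
    (∃ G ∈ S, eval p.rep G ≠ 0) ∧ ∃ x : Fin (n + 1) → ℂ,
      (∀ i, x i ∈ IntermediateField.adjoin (algebraicClosure k ℂ) (T : Set ℂ)) ∧
      ∃ hx : x ≠ 0, p = Projectivization.mk ℂ x hx}.Finite

end Pool.Agent.X323.GI
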