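import Pool.Agent.X323.GI.Cyc
import Pool.Agent.X323.GI.Full
import Pool.Agent.X323.GI.LinDef

/-!
Generic members of linear systems on arbitrary projective varieties: sequences of points, group
curves and tori.
-/

set_option autoImplicit false

namespace Pool.Agent.X323.GI

open Filter MvPolynomial FF Pool.Agent.W603.PV Pool.Agent.W602.GT Pool.Agent.TH145.MG
open scoped LinearAlgebra.Projectivization
open Pool.Agent.Y741 (SubX)
open Pool.Agent.X332.GT (Zeros Forms)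
open Pool.Agent.X332.GS
open Pool.Agent.TH143.EL (TorusMapsIn)

variable {n : ℕ} {k : Type} [Field k] [Algebra k ℂ]

theorem forms_coord (Z : Set (Fin (n + 1))) : Forms (coordForms Z) := by
  rintro _ ⟨c, -, rfl⟩
  exact ⟨1, isHomogeneous_X _ _⟩

variable {A : Type} {d : A → ℕ} {F : A → MvPolynomial (Fin (n + 1)) ℂ}
  {V : Set (MvPolynomial (Fin (n + 1)) (algebraicClosure k ℂ))} {Z : Set (Fin (n + 1))}

theorem forms_eq (hVh : ∀ f ∈ V, ∃ e, f.IsHomogeneous e) (hFh : ∀ a, (F a).IsHomogeneous (d a)) :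
    ∀ i, IsForm (equations V F i) := by
  rintro (f | a)
  · obtain ⟨e, he⟩ := hVh f.1 f.2
    exact ⟨e, he.map _⟩
  · exact ⟨_, hFh a⟩

theorem homog_of (hF : GenericMembers k d Z F) : ∀ a, (F a).IsHomogeneous (d a) := by
  obtain ⟨J, _, P, t, l0, hP, hZ, h0, hgen, hFt⟩ := hF
  intro a
  rw [hFt]
  refine IsHomogeneous.sum _ _ _ fun j _ => ?_
  have h1 := (isHomogeneous_C (Fin (n + 1)) (t a j)).mul ((hP a j).map
    (algebraMap (algebraicClosure k ℂ) ℂ))
  rwa [zero_add] at h1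

theorem fields_of_over {ι : Type} {H : ι → MvPolynomial (Fin (n + 1)) ℂ}
    {S : Set (MvPolynomial (Fin (n + 1)) ℂ)} (h : FiniteOver k H S) (hS : Forms S)
    (hH : ∀ a, IsForm (H a)) : FieldsFinite H (Zeros ℂ S) := by
  intro s hs
  obtain ⟨T, hT⟩ := hs.exists_finset_coe
  refine ⟨(fun p : ℙ ℂ (Fin (n + 1) → ℂ) => p.rep) '' _, (h T).image _, fun x hx hxZ hxs => ?_⟩
  obtain ⟨hx0, hxH⟩ := hx
  obtain ⟨c, hc⟩ := Projectivization.exists_smul_eq_mk_rep ℂ x hx0
  have hc' : (Projectivization.mk ℂ x hx0).rep = (c : ℂ) • x := hc.symm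
  have hev : ∀ (G : MvPolynomial (Fin (n + 1)) ℂ), IsForm G →
      (eval (Projectivization.mk ℂ x hx0).rep G = 0 ↔ eval x G = 0) := by
    rintro G ⟨e, hG⟩
    rw [hc', Pool.Agent.TH145.GH.eval_smul_hom hG]
    exact ⟨fun h => (mul_eq_zero.1 h).resolve_left (pow_ne_zero _ c.ne_zero), fun h => by
      rw [h, mul_zero]⟩
  refine ⟨(Projectivization.mk ℂ x hx0).rep, ⟨_, ⟨fun a => ?_, ?_, x, fun i => ?_, hx0, rfl⟩, rfl⟩,
    ((c⁻¹ : ℂˣ) : ℂ), ?_⟩
  · have h1 := hxH a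
    rw [val_eval] at h1
    exact (hev _ (hH a)).2 h1
  · by_contra hcon
    push Not at hcon
    refine hxZ fun G hG => ?_
    rw [Pool.Agent.X332.GT.aeval_eval]
    exact (hev G (hS G hG)).1 (hcon G hG)
  · have h7 : Subfield.closure s ≤ (IntermediateField.adjoin (algebraicClosure k ℂ)
        (T : Set ℂ)).toSubfield := by
      rw [hT]
      exact Subfield.closure_le.2 (IntermediateField.subset_adjoin _ _)
    exact h7 (hxs i)
  · rw [hc', smul_smul, Units.inv_mul, one_smul]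

variable [Fintype A] [DecidableEq A] {m : ℕ}

theorem hd_univ (hd : 2 * m + 2 ≤ ∑ a, (d a + 1)) :
    2 * m + 2 ≤ ∑ a ∈ (Finset.univ : Finset A), (d a + 1) +
      ∑ a ∈ (Finset.univ : Finset A)ᶜ, (d a - d a / 1) := by
  rw [Finset.compl_univ, Finset.sum_empty, add_zero]
  exact hd

/-- finiteness -/
theorem lin_finite (hVh : ∀ f ∈ V, ∃ e, f.IsHomogeneous e)
    (hV : DimLE (algebraicClosure k ℂ) V m) (hF : GenericMembers k d Z F)
    (hd : 2 * m + 2 ≤ ∑ a, (d a + 1)) : FiniteOver k (equations V F) (coordForms Z) := by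
  have hFh := homog_of hF
  obtain ⟨J, _, P, t, l0, hP, hZ, h0, hgen, hFt⟩ := hF
  have hac : IsAlgClosed (algebraicClosure k ℂ) := (algebraicClosure.isAlgClosure k ℂ).isAlgClosed
  have hind : AlgebraicIndependent (algebraicClosure k ℂ)
      fun p : (a : A) × {j : J a // j ≠ l0 a} => t p.1 p.2.1 / t p.1 (l0 p.1) :=
    hgen.algebraicClosure
  intro T
  have hfin := Pool.Agent.TH145.GL.fin_cyclic (q := fun _ => 1) Finset.univ
    (fun a ha => absurd (Finset.mem_univ a) ha) (hd_univ hd) V hVh hV P hP Z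
    (fun c hc => stars (hZ c hc)) t l0 h0 hind hFt T
  refine hfin.subset ?_
  rintro p ⟨hp1, ⟨_, ⟨c, hc, rfl⟩, hpc⟩, x, hxT, hx0, rfl⟩
  rw [eval_X] at hpc
  obtain ⟨c', hc'⟩ := Projectivization.exists_smul_eq_mk_rep ℂ x hx0
  have hc2 : (Projectivization.mk ℂ x hx0).rep = (c' : ℂ) • x := hc'.symm
  have hev : ∀ (G : MvPolynomial (Fin (n + 1)) ℂ), IsForm G →
      eval (Projectivization.mk ℂ x hx0).rep G = 0 → eval x G = 0 := by
    rintro G ⟨e, hG⟩ h
    rw [hc2, Pool.Agent.TH145.GH.eval_smul_hom hG] at h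
    exact (mul_eq_zero.1 h).resolve_left (pow_ne_zero _ c'.ne_zero)
  refine ⟨⟨c, hc, hpc⟩, x, fun _ => 0, hxT, fun _ => zero_mem _, fun f hf => ?_, fun a _ => ?_,
    fun a ha => absurd (Finset.mem_univ a) ha, hx0, rfl⟩
  · obtain ⟨e, he⟩ := hVh f hf
    have h1 := hev _ ⟨e, he.map _⟩ (hp1 (Sum.inl ⟨f, hf⟩))
    rw [eval_map] at h1
    exact h1
  · exact hev _ ⟨_, hFh a⟩ (hp1 (Sum.inr a))

/-- general type -/
theorem lin_gt (hVh : ∀ f ∈ V, ∃ e, f.IsHomogeneous e)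
    (hV : DimLE (algebraicClosure k ℂ) V m) (hF : GenericMembers k d Z F)
    (hd : 2 * m + 2 ≤ ∑ a, (d a + 1)) (K : Type) [Field K] [Algebra ℂ K] (w : ℕ)
    (y : Fin (n + 1) → K) (hw : 0 < w) (hy : SubX (equations V F) w y) {c : Fin (n + 1)}
    (hc : c ∈ Z) (hyc : y c ≠ 0) : GeneralType ℂ K w := by
  obtain ⟨J, _, P, t, l0, hP, hZ, h0, hgen, hFt⟩ := hF
  have hac : IsAlgClosed (algebraicClosure k ℂ) := (algebraicClosure.isAlgClosure k ℂ).isAlgClosed
  have hind : AlgebraicIndependent (algebraicClosure k ℂ)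
      fun p : (a : A) × {j : J a // j ≠ l0 a} => t p.1 p.2.1 / t p.1 (l0 p.1) :=
    hgen.algebraicClosure
  obtain ⟨⟨hy0, hyH⟩, htr, halg⟩ := hy
  exact Pool.Agent.TH145.GL.general_cyclic (q := fun _ => 1) Finset.univ
    (fun a ha => absurd (Finset.mem_univ a) ha) (hd_univ hd) V hVh hV P hP Z
    (fun c hc => stars (hZ c hc)) t l0 h0 hind hFt hw htr y (fun _ => 0) ⟨c, hc, hyc⟩ halg
    (fun f hf => hyH (Sum.inl ⟨f, hf⟩)) (fun a _ => hyH (Sum.inr a))
    (fun a ha => absurd (Finset.mem_univ a) ha)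

/-- **Generic members of linear systems.** -/
theorem lin_main (hVh : ∀ f ∈ V, ∃ e, f.IsHomogeneous e)
    (hV : DimLE (algebraicClosure k ℂ) V m) (hF : GenericMembers k d Z F)
    (hd : 2 * m + 2 ≤ ∑ a, (d a + 1)) :
    FieldsFinite (equations V F) (Zeros ℂ (coordForms Z)) ∧
      FieldsPeriodic (equations V F) (Zeros ℂ (coordForms Z)) ∧
      TowersPeriodic (equations V F) (Zeros ℂ (coordForms Z)) ∧
      (∀ y, GrpImage (equations V F) y → ∀ z, y z ∈ Zeros ℂ (coordForms Z)) ∧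
      TorusMapsIn (eqs (equations V F)) (Ideal.span (coordForms Z)) := by
  have hform := forms_eq hVh (homog_of hF)
  have hS := forms_coord Z
  have h1 := fields_of_over (lin_finite hVh hV hF hd) hS hform
  have h2 : FieldsPeriodic (equations V F) (Zeros ℂ (coordForms Z)) := fields_of_finite h1
  have h3 := (fields_iff hform hS).1 h2
  refine ⟨h1, h2, (tow_iff hform hS).2 h3, fun y hy z => grp_of_dyn hform hS h3 hy z, ?_⟩
  rw [torus_span hS]
  rintro _ ⟨c, hc, rfl⟩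
  exact Pool.Agent.X316.ZE.torus_of_allGT (allGT_of hform fun K _ _ w y hw hy hne =>
    lin_gt hVh hV hF hd K w y hw hy hc (by rwa [aeval_X] at hne))

end Pool.Agent.X323.GI
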