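import Pool.Agent.TH812.GV2.Vojta
import Pool.Agent.TH145.GK.DataE

/-!
The places where a point has high contact with a hypersurface, over finite extensions of a function
field.
-/

set_option autoImplicit false

open MvPolynomial FF Pool.Agent.W603.LV Pool.Agent.W603.PV Pool.Agent.TH145.GH
  Pool.Agent.TH145.MG Pool.Agent.W602.GT Pool.Agent.W603.CZ

namespace Pool.Agent.X323.GI

/-- The number of the places of high contact. -/
theorem contact_le {k F : Type} [Field k] [Field F] [Algebra k F] [IsAlgClosed k] [CharZero k]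
    [IsFF k F] {n d : ℕ} {H : MvPolynomial (Fin (n + 1)) F} (hH : H.IsHomogeneous d) :
    ∃ C : ℕ, ∀ (L : Type) [Field L] [Algebra k L] [Algebra F L] [IsScalarTower k F L]
      [FiniteDimensional F L] (x : Fin (n + 1) → L), x ≠ 0 → aeval x H ≠ 0 → ∀ q : ℕ, 0 < q →
      {P : Place k L | d * pord P x + q ≤ P.ord (aeval x H)}.Finite ∧
      q * (({P : Place k L | d * pord P x + q ≤ P.ord (aeval x H)}.ncard : ℕ) : ℤ) ≤
        d * pht k x + C * Module.finrank F L := by
  classical
  obtain ⟨g, hg⟩ : ∃ g : Place k F → ℤ, ∀ v, g v = ∑ u ∈ H.support, max (-v.ord (H.coeff u)) 0 :=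
    ⟨_, fun _ => rfl⟩
  have hg0 : ∀ v, 0 ≤ g v := fun v => by
    rw [hg]
    exact Finset.sum_nonneg fun _ _ => le_max_right _ _
  obtain ⟨S0, hS0⟩ := exists_supp (k := k) H.support fun u => H.coeff u
  have hgf : {v | g v ≠ 0}.Finite := by
    refine (Finset.finite_toSet S0).subset fun v hv => ?_
    by_contra hcon
    apply hv
    rw [hg]
    refine Finset.sum_eq_zero fun u hu => ?_
    have h1 : v.ord (H.coeff u) = 0 := by
      by_contra h
      exact hcon (hS0 u hu v h)
    rw [h1]
    rfl
  obtain ⟨C, hC⟩ := Pool.Agent.TH812.GV2.sum_under (k := k) hg0 hgf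
  refine ⟨C, ?_⟩
  intro L _ _ _ _ _ x hx hxH q hq
  have hL : IsFF k L := isFF_of_finite (F := F)
  obtain ⟨hGf, hGs⟩ := hC L
  have hx' : ∃ j, x j ≠ 0 := Function.ne_iff.1 hx
  have hle : ∀ P : Place k L,
      0 ≤ P.ord (aeval x H) - d * pord P x + ram F P * g (under F P) := by
    intro P
    have h1 := Pool.Agent.TH145.GK.ord_ge P (hH.map (algebraMap F L))
      (g := ram F P * g (under F P)) (fun u => by
        rw [coeff_map]
        by_cases hu : H.coeff u = 0
        · left
          rw [hu, map_zero]
        right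
        rw [ord_under, ← mul_neg]
        refine mul_le_mul_of_nonneg_left ?_ (by positivity)
        have h2 : -(under F P).ord (H.coeff u) ≤ g (under F P) := by
          rw [hg]
          exact (le_max_left _ 0).trans (Finset.single_le_sum
            (f := fun u => max (-(under F P).ord (H.coeff u)) 0) (fun _ _ => le_max_right _ _)
            (mem_support_iff.2 hu))
        linarith) hx (by rw [eval_map, ← aeval_def]; exact hxH)
    rw [eval_map, ← aeval_def] at h1
    linarith
  have hfin1 : (Function.support fun P : Place k L => P.ord (aeval x H)).Finite :=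
    finite_support _
  have hfin2 := pord_finite (k := k) hx'
  obtain ⟨T, hT⟩ : ∃ T : Finset (Place k L), T = hfin1.toFinset ∪ hfin2.toFinset ∪
    hGf.toFinset := ⟨_, rfl⟩
  have m1 : ∀ P : Place k L, P ∉ T → P.ord (aeval x H) = 0 := fun P hP => by
    by_contra h
    exact hP (by rw [hT]; simp [h])
  have m2 : ∀ P : Place k L, P ∉ T → pord P x = 0 := fun P hP => by
    by_contra h
    exact hP (by rw [hT]; simp [h])
  have m3 : ∀ P : Place k L, P ∉ T → (ram F P : ℤ) * g (under F P) = 0 := fun P hP => by
    by_contra h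
    exact hP (by
      rw [hT]
      refine Finset.mem_union_right _ ?_
      rw [Set.Finite.mem_toFinset]
      exact h)
  have s1 : ∑ P ∈ T, P.ord (aeval x H) = 0 := sum_ord_finset _ T fun P hP => by
    by_contra h
    exact hP (m1 P h)
  have s2 : ∑ P ∈ T, pord P x = - pht k x := by
    unfold pht
    rw [neg_neg, finsum_eq_sum_of_support_subset (s := T)]
    intro P hP
    by_contra h
    exact hP (m2 P h)
  have s3 : ∑ P ∈ T, (ram F P : ℤ) * g (under F P) ≤ C * Module.finrank F L := by
    rw [← finsum_eq_sum_of_support_subset (s := T)]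
    · exact hGs
    intro P hP
    by_contra h
    exact hP (m3 P h)
  have hsub : {P : Place k L | d * pord P x + q ≤ P.ord (aeval x H)} ⊆ (T : Set (Place k L)) := by
    intro P hP
    by_contra h
    have h1 := m1 P h
    have h2 := m2 P h
    have h3 : d * pord P x + q ≤ P.ord (aeval x H) := hP
    rw [h1, h2, mul_zero] at h3
    omega
  have hfin := (Finset.finite_toSet T).subset hsub
  refine ⟨hfin, ?_⟩
  rw [Set.ncard_eq_toFinset_card _ hfin]
  have h5 : (q : ℤ) * (hfin.toFinset.card : ℤ) ≤
      ∑ P ∈ hfin.toFinset, (P.ord (aeval x H) - d * pord P x + ram F P * g (under F P)) := by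
    rw [mul_comm, ← smul_eq_mul, Nat.cast_smul_eq_nsmul, ← Finset.sum_const]
    refine Finset.sum_le_sum fun P hP => ?_
    have h6 : d * pord P x + q ≤ P.ord (aeval x H) := by
      rw [Set.Finite.mem_toFinset] at hP
      exact hP
    have h7 : (0 : ℤ) ≤ ram F P * g (under F P) := mul_nonneg (by positivity) (hg0 _)
    linarith
  have h6 : ∑ P ∈ hfin.toFinset, (P.ord (aeval x H) - d * pord P x + ram F P * g (under F P)) ≤
      ∑ P ∈ T, (P.ord (aeval x H) - d * pord P x + ram F P * g (under F P)) :=
    Finset.sum_le_sum_of_subset_of_nonneg (fun P hP => by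
      rw [Set.Finite.mem_toFinset] at hP
      exact hsub hP) fun P _ _ => hle P
  have h7 : ∑ P ∈ T, (P.ord (aeval x H) - d * pord P x + ram F P * g (under F P)) =
      d * pht k x + ∑ P ∈ T, (ram F P : ℤ) * g (under F P) := by
    rw [Finset.sum_add_distrib, Finset.sum_sub_distrib, s1, ← Finset.mul_sum, s2]
    ring
  linarith

end Pool.Agent.X323.GI
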