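import Pool.Agent.X323.GI.Orb
import Pool.Agent.X323.GI.OrbDef

/-!
Vojta's height inequality for orbifold pairs on arbitrary projective varieties over function fields.
-/

set_option autoImplicit false

open MvPolynomial FF Pool.Agent.W603.LV Pool.Agent.W603.PV Pool.Agent.TH145.GH
  Pool.Agent.TH145.MG Pool.Agent.W602.GT Pool.Agent.W603.CZ

namespace Pool.Agent.X323.GI

theorem orb_main {k0 k F0 F : Type} [Field k0] [Field k] [Field F0] [Field F] [IsAlgClosed k]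
    [CharZero k] [Algebra k0 k] [Algebra k F] [Algebra k0 F] [IsScalarTower k0 k F]
    [Algebra k0 F0] [Algebra F0 F] [IsScalarTower k0 F0 F] [IsFF k F]
    (hfg : ∃ S : Finset F0, IntermediateField.adjoin k0 (S : Set F0) = ⊤) {n m : ℕ}
    (V : Set (MvPolynomial (Fin (n + 1)) F0)) (hV : DimLE F0 V m) {α : Type} [Fintype α]
    (H : α → MvPolynomial (Fin (n + 1)) F) (d : α → ℕ) (hH : ∀ a, (H a).IsHomogeneous (d a))
    (I0 : α → Fin (n + 1) →₀ ℕ) (hI0 : ∀ a, (H a).coeff (I0 a) ≠ 0)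
    (hgen : AlgebraicIndependent F0 fun p : {p : α × (Fin (n + 1) →₀ ℕ) //
      p.2.degree = d p.1 ∧ p.2 ≠ I0 p.1} => (H p.1.1).coeff p.1.2 / (H p.1.1).coeff (I0 p.1.1))
    (q : α → ℕ) :
    ∃ C : ℕ, ∀ (L : Type) [Field L] [Algebra k L] [Algebra F L]
      [IsScalarTower k F L] [FiniteDimensional F L] (x : Fin (n + 1) → L), x ≠ 0 →
      (∀ f ∈ V, aeval x (map (algebraMap F0 F) f) = 0) →
      (LowContact k H d q x).Finite ∧
      (orbDegree H d q x - 2 * m - 1) * (pht k x : ℚ) ≤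
        ((LowContact k H d q x).ncard : ℚ) + canDeg k L + C * Module.finrank F L := by
  classical
  obtain ⟨C0, h0⟩ := Pool.Agent.TH812.GV2.vojta_sharp (k0 := k0) (k := k) hfg V hV H d hH I0 hI0
    hgen
  choose Cc hc using fun a => contact_le (k := k) (hH a)
  refine ⟨C0 + ∑ a, Cc a, ?_⟩
  intro L _ _ _ _ _ x hx hxV
  have h1 := h0 L x hx hxV
  rw [finsum_eq_sum_of_fintype] at h1
  have hcx := fun a => hc a L x hx
  -- finiteness
  have hfinL : (LowContact k H d q x).Finite := by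
    have h2 : (⋃ a ∈ (Finset.univ.filter fun a => aeval x (H a) ≠ 0),
        {P : Place k L | d a * pord P x + (1 : ℕ) ≤ P.ord (aeval x (H a))}).Finite :=
      Set.Finite.biUnion (Finset.finite_toSet _) fun a ha =>
        (hcx a (Finset.mem_filter.1 ha).2 1 one_pos).1
    refine h2.subset ?_
    rintro P ⟨a, ha, h3, -⟩
    rw [Set.mem_iUnion₂]
    exact ⟨a, Finset.mem_filter.2 ⟨Finset.mem_univ _, ha⟩, by
      rw [Set.mem_ofPred_eq]
      push_cast
      omega⟩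
  refine ⟨hfinL, ?_⟩
  obtain ⟨S, hS⟩ : ∃ S : Finset α, ∀ a, a ∈ S ↔ aeval x (H a) ≠ 0 ∧ q a ≠ 0 :=
    ⟨Finset.univ.filter fun a => aeval x (H a) ≠ 0 ∧ q a ≠ 0, fun a => by simp⟩
  obtain ⟨Hi, hHi⟩ : ∃ Hi : α → Set (Place k L), ∀ a, Hi a =
    {P : Place k L | d a * pord P x + q a ≤ P.ord (aeval x (H a))} := ⟨_, fun _ => rfl⟩
  have hHf : ∀ a ∈ S, (Hi a).Finite ∧ (q a : ℤ) * ((Hi a).ncard : ℤ) ≤
      d a * pht k x + Cc a * Module.finrank F L := fun a ha => by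
    rw [hHi]
    exact hcx a ((hS a).1 ha).1 (q a) (Nat.pos_of_ne_zero ((hS a).1 ha).2)
  have hU : (⋃ a ∈ S, Hi a).Finite := Set.Finite.biUnion (Finset.finite_toSet _) fun a ha =>
    (hHf a ha).1
  have hsub : meetsAny (k := k) (fun a : {a // aeval x (H a) ≠ 0} => H a) (fun a => d a) x ⊆
      LowContact k H d q x ∪ ⋃ a ∈ S, Hi a := by
    rintro P ⟨⟨a, ha⟩, h3⟩
    have h3' : d a * pord P x < P.ord (aeval x (H a)) := h3
    by_cases h4 : q a = 0 ∨ P.ord (aeval x (H a)) < d a * pord P x + q a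
    · exact Or.inl ⟨a, ha, h3', h4⟩
    · push Not at h4
      right
      rw [Set.mem_iUnion₂]
      exact ⟨a, (hS a).2 ⟨ha, h4.1⟩, by rw [hHi]; exact h4.2⟩
  have h2 : ((meetsAny (k := k) (fun a : {a // aeval x (H a) ≠ 0} => H a)
      (fun a => d a) x).ncard : ℕ) ≤ (LowContact k H d q x).ncard + ∑ a ∈ S, (Hi a).ncard :=
    (Set.ncard_le_ncard hsub (hfinL.union hU)).trans ((Set.ncard_union_le _ _).trans
      (Nat.add_le_add_left (Finset.set_ncard_biUnion_le _ _) _))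
  have h2' : ((meetsAny (k := k) (fun a : {a // aeval x (H a) ≠ 0} => H a)
      (fun a => d a) x).ncard : ℚ) ≤ (LowContact k H d q x).ncard + ∑ a ∈ S, ((Hi a).ncard : ℚ) := by
    exact_mod_cast h2
  obtain ⟨fr, hfr⟩ : ∃ fr : ℚ, fr = Module.finrank F L := ⟨_, rfl⟩
  have hfr0 : 0 ≤ fr := by rw [hfr]; positivity
  have h3 : ∀ a ∈ S, ((Hi a).ncard : ℚ) ≤ (q a : ℚ)⁻¹ * d a * pht k x + Cc a * fr := by
    intro a ha
    have h4 : (q a : ℚ) * ((Hi a).ncard : ℚ) ≤ d a * pht k x + Cc a * fr := by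
      rw [hfr]
      exact_mod_cast (hHf a ha).2
    have h5 : (1 : ℚ) ≤ q a := by
      exact_mod_cast Nat.one_le_iff_ne_zero.2 ((hS a).1 ha).2
    have h6 : (0 : ℚ) < q a := lt_of_lt_of_le one_pos h5
    have h7 : ((Hi a).ncard : ℚ) = (q a : ℚ)⁻¹ * ((q a : ℚ) * ((Hi a).ncard : ℚ)) := by
      field_simp
    have h8 : (q a : ℚ)⁻¹ * ((q a : ℚ) * ((Hi a).ncard : ℚ)) ≤
        (q a : ℚ)⁻¹ * (d a * pht k x + Cc a * fr) :=
      mul_le_mul_of_nonneg_left h4 (inv_nonneg.2 h6.le)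
    have h9 : (q a : ℚ)⁻¹ * (Cc a * fr) ≤ 1 * (Cc a * fr) :=
      mul_le_mul_of_nonneg_right (inv_le_one_of_one_le₀ h5) (by positivity)
    rw [h7]
    linarith
  have h4 : ∑ a ∈ S, ((Hi a).ncard : ℚ) ≤ ∑ a ∈ S, ((q a : ℚ)⁻¹ * d a) * pht k x +
      (∑ a, (Cc a : ℚ)) * fr := by
    refine (Finset.sum_le_sum h3).trans ?_
    rw [Finset.sum_add_distrib]
    refine add_le_add le_rfl ?_
    rw [← Finset.sum_mul]
    refine mul_le_mul_of_nonneg_right ?_ hfr0
    exact Finset.sum_le_sum_of_subset_of_nonneg (Finset.subset_univ _) fun _ _ _ =>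
      Nat.cast_nonneg _
  have h5 : orbDegree H d q x = ∑ a, (d a : ℚ) + ({a | aeval x (H a) = 0}.ncard : ℚ) -
      ∑ a ∈ S, (q a : ℚ)⁻¹ * d a := by
    have h6 : ({a | aeval x (H a) = 0}.ncard : ℚ) = ∑ a, if aeval x (H a) = 0 then (1 : ℚ) else 0 := by
      rw [Finset.sum_boole, Set.ncard_eq_toFinset_card']
      congr 2
      ext a
      simp
    have h7 : ∑ a ∈ S, (q a : ℚ)⁻¹ * d a = ∑ a, if aeval x (H a) = 0 then (0 : ℚ) else
        (q a : ℚ)⁻¹ * d a := by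
      rw [← Finset.sum_subset (Finset.subset_univ S)]
      · refine Finset.sum_congr rfl fun a ha => ?_
        rw [if_neg ((hS a).1 ha).1]
      · intro a _ ha
        split_ifs with h8
        · rfl
        · have h9 : q a = 0 := by
            by_contra h9
            exact ha ((hS a).2 ⟨h8, h9⟩)
          rw [h9, Nat.cast_zero, inv_zero, zero_mul]
    rw [h6, h7, ← Finset.sum_add_distrib, ← Finset.sum_sub_distrib]
    unfold orbDegree
    refine Finset.sum_congr rfl fun a _ => ?_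
    split_ifs
    · ring
    · ring
  have h6 : (∑ a, (d a : ℚ) + ({a | aeval x (H a) = 0}.ncard : ℚ) - 2 * m - 1) * pht k x ≤
      (meetsAny (k := k) (fun a : {a // aeval x (H a) ≠ 0} => H a) (fun a => d a) x).ncard +
          canDeg k L + C0 * fr := by
    rw [hfr]
    exact_mod_cast h1
  rw [h5, ← hfr]
  push_cast
  have h7 : ∑ a ∈ S, ((q a : ℚ)⁻¹ * d a) * pht k x = (∑ a ∈ S, (q a : ℚ)⁻¹ * d a) * pht k x := by
    rw [Finset.sum_mul]
  rw [h7] at h4
  linarith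

end Pool.Agent.X323.GI
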