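import Pool.Agent.Y741.MTop
import Pool.Agent.W602.GT.SpThm
import Pool.Agent.W602.GT.Cls

/-!
Generic complete intersections: the special sets.
-/

set_option autoImplicit false

namespace Pool.Agent.X323.GI

open MvPolynomial FF Pool.Agent.W602.GT Pool.Agent.TH145.MG
open Pool.Agent.TH145.GC (Cf)
open Pool.Agent.Y741 (SubX LineX GmX AllX)

section

variable {k : Type} [Field k] {n : ℕ} {A : Type} {H : A → MvPolynomial (Fin (n + 1)) k}

theorem val_eval (x : Fin (n + 1) → k) (G : MvPolynomial (Fin (n + 1)) k) :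
    val x G = eval x G := by
  unfold val
  rw [MvPolynomial.aeval_eq_eval]

theorem subX_of {K : Type} [Field K] [Algebra k K] {w : ℕ} {y : Fin (n + 1) → K}
    (hy : SubVar H K w y) : SubX H w y :=
  ⟨⟨hy.ne, hy.mem⟩, hy.dim, by
    rw [hy.gen]
    infer_instance⟩

/-- a basis of a line -/
theorem line_of {W : Submodule k (Fin (n + 1) → k)} (hW : LineX H W) :
    ∃ a b : Fin (n + 1) → k, Line H a b ∧ ∀ v ∈ W, ∃ c c' : k, c • a + c' • b = v := by
  obtain ⟨hW2, hW⟩ := hW
  have hfd : Module.Finite k W := Module.finite_of_finrank_pos (by omega)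
  obtain ⟨b⟩ : Nonempty (Module.Basis (Fin 2) k W) :=
    ⟨(Module.finBasis k W).reindex (finCongr hW2)⟩
  refine ⟨b 0, b 1, ⟨?_, fun c c' i => ?_⟩, fun v hv => ?_⟩
  · have h1 := b.linearIndependent.map' W.subtype (Submodule.ker_subtype W)
    have h2 : ![((b 0 : W) : Fin (n + 1) → k), (b 1 : W)] = W.subtype ∘ b := by
      funext i
      fin_cases i <;> rfl
    rw [h2]
    exact h1
  · rw [val_eval]
    exact hW i _ (W.add_mem (W.smul_mem c (b 0).2) (W.smul_mem c' (b 1).2))
  · have h1 := b.sum_repr ⟨v, hv⟩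
    rw [Fin.sum_univ_two] at h1
    exact ⟨_, _, congrArg Subtype.val h1⟩

/-- the span of two points of a line -/
theorem lineX_of {a b : Fin (n + 1) → k} (h : Line H a b) :
    LineX H (Submodule.span k {a, b}) := by
  refine ⟨?_, fun i v hv => ?_⟩
  · have h1 := finrank_span_eq_card h.1
    have h2 : Set.range ![a, b] = {a, b} := by
      rw [Matrix.range_cons, Matrix.range_cons, Matrix.range_empty, Set.union_empty]
      rfl
    rw [h2] at h1
    rw [h1]
    rfl
  · obtain ⟨c, c', rfl⟩ := Submodule.mem_span_pair.1 hv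
    rw [← val_eval]
    exact h.2 c c' i

/-- a form vanishes on the closure of the lines if and only if it vanishes on the lines -/
theorem lines_iff {G : MvPolynomial (Fin (n + 1)) k} :
    (∀ a b, Line H a b → ∀ c c' : k, val (c • a + c' • b) G = 0) ↔
      ∀ W, LineX H W → ∀ v ∈ W, eval v G = 0 := by
  constructor
  · intro h W hW v hv
    obtain ⟨a, b, hab, hsp⟩ := line_of hW
    obtain ⟨c, c', rfl⟩ := hsp v hv
    rw [← val_eval]
    exact h a b hab c c'
  · intro h a b hab c c'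
    rw [val_eval]
    exact h _ (lineX_of hab) _ (Submodule.mem_span_pair.2 ⟨c, c', rfl⟩)

theorem spLine_empty : SpLine H = ∅ ↔ ∀ W, ¬ LineX H W := by
  constructor
  · intro h W hW
    obtain ⟨a, b, hab, -⟩ := line_of hW
    have ha : a ≠ 0 := fun h0 => by
      have h1 := hab.1.ne_zero 0
      exact h1 h0
    have h2 : (1 : k) • a + (0 : k) • b = a := by rw [one_smul, zero_smul, add_zero]
    have h1 : a ∈ SpLine H := by
      refine ⟨⟨ha, fun i => ?_⟩, fun G _ hG => ?_⟩
      · have h3 := hab.2 1 0 i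
        rwa [h2] at h3
      · have h3 := hG a b hab 1 0
        rwa [h2] at h3
    rw [h] at h1
    exact h1
  · intro h
    rw [Set.eq_empty_iff_forall_notMem]
    intro x hx
    have h1 := hx.2 1 ⟨0, isHomogeneous_one _ _⟩ (lines_iff.2 fun W hW => absurd hW (h W))
    unfold val at h1
    rw [map_one] at h1
    exact one_ne_zero h1

theorem gmX_of {P : Fin (n + 1) → Polynomial k} (h : GmX H P) : GmCurve H P := by
  obtain ⟨h1, s, t, hs, ht, i, j, hij⟩ := h
  refine ⟨fun t ht h0 => ?_, fun t ht i => ?_, ⟨s, t, hs, ht, ?_⟩⟩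
  · obtain ⟨j, hj⟩ := (h1 t ht).1
    exact hj (congrFun h0 j)
  · rw [val_eval]
    exact (h1 t ht).2 i
  · rw [LinearIndependent.pair_iff]
    intro a b hab
    have e1 := congrFun hab i
    have e2 := congrFun hab j
    simp only [Pi.add_apply, Pi.smul_apply, smul_eq_mul, Pi.zero_apply] at e1 e2
    have hne : (P i).eval s * (P j).eval t - (P j).eval s * (P i).eval t ≠ 0 := sub_ne_zero.2 hij
    constructor
    · have e3 : a * ((P i).eval s * (P j).eval t - (P j).eval s * (P i).eval t) = 0 := by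
        linear_combination (P j).eval t * e1 - (P i).eval t * e2
      exact (mul_eq_zero.1 e3).resolve_right hne
    · have e3 : b * ((P i).eval s * (P j).eval t - (P j).eval s * (P i).eval t) = 0 := by
        linear_combination (P i).eval s * e2 - (P j).eval s * e1
      exact (mul_eq_zero.1 e3).resolve_right hne

end

/-- the coefficients of one form -/
theorem ind_unit {N d : ℕ} {F : MvPolynomial (Fin (N + 1)) ℂ}
    (h : AlgebraicIndependent ℚ fun I : {I : Fin (N + 1) →₀ ℕ // I.degree = d} => F.coeff I.1) :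
    AlgebraicIndependent ℚ
      fun p : Cf N (fun _ : Unit => d) => ((fun _ : Unit => F) p.1).coeff p.2.1 := by
  refine h.comp (fun p : Cf N (fun _ : Unit => d) => p.2) ?_
  rintro ⟨⟨⟩, I⟩ ⟨⟨⟩, J⟩ hIJ
  have h1 : I = J := hIJ
  rw [h1]

section

variable {k0 k : Type} [Field k0] [Field k] [Algebra k0 k] [IsAlgClosed k] [CharZero k] {n : ℕ}
  {A : Type} [Fintype A] [DecidableEq A] {d : A → ℕ} {H : A → MvPolynomial (Fin (n + 1)) k}

omit [Fintype A] [DecidableEq A] [IsAlgClosed k] [CharZero k] in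
theorem forms_of (hH : ∀ a, (H a).IsHomogeneous (d a)) : ∀ a, IsForm (H a) := fun a => ⟨_, hH a⟩

theorem all_gt (hn : 1 ≤ n) (hd0 : ∀ a, 0 < d a) (hH : ∀ a, (H a).IsHomogeneous (d a))
    (hind : AlgebraicIndependent k0 fun p : Cf n d => (H p.1).coeff p.2.1)
    (hd : 3 * n + 3 ≤ 2 * ∑ a, d a + Fintype.card A)
    (hd2 : 2 * n ≤ ∑ a, d a + Fintype.card A + 1) : AllGeneralType H :=
  fun K _ _ w y hw hy =>
    Pool.Agent.Y741.mf_gt (k0 := k0) hn hd0 hH hind hd hd2 hw (subX_of hy)

/-- **The algebraic special set is given by the lines.** -/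
theorem alg_sub_line (hn : 1 ≤ n) (hd0 : ∀ a, 0 < d a) (hH : ∀ a, (H a).IsHomogeneous (d a))
    (hind : AlgebraicIndependent k0 fun p : Cf n d => (H p.1).coeff p.2.1)
    (hd : 3 * n + 3 ≤ 2 * ∑ a, d a + Fintype.card A) : SpAlg H ⊆ SpLine H := by
  rintro x ⟨hx, h⟩
  refine ⟨hx, fun G hG hL => h G hG fun K _ _ w y hw hy hgt => ?_⟩
  by_contra hne
  obtain ⟨e, he⟩ := hG
  exact hgt ((Pool.Agent.Y741.m_forms (k0 := k0) hn hd0 hH hind hd he).1 (lines_iff.1 hL) K w y hw
    (subX_of hy) hne)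

theorem loci (hn : 1 ≤ n) (hd0 : ∀ a, 0 < d a) (hH : ∀ a, (H a).IsHomogeneous (d a))
    (hind : AlgebraicIndependent k0 fun p : Cf n d => (H p.1).coeff p.2.1)
    (hd : 3 * n + 3 ≤ 2 * ∑ a, d a + Fintype.card A) : SpAlg H = SpLine H ∧ SpGm H = SpLine H := by
  have hinf : Infinite k := IsAlgClosed.instInfinite
  have h1 : SpLine H ⊆ SpGm H := line_sub_gm H
  have h2 : SpGm H ⊆ SpAlg H := gm_sub_alg (forms_of hH)
  have h3 := alg_sub_line (k0 := k0) hn hd0 hH hind hd
  exact ⟨Set.Subset.antisymm h3 (h1.trans h2), Set.Subset.antisymm (h2.trans h3) h1⟩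

/-- **The subvarieties of large dimension are not covered by lines.** -/
theorem strong (hn : 1 ≤ n) (hd0 : ∀ a, 0 < d a) (hH : ∀ a, (H a).IsHomogeneous (d a))
    (hind : AlgebraicIndependent k0 fun p : Cf n d => (H p.1).coeff p.2.1)
    (hd : 3 * n + 3 ≤ 2 * ∑ a, d a + Fintype.card A) {K : Type} [Field K] [Algebra k K] {w : ℕ}
    {y : Fin (n + 1) → K} (hw : 2 * n + 2 ≤ ∑ a, d a + Fintype.card A + w) (hy : SubX H w y) :
    ∃ (G : MvPolynomial (Fin (n + 1)) k) (e : ℕ), G.IsHomogeneous e ∧ aeval y G ≠ 0 ∧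
      ∀ W, LineX H W → ∀ v ∈ W, eval v G = 0 := by
  classical
  obtain ⟨G, e, hG, hyG, h⟩ := Pool.Agent.Y741.exists_H_sub (k0 := k0) Finset.univ
    (by rwa [Finset.card_univ]) H hH hind hy.1.1 hy.2.2 hy.2.1
  refine ⟨G, e, hG, hyG, (Pool.Agent.Y741.m_forms (k0 := k0) hn hd0 hH hind hd hG).2
    fun K' _ _ w' y' hw' hy' hne => ?_⟩
  by_contra hcon
  have h1 := Pool.Agent.Y741.mf_dich (k0 := k0) hn hd0 hH hind hd hw' hy' hcon
    (AlgebraicClosure K') (IsScalarTower.toAlgHom k K' (AlgebraicClosure K'))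
  have hmap : ∀ p : MvPolynomial (Fin (n + 1)) k,
      aeval (fun j => (IsScalarTower.toAlgHom k K' (AlgebraicClosure K')) (y' j)) p =
        (IsScalarTower.toAlgHom k K' (AlgebraicClosure K')) (aeval y' p) := fun p => by
    rw [comp_aeval_apply]
  have hinj : ∀ z : K', z ≠ 0 → (IsScalarTower.toAlgHom k K' (AlgebraicClosure K')) z ≠ 0 :=
    fun z hz => (map_ne_zero _).2 hz
  have h2 := h (AlgebraicClosure K')
    (fun j => (IsScalarTower.toAlgHom k K' (AlgebraicClosure K')) (y' j)) (fun h0 => by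
      apply hy'.1.1
      funext j
      by_contra hj
      exact hinj _ hj (congrFun h0 j)) (fun b hb => absurd (Finset.mem_univ b) hb) h1
  rw [hmap] at h2
  exact hinj _ hne h2

end

end Pool.Agent.X323.GI
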